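import Pool.Agent.Lib.MP_731536_al.Defs

/-!
# MP_731536_al, module WORD
-/

open Equiv Finset

namespace MP731536

private theorem word_shorten {G Φ : Type*} [Group G] [Fintype Φ] [MulAction G Φ] (A : Set G)
    {x y : Φ} (n : ℕ) : ∀ l : List G, l.length = n → (∀ g ∈ l, g ∈ A) → l.prod • x = y →
      ∃ l : List G, l.length ≤ Fintype.card Φ ∧ (∀ g ∈ l, g ∈ A) ∧ l.prod • x = y := by
  induction n using Nat.strong_induction_on with
  | _ n ih =>
    intro l hl hA hy
    by_cases hc : l.length ≤ Fintype.card Φ
    · exact ⟨l, hc, hA, hy⟩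
    push Not at hc
    have hcard : Fintype.card Φ < Fintype.card (Fin (l.length + 1)) := by
      rw [Fintype.card_fin]; omega
    obtain ⟨i, j, hij, hp⟩ := Fintype.exists_ne_map_eq_of_card_lt
      (fun i : Fin (l.length + 1) => (l.drop i).prod • x) hcard
    have key : ∀ i j : Fin (l.length + 1), i < j →
        (l.drop i).prod • x = (l.drop j).prod • x →
        ∃ l : List G, l.length ≤ Fintype.card Φ ∧ (∀ g ∈ l, g ∈ A) ∧ l.prod • x = y := by
      intro i j hij hp
      have hi := i.2
      have hj := j.2
      have hlt : (i : ℕ) < j := hij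
      refine ih (l.take i ++ l.drop j).length ?_ (l.take i ++ l.drop j) rfl ?_ ?_
      · rw [List.length_append, List.length_take, List.length_drop, ← hl]
        omega
      · intro g hg
        rcases List.mem_append.1 hg with h | h
        · exact hA g (List.mem_of_mem_take h)
        · exact hA g (List.mem_of_mem_drop h)
      · rw [List.prod_append, mul_smul, ← hp, ← mul_smul, ← List.prod_append,
          List.take_append_drop, hy]
    rcases lt_or_gt_of_ne hij with h | h
    · exact key i j h hp
    · exact key j i h hp.symm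

/-- WORD. Orbits are reached by words of length at most the number of points.
Proof: the sets `B k` of points reachable from `x` with at most `k` letters increase; if
`B (k+1) = B k` then `B k` is invariant under `A`, hence (A is inverse closed, finite set) under the
closure, so it is the whole orbit. Hence `B k` has at least `k+1` elements until it is the orbit. -/
theorem word_orbit {G Φ : Type*} [Group G] [Fintype Φ] [MulAction G Φ] (A : Set G)
    (hA : ∀ g ∈ A, g⁻¹ ∈ A) {x y : Φ} (h : ∃ g ∈ Subgroup.closure A, g • x = y) :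
    ∃ l : List G, l.length ≤ Fintype.card Φ ∧ (∀ g ∈ l, g ∈ A) ∧ l.prod • x = y := by
  obtain ⟨g, hg, hy⟩ := h
  have hex : ∃ l : List G, (∀ g ∈ l, g ∈ A) ∧ l.prod = g := by
    refine Subgroup.closure_induction (p := fun g _ => ∃ l : List G, (∀ g ∈ l, g ∈ A) ∧ l.prod = g)
      ?_ ?_ ?_ ?_ hg
    · intro a ha
      refine ⟨[a], ?_, by simp⟩
      intro b hb
      rw [List.mem_singleton.1 hb]
      exact ha
    · exact ⟨[], by simp, by simp⟩
    · rintro a b - - ⟨l, hl, rfl⟩ ⟨m, hm, rfl⟩
      refine ⟨l ++ m, ?_, by simp⟩
      intro g hg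
      rcases List.mem_append.1 hg with h | h
      · exact hl g h
      · exact hm g h
    · rintro a - ⟨l, hl, rfl⟩
      refine ⟨(l.map (·⁻¹)).reverse, ?_, (List.prod_inv_reverse l).symm⟩
      intro g hg
      rw [List.mem_reverse, List.mem_map] at hg
      obtain ⟨b, hb, rfl⟩ := hg
      exact hA b (hl b hb)
  obtain ⟨l, hl, hlg⟩ := hex
  exact word_shorten A l.length l rfl hl (by rw [hlg]; exact hy)

end MP731536
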