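import Pool.Agent.Lib.MP_731536_al.Basics

/-!
# COMM3 (MP_731536_al)
-/

set_option linter.unusedSectionVars false

open Equiv Finset

namespace MP731536

variable {α β : Type*} [Fintype α] [DecidableEq α]

private theorem comm3_ai (g : Perm α) (x : α) : g (g⁻¹ x) = x := g.apply_symm_apply x

private theorem comm3_ia (g : Perm α) (x : α) : g⁻¹ (g x) = x := g.symm_apply_apply x

/-- COMM3. The commutator of two permutations whose supports meet in one point. -/
theorem comm3 {g h : Perm α} {p : α} (hgh : ∀ x, g x ≠ x → h x ≠ x → x = p) (hg : g p ≠ p)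
    (hh : h p ≠ p) :
    g * h * g⁻¹ * h⁻¹ = cyc3 p (g p) (h p) ∧ g p ≠ h p := by
  -- a point moved by `h` and different from `p` is fixed by `g`, and conversely
  have hA : ∀ x, h x ≠ x → x ≠ p → g x = x := fun x h1 h2 => by
    by_contra h3
    exact h2 (hgh x h3 h1)
  have hB : ∀ x, g x ≠ x → x ≠ p → h x = x := fun x h1 h2 => by
    by_contra h3
    exact h2 (hgh x h1 h3)
  have hggp : g (g p) ≠ g p := fun h1 => hg (g.injective h1)
  have hhhp : h (h p) ≠ h p := fun h1 => hh (h.injective h1)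
  have hne : g p ≠ h p := by
    intro h1
    have := hB (g p) hggp hg
    rw [h1] at this
    exact hhhp this
  refine ⟨?_, hne⟩
  have hinv : ∀ (k : Perm α) x, k x = x → k⁻¹ x = x := fun k x hx => by
    rw [Perm.inv_eq_iff_eq]
    exact hx.symm
  ext x
  simp only [Perm.mul_apply]
  by_cases hx1 : x = p
  · subst hx1
    rw [cyc3_apply_left (Ne.symm hg) hh]
    have h1 : h (h⁻¹ x) ≠ h⁻¹ x := by
      intro h1
      rw [comm3_ai] at h1
      apply hh
      calc h x = h (h⁻¹ x) := by rw [← h1]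
        _ = x := comm3_ai h x
    have h2 : h⁻¹ x ≠ x := by
      intro h2
      rw [Perm.inv_eq_iff_eq] at h2
      exact hh h2.symm
    rw [hinv g _ (hA _ h1 h2), comm3_ai]
  by_cases hx2 : x = g p
  · subst hx2
    rw [cyc3_apply_mid hne hh, hinv h _ (hB _ hggp hg), comm3_ia, hA _ hhhp hh]
  by_cases hx3 : x = h p
  · subst hx3
    rw [cyc3_apply_right, comm3_ia]
    have h2 : g⁻¹ p ≠ p := by
      intro h2
      rw [Perm.inv_eq_iff_eq] at h2
      exact hg h2.symm
    have h1 : g (g⁻¹ p) ≠ g⁻¹ p := by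
      rw [comm3_ai]
      exact fun h1 => h2 h1.symm
    rw [hB _ h1 h2, comm3_ai]
  rw [cyc3_apply_of_ne hx1 hx2 hx3]
  by_cases hmx : h x = x
  · rw [hinv h x hmx]
    by_cases hgx : g x = x
    · rw [hinv g x hgx, hmx, hgx]
    · have h2 : g⁻¹ x ≠ p := by
        intro h2
        rw [Perm.inv_eq_iff_eq] at h2
        exact hx2 h2
      have h1 : g (g⁻¹ x) ≠ g⁻¹ x := by
        rw [comm3_ai]
        intro h1
        apply hgx
        rw [Perm.eq_inv_iff_eq] at h1
        exact h1
      rw [hB _ h1 h2, comm3_ai]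
  · have h2 : h⁻¹ x ≠ p := by
      intro h2
      rw [Perm.inv_eq_iff_eq] at h2
      exact hx3 h2
    have h1 : h (h⁻¹ x) ≠ h⁻¹ x := by
      rw [comm3_ai]
      intro h1
      apply hmx
      rw [Perm.eq_inv_iff_eq] at h1
      exact h1
    rw [hinv g _ (hA _ h1 h2), comm3_ai, hA x hmx hx1]

end MP731536
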