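import Pool.Agent.Lib.MP_731536_al.Defs2
import Pool.Agent.Lib.MP_731536_al.Word

/-!
# MP_731536_al, module ALT
-/

set_option linter.unusedSectionVars false

open Equiv Finset

namespace MP731536

variable {α : Type*} [Fintype α] [DecidableEq α]

private theorem alt_mem {W : Finset (Perm α)} {x0 p x z : α} (hpx : p ≠ x) (hxz : x ≠ z)
    (hzp : z ≠ p) (hW : cyc3 p x z ∈ W) (hp : p ∈ cls (tc W) x0) :
    x ∈ cls (tc W) x0 ∧ z ∈ cls (tc W) x0 := by
  have h1 : tc W p x := Relation.EqvGen.rel _ _ ⟨z, hpx, hxz, hzp, hW⟩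
  have h2 : tc W x z := Relation.EqvGen.rel _ _ ⟨p, hxz, hzp, hpx, by
    rw [← cyc3_rot hpx hxz hzp]; exact hW⟩
  have h3 : x ∈ cls (tc W) x0 := mem_cls.2 ((tc W).trans' (mem_cls.1 hp) h1)
  exact ⟨h3, mem_cls.2 ((tc W).trans' (mem_cls.1 h3) h2)⟩

/-- The generators of the group on the class `C`. -/
private def altG (W : Finset (Perm α)) (C : Finset α) : Set (Perm C) :=
  {g | ∃ p x z : C, p ≠ x ∧ x ≠ z ∧ z ≠ p ∧ cyc3 (p : α) (x : α) (z : α) ∈ W ∧
    g = cyc3 p x z}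

private theorem alt_trans {W : Finset (Perm α)} {x0 : α} {a b : α} (h : tc W a b) :
    ∀ (ha : a ∈ cls (tc W) x0) (hb : b ∈ cls (tc W) x0),
      ∃ g ∈ Subgroup.closure (altG W (cls (tc W) x0)), g ⟨a, ha⟩ = ⟨b, hb⟩ := by
  induction h with
  | rel a b hab =>
    intro ha hb
    obtain ⟨z, h1, h2, h3, h4⟩ := hab
    have hz := (alt_mem h1 h2 h3 h4 ha).2
    have h1' : (⟨a, ha⟩ : {y // y ∈ cls (tc W) x0}) ≠ ⟨b, hb⟩ := fun h => h1 (congrArg Subtype.val h)
    have h2' : (⟨b, hb⟩ : {y // y ∈ cls (tc W) x0}) ≠ ⟨z, hz⟩ := fun h => h2 (congrArg Subtype.val h)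
    have h3' : (⟨z, hz⟩ : {y // y ∈ cls (tc W) x0}) ≠ ⟨a, ha⟩ := fun h => h3 (congrArg Subtype.val h)
    refine ⟨cyc3 ⟨a, ha⟩ ⟨b, hb⟩ ⟨z, hz⟩, Subgroup.subset_closure ?_, cyc3_apply_left h1' h3'⟩
    exact ⟨_, _, _, h1', h2', h3', h4, rfl⟩
  | refl a =>
    intro ha hb
    exact ⟨1, Subgroup.one_mem _, rfl⟩
  | symm a b _ ih =>
    intro hb ha
    obtain ⟨g, hg, hg2⟩ := ih ha hb
    refine ⟨g⁻¹, Subgroup.inv_mem _ hg, ?_⟩
    rw [Perm.inv_eq_iff_eq, hg2]
  | trans a b c hab _ ih1 ih2 =>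
    intro ha hc
    have hb : b ∈ cls (tc W) x0 := mem_cls.2 ((tc W).trans' (mem_cls.1 ha) hab)
    obtain ⟨g, hg, hg2⟩ := ih1 ha hb
    obtain ⟨k, hk, hk2⟩ := ih2 hb hc
    refine ⟨k * g, Subgroup.mul_mem _ hk hg, ?_⟩
    rw [Perm.mul_apply, hg2, hk2]

private theorem alt_conn {W : Finset (Perm α)} {x0 : α} (D : Set {y // y ∈ cls (tc W) x0})
    {a b : α} (h : tc W a b) :
    ∀ (ha : a ∈ cls (tc W) x0) (hb : b ∈ cls (tc W) x0),
      ¬ ((⟨a, ha⟩ : {y // y ∈ cls (tc W) x0}) ∈ D ↔ (⟨b, hb⟩ : {y // y ∈ cls (tc W) x0}) ∈ D) →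
      ∃ p x z : {y // y ∈ cls (tc W) x0}, p ≠ x ∧ x ≠ z ∧ z ≠ p ∧
        cyc3 (p : α) (x : α) (z : α) ∈ W ∧ p ∈ D ∧ x ∉ D := by
  induction h with
  | rel a b hab =>
    intro ha hb hD
    obtain ⟨z, h1, h2, h3, h4⟩ := hab
    have hz := (alt_mem h1 h2 h3 h4 ha).2
    have h1' : (⟨a, ha⟩ : {y // y ∈ cls (tc W) x0}) ≠ ⟨b, hb⟩ := fun h => h1 (congrArg Subtype.val h)
    have h2' : (⟨b, hb⟩ : {y // y ∈ cls (tc W) x0}) ≠ ⟨z, hz⟩ := fun h => h2 (congrArg Subtype.val h)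
    have h3' : (⟨z, hz⟩ : {y // y ∈ cls (tc W) x0}) ≠ ⟨a, ha⟩ := fun h => h3 (congrArg Subtype.val h)
    have h5 : cyc3 b z a ∈ W := by rw [← cyc3_rot h1 h2 h3]; exact h4
    have h6 : cyc3 z a b ∈ W := by rw [← cyc3_rot h2 h3 h1]; exact h5
    by_cases hDa : (⟨a, ha⟩ : {y // y ∈ cls (tc W) x0}) ∈ D
    · have hDb : (⟨b, hb⟩ : {y // y ∈ cls (tc W) x0}) ∉ D := fun h => hD (by simp [hDa, h])
      exact ⟨_, _, _, h1', h2', h3', h4, hDa, hDb⟩
    · have hDb : (⟨b, hb⟩ : {y // y ∈ cls (tc W) x0}) ∈ D := by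
        by_contra h
        exact hD (by simp [hDa, h])
      by_cases hDz : (⟨z, hz⟩ : {y // y ∈ cls (tc W) x0}) ∈ D
      · exact ⟨_, _, _, h3', h1', h2', h6, hDz, hDa⟩
      · exact ⟨_, _, _, h2', h3', h1', h5, hDb, hDz⟩
  | refl a =>
    intro ha hb hD
    exact absurd Iff.rfl hD
  | symm a b _ ih =>
    intro hb ha hD
    exact ih ha hb (fun h => hD h.symm)
  | trans a b c hab _ ih1 ih2 =>
    intro ha hc hD
    have hb : b ∈ cls (tc W) x0 := mem_cls.2 ((tc W).trans' (mem_cls.1 ha) hab)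
    by_cases h : ((⟨a, ha⟩ : {y // y ∈ cls (tc W) x0}) ∈ D ↔
        (⟨b, hb⟩ : {y // y ∈ cls (tc W) x0}) ∈ D)
    · exact ih2 hb hc (fun h' => hD (h.trans h'))
    · exact ih1 ha hb h

private theorem alt_tc {W : Finset (Perm α)} {x0 a b : α} (ha : a ∈ cls (tc W) x0)
    (hb : b ∈ cls (tc W) x0) : tc W a b :=
  (tc W).trans' ((tc W).symm' (mem_cls.1 ha)) (mem_cls.1 hb)

private theorem alt_prim (W : Finset (Perm α)) (x0 : α) :
    MulAction.IsPreprimitive (Subgroup.closure (altG W (cls (tc W) x0)))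
      {y // y ∈ cls (tc W) x0} := by
  have htr : MulAction.IsPretransitive (Subgroup.closure (altG W (cls (tc W) x0)))
      {y // y ∈ cls (tc W) x0} := by
    refine ⟨fun a b => ?_⟩
    obtain ⟨g, hg, h⟩ := alt_trans (alt_tc a.2 b.2) a.2 b.2
    exact ⟨⟨g, hg⟩, h⟩
  refine { htr with isTrivialBlock_of_isBlock := ?_ }
  intro B hB
  by_contra hc
  rw [MulAction.IsTrivialBlock, not_or] at hc
  obtain ⟨hc1, hc2⟩ := hc
  rw [Set.not_subsingleton_iff] at hc1
  obtain ⟨u, hu, v, hv, huv⟩ := hc1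
  obtain ⟨b, hb⟩ := (Set.ne_univ_iff_exists_notMem B).1 hc2
  obtain ⟨p, x, z, hpx, hxz, hzp, hW, hpB, hxB⟩ := alt_conn B (alt_tc u.2 b.2) u.2 b.2
    (fun h => hb (h.1 hu))
  have hσ : cyc3 p x z ∈ Subgroup.closure (altG W (cls (tc W) x0)) :=
    Subgroup.subset_closure ⟨p, x, z, hpx, hxz, hzp, hW, rfl⟩
  have hsm : ∀ y, (⟨cyc3 p x z, hσ⟩ : Subgroup.closure (altG W (cls (tc W) x0))) • y
      = cyc3 p x z y := fun y => rfl
  rcases hB.smul_eq_or_disjoint ⟨cyc3 p x z, hσ⟩ with h | h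
  · apply hxB
    rw [← h]
    exact ⟨p, hpB, by
      change (⟨cyc3 p x z, hσ⟩ : Subgroup.closure (altG W (cls (tc W) x0))) • p = x
      rw [hsm, cyc3_apply_left hpx hzp]⟩
  · have h1 : ∀ y ∈ B, cyc3 p x z y ∉ B := by
      intro y hy hy2
      refine Set.disjoint_left.1 h ?_ hy2
      exact ⟨y, hy, rfl⟩
    have h2 : z ∉ B := by
      intro hz
      apply h1 z hz
      rw [cyc3_apply_right]
      exact hpB
    have h3 : ∀ y ∈ B, y = p := by
      intro y hy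
      by_contra hyp
      apply h1 y hy
      have hyx : y ≠ x := fun h => hxB (by rw [← h]; exact hy)
      have hyz : y ≠ z := fun h => h2 (by rw [← h]; exact hy)
      rw [cyc3_apply_of_ne hyp hyx hyz]
      exact hy
    exact huv ((h3 u hu).trans (h3 v hv).symm)

private theorem alt_of {W : Finset (Perm α)} {x0 : α} {g : Perm {y // y ∈ cls (tc W) x0}}
    (hg : g ∈ Subgroup.closure (altG W (cls (tc W) x0))) :
    Perm.ofSubtype g ∈ Subgroup.closure (W : Set (Perm α)) := by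
  have h1 : Subgroup.closure (altG W (cls (tc W) x0)) ≤
      (Subgroup.closure (W : Set (Perm α))).comap Perm.ofSubtype := by
    rw [Subgroup.closure_le]
    rintro g ⟨p, x, z, -, -, -, h4, rfl⟩
    rw [SetLike.mem_coe, Subgroup.mem_comap]
    apply Subgroup.subset_closure
    rw [Finset.mem_coe]
    have h2 : Perm.ofSubtype (cyc3 p x z) = cyc3 (p : α) (x : α) (z : α) := by
      unfold cyc3
      rw [map_mul, Perm.ofSubtype_swap_eq, Perm.ofSubtype_swap_eq]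
    rw [h2]
    exact h4
  exact h1 hg

/-- ALT. Let `C` be the class of `x0`. The elements `cyc3 p x z` of `W` with
`p, x, z ∈ C` generate on `C` a primitive group; by Jordan it contains the alternating group of
`C`, which is transitive on triples. Then conjugate one 3-cycle of `W` by a word. -/
theorem three_cycles (W : Finset (Perm α)) (hinv : ∀ g ∈ W, g⁻¹ ∈ W) (x0 : α)
    (hC : 5 ≤ (cls (tc W) x0).card) {a b c : α} (ha : a ∈ cls (tc W) x0)
    (hb : b ∈ cls (tc W) x0) (hc : c ∈ cls (tc W) x0) (hab : a ≠ b) (hbc : b ≠ c) (hca : c ≠ a) :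
    ∃ l : List (Perm α), l.length ≤ 2 * Fintype.card α ^ 3 + 1 ∧ (∀ g ∈ l, g ∈ W) ∧
      l.prod = cyc3 a b c := by
  -- a generator
  obtain ⟨p, x, z, hpx, hxz, hzp, hW, -, -⟩ :=
    alt_conn {(⟨a, ha⟩ : {y // y ∈ cls (tc W) x0})} (alt_tc ha hb) ha hb (by
      intro h
      have h1 := h.1 rfl
      exact hab (congrArg Subtype.val h1).symm)
  have hσ : cyc3 p x z ∈ Subgroup.closure (altG W (cls (tc W) x0)) :=
    Subgroup.subset_closure ⟨p, x, z, hpx, hxz, hzp, hW, rfl⟩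
  have h3c : (cyc3 p x z).IsThreeCycle := by
    unfold cyc3
    rw [swap_comm p x]
    exact Perm.isThreeCycle_swap_mul_swap_same hpx.symm hxz hzp.symm
  have halt := Perm.alternatingGroup_le_of_isPreprimitive_of_isThreeCycle_mem
    (alt_prim W x0) h3c hσ
  -- three-transitivity
  have hcard : Nat.card {y // y ∈ cls (tc W) x0} = (cls (tc W) x0).card := by
    rw [Nat.card_eq_fintype_card, Fintype.card_coe]
  have := alternatingGroup.isMultiplyPretransitive {y // y ∈ cls (tc W) x0}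
  have h3 : MulAction.IsMultiplyPretransitive (alternatingGroup {y // y ∈ cls (tc W) x0})
      {y // y ∈ cls (tc W) x0} 3 :=
    MulAction.isMultiplyPretransitive_of_le (n := Nat.card {y // y ∈ cls (tc W) x0} - 2)
      (by omega) (by omega)
  have hinj1 : Function.Injective ![p, x, z] := by
    intro i j hij
    fin_cases i <;> fin_cases j <;> simp_all
  have hinj2 : Function.Injective ![(⟨a, ha⟩ : {y // y ∈ cls (tc W) x0}), ⟨b, hb⟩, ⟨c, hc⟩] := by
    intro i j hij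
    fin_cases i <;> fin_cases j <;> simp_all
  obtain ⟨g, hg⟩ := h3.exists_smul_eq ⟨_, hinj1⟩ ⟨_, hinj2⟩
  have hg0 : (g : Perm {y // y ∈ cls (tc W) x0}) p = ⟨a, ha⟩ := by
    exact congrArg (fun f : Fin 3 ↪ {y // y ∈ cls (tc W) x0} => f 0) hg
  have hg1 : (g : Perm {y // y ∈ cls (tc W) x0}) x = ⟨b, hb⟩ := by
    exact congrArg (fun f : Fin 3 ↪ {y // y ∈ cls (tc W) x0} => f 1) hg
  have hg2 : (g : Perm {y // y ∈ cls (tc W) x0}) z = ⟨c, hc⟩ := by
    exact congrArg (fun f : Fin 3 ↪ {y // y ∈ cls (tc W) x0} => f 2) hg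
  -- transfer
  have hex : ∃ k ∈ Subgroup.closure (W : Set (Perm α)),
      k • (((p : α), (x : α), (z : α)) : α × α × α) = (a, b, c) := by
    refine ⟨Perm.ofSubtype (g : Perm {y // y ∈ cls (tc W) x0}), alt_of (halt g.2), ?_⟩
    have e0 := Perm.ofSubtype_apply_coe (g : Perm {y // y ∈ cls (tc W) x0}) p
    have e1 := Perm.ofSubtype_apply_coe (g : Perm {y // y ∈ cls (tc W) x0}) x
    have e2 := Perm.ofSubtype_apply_coe (g : Perm {y // y ∈ cls (tc W) x0}) z
    rw [hg0] at e0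
    rw [hg1] at e1
    rw [hg2] at e2
    rw [Prod.smul_mk, Prod.smul_mk, Perm.smul_def, Perm.smul_def, Perm.smul_def, e0, e1, e2]
  obtain ⟨l, hl1, hl2, hl3⟩ := word_orbit (W : Set (Perm α))
    (fun g hg => Finset.mem_coe.2 (hinv g (Finset.mem_coe.1 hg))) hex
  have hcardΦ : Fintype.card (α × α × α) = Fintype.card α ^ 3 := by
    rw [Fintype.card_prod, Fintype.card_prod]
    ring
  rw [hcardΦ] at hl1
  rw [Prod.smul_mk, Prod.smul_mk, Perm.smul_def, Perm.smul_def, Perm.smul_def,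
    Prod.mk.injEq, Prod.mk.injEq] at hl3
  obtain ⟨k0, k1, k2⟩ := hl3
  refine ⟨l ++ [cyc3 (p : α) (x : α) (z : α)] ++ (l.map (·⁻¹)).reverse, ?_, ?_, ?_⟩
  · rw [List.length_append, List.length_append, List.length_reverse, List.length_map,
      List.length_singleton]
    omega
  · intro g hg
    rcases List.mem_append.1 hg with hg | hg
    · rcases List.mem_append.1 hg with hg | hg
      · exact Finset.mem_coe.1 (hl2 g hg)
      · rw [List.mem_singleton.1 hg]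
        exact hW
    · rw [List.mem_reverse, List.mem_map] at hg
      obtain ⟨k, hk, rfl⟩ := hg
      exact hinv k (Finset.mem_coe.1 (hl2 k hk))
  · rw [List.prod_append, List.prod_append, List.prod_singleton, ← List.prod_inv_reverse,
      conj_cyc3, k0, k1, k2]

end MP731536
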