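import Pool.Agent.Lib.MP_731536_al.Defs2

/-!
# PPM: words in the product of alternating groups, and a counting bound (MP_731536_al)
-/

set_option linter.unusedSectionVars false

open Equiv Finset

namespace MP731536

variable {α β : Type*} [Fintype α] [DecidableEq α]

/-- The permutations which preserve each class of `E`. -/
def ppH (E : Setoid α) : Subgroup (Perm α) where
  carrier := {π | ∀ x, E x (π x)}
  one_mem' := fun x => E.refl' x
  mul_mem' := by
    intro a b ha hb x
    exact E.trans' (hb x) (ha (b x))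
  inv_mem' := by
    intro a ha x
    have h := ha (a⁻¹ x)
    have hx : a (a⁻¹ x) = x := by simp
    rw [hx] at h
    exact E.symm' h

theorem mem_ppH {E : Setoid α} {π : Perm α} : π ∈ ppH E ↔ ∀ x, E x (π x) := Iff.rfl

/-- Restriction to one class. -/
def ppR (E : Setoid α) (r : α) : ppH E →* Perm {y // E r y} where
  toFun π := π.1.subtypePerm
    (fun y => ⟨fun h => E.trans' h (E.symm' (π.2 y)), fun h => E.trans' h (π.2 y)⟩)
  map_one' := by
    ext y
    rfl
  map_mul' := by
    intro a b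
    ext y
    rfl

theorem ppR_apply (E : Setoid α) (r : α) (π : ppH E) (y : {y // E r y}) :
    ((ppR E r π y : {y // E r y}) : α) = π.1 y.1 := rfl

open Classical in
/-- Sign of the restriction to one class. -/
noncomputable def ppS (E : Setoid α) (r : α) : ppH E →* ℤˣ := Perm.sign.comp (ppR E r)

private theorem swap_coe {p : α → Prop} [DecidableEq {y // p y}] (u v w : {y // p y}) :
    ((swap u v w : {y // p y}) : α) = swap (u : α) (v : α) (w : α) := by
  rw [swap_apply_def, swap_apply_def]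
  by_cases h1 : w = u
  · rw [if_pos h1, if_pos (by rw [h1])]
  · have h1' : (w : α) ≠ (u : α) := fun h => h1 (Subtype.ext h)
    rw [if_neg h1, if_neg h1']
    by_cases h2 : w = v
    · rw [if_pos h2, if_pos (by rw [h2])]
    · have h2' : (w : α) ≠ (v : α) := fun h => h2 (Subtype.ext h)
      rw [if_neg h2, if_neg h2']

theorem cyc3_mem_ppH {E : Setoid α} {a b c : α} (hab : E a b) (hbc : E b c) :
    cyc3 a b c ∈ ppH E := by
  have key : ∀ u v : α, E u v → swap u v ∈ ppH E := by
    intro u v h x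
    rw [swap_apply_def]
    by_cases h1 : x = u
    · rw [if_pos h1, h1]; exact h
    · rw [if_neg h1]
      by_cases h2 : x = v
      · rw [if_pos h2, h2]; exact E.symm' h
      · rw [if_neg h2]
  exact (ppH E).mul_mem (key a b hab) (key b c hbc)

theorem ppS_cyc3 {E : Setoid α} {a b c : α} (h1 : a ≠ b) (h2 : b ≠ c) (hab : E a b)
    (hbc : E b c) (r : α) : ppS E r ⟨cyc3 a b c, cyc3_mem_ppH hab hbc⟩ = 1 := by
  classical
  unfold ppS
  rw [MonoidHom.comp_apply]
  by_cases hr : E r a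
  · have hb : E r b := E.trans' hr hab
    have hc : E r c := E.trans' hb hbc
    have : ppR E r ⟨cyc3 a b c, cyc3_mem_ppH hab hbc⟩ =
        swap (⟨a, hr⟩ : {y // E r y}) ⟨b, hb⟩ * swap (⟨b, hb⟩ : {y // E r y}) ⟨c, hc⟩ := by
      ext y
      rw [ppR_apply, Perm.mul_apply, swap_coe, swap_coe]
      rfl
    rw [this, map_mul, Perm.sign_swap, Perm.sign_swap]
    · rfl
    · intro h; exact h2 (congrArg Subtype.val h)
    · intro h; exact h1 (congrArg Subtype.val h)
  · have : ppR E r ⟨cyc3 a b c, cyc3_mem_ppH hab hbc⟩ = 1 := by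
      ext y
      rw [ppR_apply]
      show cyc3 a b c y.1 = y.1
      refine cyc3_apply_of_ne ?_ ?_ ?_
      · rintro h; exact hr (h ▸ y.2)
      · rintro h; exact hr (E.trans' (h ▸ y.2) (E.symm' hab))
      · rintro h; exact hr (E.trans' (h ▸ y.2) (E.symm' (E.trans' hab hbc)))
    rw [this, map_one]

/-- The permutations preserving the classes, fixing the small classes, even on each class. -/
def ppG (E : Setoid α) (q : ℝ) : Subgroup (Perm α) where
  carrier := {π | (∀ y, ((cls E y).card : ℝ) < q → π y = y) ∧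
    ∃ h : π ∈ ppH E, ∀ c : Quotient E, ppS E c.out ⟨π, h⟩ = 1}
  one_mem' := ⟨fun _ _ => rfl, (ppH E).one_mem, fun c => (ppS E c.out).map_one⟩
  mul_mem' := by
    rintro a b ⟨ha1, ha, ha2⟩ ⟨hb1, hb, hb2⟩
    refine ⟨fun y hy => ?_, (ppH E).mul_mem ha hb, fun c => ?_⟩
    · rw [Perm.mul_apply, hb1 y hy, ha1 y hy]
    · have : (⟨a * b, (ppH E).mul_mem ha hb⟩ : ppH E) = ⟨a, ha⟩ * ⟨b, hb⟩ := rfl
      rw [this, map_mul, ha2 c, hb2 c, one_mul]
  inv_mem' := by
    rintro a ⟨ha1, ha, ha2⟩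
    refine ⟨fun y hy => ?_, (ppH E).inv_mem ha, fun c => ?_⟩
    · rw [Perm.inv_eq_iff_eq]; exact (ha1 y hy).symm
    · have : (⟨a⁻¹, (ppH E).inv_mem ha⟩ : ppH E) = (⟨a, ha⟩ : ppH E)⁻¹ := rfl
      rw [this, map_inv, ha2 c, inv_one]

theorem mem_ppG {E : Setoid α} {q : ℝ} {π : Perm α} :
    π ∈ ppG E q ↔ (∀ y, ((cls E y).card : ℝ) < q → π y = y) ∧
      ∃ h : π ∈ ppH E, ∀ c : Quotient E, ppS E c.out ⟨π, h⟩ = 1 := Iff.rfl

theorem gens_sub_ppG (E : Setoid α) (q : ℝ) : gens E q ⊆ (ppG E q : Set (Perm α)) := by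
  rintro g ⟨a, b, c, hab, hbc, hca, hE1, hE2, hq, rfl⟩
  refine mem_ppG.2 ⟨fun y hy => ?_, cyc3_mem_ppH hE1 hE2, fun c' => ppS_cyc3 hab hbc hE1 hE2 _⟩
  have key : ∀ z, E a z → y ≠ z := by
    rintro z hz rfl
    rw [cls_eq hz] at hy
    exact absurd hq (not_le.2 hy)
  exact cyc3_apply_of_ne (key a (E.refl' a)) (key b hE1) (key c (E.trans' hE1 hE2))

theorem PP_le_ppG (E : Setoid α) (q : ℝ) : PP E q ≤ ppG E q := by
  unfold PP
  rw [Subgroup.closure_le]
  exact gens_sub_ppG E q

/-- A third moved point. -/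
private theorem third {E : Setoid α} {q : ℝ} {π : Perm α} (hπ : π ∈ ppG E q) {x : α}
    (hx : π x ≠ x) : ∃ z, E x z ∧ z ≠ x ∧ z ≠ π x ∧ π z ≠ z := by
  classical
  obtain ⟨-, hH, hS⟩ := mem_ppG.1 hπ
  by_contra hcon
  push Not at hcon
  have hs := hS (Quotient.mk E x)
  set r : α := (Quotient.mk E x).out with hr
  have hrx : E r x := Quotient.mk_out (s := E) x
  have hry : E r (π x) := E.trans' hrx (hH x)
  unfold ppS at hs
  rw [MonoidHom.comp_apply] at hs
  have hyx : π (π x) = x := by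
    by_contra h
    have h1 : E x (π (π x)) := E.trans' (hH x) (hH (π x))
    have h2 : π (π x) ≠ π x := fun h' => hx (π.injective h')
    have h3 := hcon _ h1 h h2
    exact h2 (π.injective h3)
  have : ppR E r ⟨π, hH⟩ = swap (⟨x, hrx⟩ : {y // E r y}) ⟨π x, hry⟩ := by
    ext y
    rw [ppR_apply, swap_coe]
    show π y.1 = swap x (π x) y.1
    by_cases h1 : y.1 = x
    · rw [h1, swap_apply_left]
    by_cases h2 : y.1 = π x
    · rw [h2, swap_apply_right, hyx]
    rw [swap_apply_of_ne_of_ne h1 h2]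
    exact hcon _ (E.trans' (E.symm' hrx) y.2) h1 h2
  rw [this, Perm.sign_swap (fun h => hx (congrArg Subtype.val h).symm)] at hs
  exact absurd hs (by decide)

private theorem pp_red (E : Setoid α) (q : ℝ) : ∀ (k : ℕ) (π : Perm α), π ∈ ppG E q →
    π.support.card ≤ k →
    ∃ l : List (Perm α), l.length ≤ k ∧ (∀ g ∈ l, g ∈ gens E q) ∧ l.prod = π := by
  intro k
  induction k with
  | zero =>
    intro π _ hk
    have h0 : π.support = ∅ := by
      rw [← Finset.card_eq_zero]; omega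
    rw [Perm.support_eq_empty_iff] at h0
    exact ⟨[], le_refl _, by simp, by simp [h0]⟩
  | succ k ih =>
    intro π hπ hk
    by_cases h1 : π = 1
    · exact ⟨[], by simp, by simp, by simp [h1]⟩
    obtain ⟨x, hx⟩ : ∃ x, π x ≠ x := by
      by_contra hc
      push Not at hc
      exact h1 (Perm.ext hc)
    obtain ⟨z, hxz, hzx, hzy, hz⟩ := third hπ hx
    obtain ⟨hsm, hH, hS⟩ := mem_ppG.1 hπ
    have hbig : ∀ w, π w ≠ w → q ≤ ((cls E w).card : ℝ) := by
      intro w hw
      by_contra hc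
      exact hw (hsm w (not_le.1 hc))
    have hy : π (π x) ≠ π x := fun h => hx (π.injective h)
    have hc1 : cyc3 (π x) x z ∈ gens E q :=
      ⟨π x, x, z, hx, hzx.symm, hzy, E.symm' (hH x), hxz, hbig _ hy, rfl⟩
    have hc2 : cyc3 z x (π x) ∈ gens E q :=
      ⟨z, x, π x, hzx, hx.symm, hzy.symm, E.symm' hxz, hH x, hbig _ hz, rfl⟩
    have hmem : cyc3 (π x) x z * π ∈ ppG E q := (ppG E q).mul_mem (gens_sub_ppG E q hc1) hπ
    have hsub : (cyc3 (π x) x z * π).support ⊆ π.support.erase x := by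
      intro w hw
      rw [Perm.mem_support, Perm.mul_apply] at hw
      rw [Finset.mem_erase, Perm.mem_support]
      constructor
      · rintro rfl
        exact hw (cyc3_apply_left hx hzy)
      · intro hwf
        apply hw
        rw [hwf]
        refine cyc3_apply_of_ne ?_ ?_ ?_
        · rintro rfl; exact hy hwf
        · rintro rfl; exact hx hwf
        · rintro rfl; exact hz hwf
    have hcard : (cyc3 (π x) x z * π).support.card ≤ k := by
      have h2 := Finset.card_le_card hsub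
      rw [Finset.card_erase_of_mem (Perm.mem_support.2 hx)] at h2
      omega
    obtain ⟨l, hl1, hl2, hl3⟩ := ih _ hmem hcard
    refine ⟨cyc3 z x (π x) :: l, by simp only [List.length_cons]; omega, ?_, ?_⟩
    · intro g hg
      rcases List.mem_cons.1 hg with rfl | hg
      · exact hc2
      · exact hl2 g hg
    · rw [List.prod_cons, hl3, ← mul_assoc, ← cyc3_inv (π x) x z, inv_mul_cancel, one_mul]

theorem ppG_le_PP (E : Setoid α) (q : ℝ) : ppG E q ≤ PP E q := by
  intro π hπ
  obtain ⟨l, -, hl, rfl⟩ := pp_red E q _ π hπ le_rfl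
  exact (PP E q).list_prod_mem fun g hg => Subgroup.subset_closure (hl g hg)

/-- PPM part 1. -/
theorem PP_words (E : Setoid α) (q : ℝ) (hq : 3 ≤ q) {π : Perm α} (hπ : π ∈ PP E q) :
    ∃ l : List (Perm α), l.length ≤ Fintype.card α ∧ (∀ g ∈ l, g ∈ gens E q) ∧ l.prod = π := by
  have _ := hq
  exact pp_red E q _ π (PP_le_ppG E q hπ) (Finset.card_le_univ _)

/-- The number of large classes. -/
private theorem large_card (E : Setoid α) (q : ℝ) (s : Finset (Quotient E))
    (hs : ∀ c ∈ s, q ≤ ((cls E c.out).card : ℝ)) :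
    (s.card : ℝ) * q ≤ (Fintype.card α : ℝ) := by
  classical
  have hdis : (s : Set (Quotient E)).PairwiseDisjoint (fun c => cls E c.out) := by
    intro c _ c' _ hcc
    rw [Function.onFun, Finset.disjoint_left]
    intro x hx hx'
    rw [mem_cls] at hx hx'
    apply hcc
    rw [← Quotient.out_eq c, ← Quotient.out_eq c']
    exact Quotient.sound (s := E) (E.trans' hx (E.symm' hx'))
  have h1 : (s.biUnion (fun c => cls E c.out)).card = ∑ c ∈ s, (cls E c.out).card :=
    Finset.card_biUnion hdis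
  have h2 : (s.biUnion (fun c => cls E c.out)).card ≤ Fintype.card α := Finset.card_le_univ _
  calc (s.card : ℝ) * q = ∑ _c ∈ s, q := by rw [Finset.sum_const, nsmul_eq_mul]
    _ ≤ ∑ c ∈ s, ((cls E c.out).card : ℝ) := Finset.sum_le_sum hs
    _ = ((s.biUnion (fun c => cls E c.out)).card : ℝ) := by rw [h1]; push_cast; rfl
    _ ≤ Fintype.card α := by exact_mod_cast h2

/-- PPM part 2. -/
theorem PP_card (E : Setoid α) (q : ℝ) (hq : 3 ≤ q) (Y : Finset (Perm α))
    (hY : ∀ ρ ∈ Y, ∀ y, E y (ρ y) ∧ (((cls E y).card : ℝ) < q → ρ y = y)) :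
    (Y.card : ℝ) ≤ (2 : ℝ) ^ ((Fintype.card α : ℝ) / q) * (Nat.card (PP E q) : ℝ) := by
  classical
  set s : Finset (Quotient E) := univ.filter (fun c => q ≤ ((cls E c.out).card : ℝ)) with hs
  have hlarge : (s.card : ℝ) * q ≤ (Fintype.card α : ℝ) :=
    large_card E q s (fun c hc => (Finset.mem_filter.1 hc).2)
  have hYH : ∀ ρ ∈ Y, ρ ∈ ppH E := fun ρ hρ y => (hY ρ hρ y).1
  set f : Perm α → ({c // c ∈ s} → ℤˣ) := fun ρ c =>
    if h : ρ ∈ ppH E then ppS E c.1.out ⟨ρ, h⟩ else 1 with hf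
  have hfib : ∀ a ∈ Y.image f, (Y.filter (fun ρ => f ρ = a)).card ≤ Nat.card (PP E q) := by
    intro a ha
    obtain ⟨ρ0, hρ0, rfl⟩ := Finset.mem_image.1 ha
    have hcardP : (univ.filter (fun π : Perm α => π ∈ PP E q)).card = Nat.card (PP E q) := by
      rw [Nat.card_eq_fintype_card, Fintype.card_subtype]
    rw [← hcardP]
    refine Finset.card_le_card_of_injOn (fun ρ => ρ0⁻¹ * ρ) ?_ ?_
    · intro ρ hρ
      rw [Finset.mem_coe, Finset.mem_filter] at hρ
      rw [Finset.mem_coe, Finset.mem_filter]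
      refine ⟨Finset.mem_univ _, ppG_le_PP E q (mem_ppG.2 ⟨?_, ?_⟩)⟩
      · intro y hy
        rw [Perm.mul_apply, (hY ρ hρ.1 y).2 hy, Perm.inv_eq_iff_eq]
        exact ((hY ρ0 hρ0 y).2 hy).symm
      · refine ⟨(ppH E).mul_mem ((ppH E).inv_mem (hYH ρ0 hρ0)) (hYH ρ hρ.1), fun c => ?_⟩
        have hprod : (⟨ρ0⁻¹ * ρ, (ppH E).mul_mem ((ppH E).inv_mem (hYH ρ0 hρ0))
            (hYH ρ hρ.1)⟩ : ppH E) = (⟨ρ0, hYH ρ0 hρ0⟩ : ppH E)⁻¹ * ⟨ρ, hYH ρ hρ.1⟩ := rfl
        rw [hprod, map_mul, map_inv]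
        by_cases hc : c ∈ s
        · have h1 := congrFun hρ.2 ⟨c, hc⟩
          simp only [hf] at h1
          rw [dif_pos (hYH ρ hρ.1), dif_pos (hYH ρ0 hρ0)] at h1
          rw [h1, inv_mul_cancel]
        · have hsmall : ((cls E c.out).card : ℝ) < q := by
            by_contra h
            exact hc (Finset.mem_filter.2 ⟨Finset.mem_univ _, not_lt.1 h⟩)
          have hone : ∀ σ (hσ : σ ∈ Y), ppS E c.out ⟨σ, hYH σ hσ⟩ = 1 := by
            intro σ hσ
            have hR : ppR E c.out ⟨σ, hYH σ hσ⟩ = 1 := by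
              ext y
              rw [ppR_apply]
              show σ y.1 = y.1
              refine (hY σ hσ y.1).2 ?_
              rw [cls_eq y.2]
              exact hsmall
            unfold ppS
            rw [MonoidHom.comp_apply, hR, map_one]
          rw [hone ρ hρ.1, hone ρ0 hρ0, inv_one, one_mul]
    · intro ρ _ ρ' _ h
      exact mul_left_cancel h
  have hcard := Finset.card_le_mul_card_image Y (Nat.card (PP E q)) hfib
  have himg : (Y.image f).card ≤ 2 ^ s.card := by
    refine (Finset.card_le_univ _).trans (le_of_eq ?_)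
    rw [Fintype.card_fun, Fintype.card_coe, Fintype.card_units_int]
  have hq0 : (0 : ℝ) < q := by linarith
  have hpow : ((2 : ℝ) ^ s.card) ≤ (2 : ℝ) ^ ((Fintype.card α : ℝ) / q) := by
    rw [← Real.rpow_natCast]
    refine Real.rpow_le_rpow_of_exponent_le (by norm_num) ?_
    rw [le_div_iff₀ hq0]
    exact hlarge
  calc (Y.card : ℝ) ≤ ((Nat.card (PP E q) * (Y.image f).card : ℕ) : ℝ) := by exact_mod_cast hcard
    _ = (Nat.card (PP E q) : ℝ) * ((Y.image f).card : ℝ) := by push_cast; rfl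
    _ ≤ (Nat.card (PP E q) : ℝ) * (2 : ℝ) ^ s.card := by
        refine mul_le_mul_of_nonneg_left ?_ (Nat.cast_nonneg _)
        exact_mod_cast himg
    _ ≤ (Nat.card (PP E q) : ℝ) * (2 : ℝ) ^ ((Fintype.card α : ℝ) / q) :=
        mul_le_mul_of_nonneg_left hpow (Nat.cast_nonneg _)
    _ = _ := mul_comm _ _

end MP731536
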