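import Pool.Agent.Lib.MP_731536_al.Defs2

/-!
# RLSIZE: the number of realised permutations (MP_731536_al)
-/

set_option linter.unusedSectionVars false

open Equiv Finset

namespace MP731536

variable {α β : Type*} [Fintype α] [DecidableEq α]

/-- The permutation which agrees with `t` on `X'` and is the identity outside `X'`, for `t`
preserving `X'`. -/
theorem rlsize_ext (X' : Finset α) (t : Perm α) (ht : ∀ x, t x ∈ X' ↔ x ∈ X') :
    ∃ π : Perm α, (∀ x ∈ X', π x = t x) ∧ ∀ x, x ∉ X' → π x = x := by
  classical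
  refine ⟨Perm.ofSubtype (Perm.subtypePerm t ht : Perm {x // x ∈ X'}), ?_, ?_⟩
  · intro x hx
    rw [Perm.ofSubtype_apply_of_mem _ hx]
    rfl
  · intro x hx
    exact Perm.ofSubtype_apply_of_not_mem _ hx

theorem rlsize_fiber (T' : Finset (Perm α)) (X' X : Finset α) (e : α → β)
    (a0 a : Perm α) (ha : a0⁻¹ * a ∈ T') (h1 : X'.image a = X'.image a0)
    (h2 : ∀ x ∈ X \ X', a x = a0 x) (h3 : ∀ y, e (a⁻¹ y) = e (a0⁻¹ y)) :
    ∃ π ∈ rl T' X' X e, ∀ x ∈ X', a0 (π x) = a x := by
  classical
  have hp : ∀ x, (a0⁻¹ * a) x ∈ X' ↔ x ∈ X' := by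
    intro x
    rw [Perm.mul_apply]
    constructor
    · intro h
      have h4 : a x ∈ X'.image a := by
        rw [h1, Finset.mem_image]
        exact ⟨a0⁻¹ (a x), h, by simp⟩
      obtain ⟨y, hy, hyx⟩ := Finset.mem_image.1 h4
      rwa [← a.injective hyx]
    · intro h
      have h4 : a x ∈ X'.image a0 := by
        rw [← h1]
        exact Finset.mem_image_of_mem _ h
      obtain ⟨y, hy, hyx⟩ := Finset.mem_image.1 h4
      rw [← hyx]
      simpa using hy
  obtain ⟨π, hπ1, hπ2⟩ := rlsize_ext X' (a0⁻¹ * a) hp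
  refine ⟨π, mem_rl.2 ⟨hπ2, a0⁻¹ * a, ha, ?_, ?_⟩, ?_⟩
  · intro x hx
    by_cases hx' : x ∈ X'
    · exact (hπ1 x hx').symm
    · rw [hπ2 x hx', Perm.mul_apply, h2 x (Finset.mem_sdiff.2 ⟨hx, hx'⟩)]
      simp
  · intro x
    rw [Perm.mul_apply, ← h3 (a x)]
    simp
  · intro x hx
    rw [hπ1 x hx, Perm.mul_apply]
    simp

/-- RLSIZE. The number of restrictions of `T` to `X'` is bounded in terms of the number of
permutations of `X'` realised by elements of `T'` which preserve the colouring `e`. -/
theorem rl_size {β : Type*} [Fintype β] (T T' : Finset (Perm α))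
    (hT : ∀ a ∈ T, ∀ b ∈ T, a⁻¹ * b ∈ T') (X' X : Finset α) (hX : X' ⊆ X) (e : α → β) :
    Im T X' ≤ 2 ^ Fintype.card α * Fintype.card α ^ (X \ X').card *
      Fintype.card β ^ Fintype.card α * (rl T' X' X e).card := by
  classical
  have hrep : ∀ f : α → α, ∃ a : Perm α, f ∈ T.image (res X') → a ∈ T ∧ res X' a = f := by
    intro f
    by_cases hf : f ∈ T.image (res X')
    · obtain ⟨a, ha, haf⟩ := Finset.mem_image.1 hf
      exact ⟨a, fun _ => ⟨ha, haf⟩⟩
    · exact ⟨1, fun h => absurd h hf⟩
  choose rep hrep using hrep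
  let key : (α → α) → Finset α × ({x // x ∈ X \ X'} → α) × (α → β) := fun f =>
    (X'.image (rep f), fun x => rep f x.1, fun y => e ((rep f)⁻¹ y))
  have hmain : (T.image (res X')).card ≤
      (rl T' X' X e).card * ((T.image (res X')).image key).card := by
    apply Finset.card_le_mul_card_image
    intro k hk
    obtain ⟨f0, hf0, hf0k⟩ := Finset.mem_image.1 hk
    have hfib : ∀ f, ∃ π : Perm α, f ∈ (T.image (res X')).filter (fun f => key f = k) →
        π ∈ rl T' X' X e ∧ ∀ x ∈ X', rep f0 (π x) = rep f x := by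
      intro f
      by_cases hf : f ∈ (T.image (res X')).filter (fun f => key f = k)
      · rw [Finset.mem_filter] at hf
        have hkey : key f = key f0 := hf.2.trans hf0k.symm
        have e1 : X'.image (rep f) = X'.image (rep f0) := congrArg Prod.fst hkey
        have e2 : (fun x : {x // x ∈ X \ X'} => rep f x.1) = fun x => rep f0 x.1 :=
          congrArg (fun p => p.2.1) hkey
        have e3 : (fun y => e ((rep f)⁻¹ y)) = fun y => e ((rep f0)⁻¹ y) :=
          congrArg (fun p => p.2.2) hkey
        obtain ⟨π, hπ, hπ'⟩ := rlsize_fiber T' X' X e (rep f0) (rep f)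
          (hT _ (hrep f0 hf0).1 _ (hrep f hf.1).1) e1
          (fun x hx => congrFun e2 ⟨x, hx⟩) (fun y => congrFun e3 y)
        exact ⟨π, fun _ => ⟨hπ, hπ'⟩⟩
      · exact ⟨1, fun h => absurd h hf⟩
    choose φ hφ using hfib
    apply Finset.card_le_card_of_injOn φ
    · intro f hf
      exact (hφ f hf).1
    · intro f hf f' hf' hff
      have h1 := (hφ f hf).2
      have h2 := (hφ f' hf').2
      have h3 := (hrep f (Finset.mem_filter.1 hf).1).2
      have h4 := (hrep f' (Finset.mem_filter.1 hf').1).2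
      rw [← h3, ← h4]
      funext x
      unfold res
      by_cases hx : x ∈ X'
      · rw [if_pos hx, if_pos hx, ← h1 x hx, ← h2 x hx, hff]
      · rw [if_neg hx, if_neg hx]
  have hkeys : ((T.image (res X')).image key).card ≤
      2 ^ Fintype.card α * Fintype.card α ^ (X \ X').card *
      Fintype.card β ^ Fintype.card α := by
    refine (Finset.card_le_univ _).trans (le_of_eq ?_)
    rw [Fintype.card_prod, Fintype.card_prod, Fintype.card_finset, Fintype.card_fun,
      Fintype.card_fun, Fintype.card_coe, mul_assoc]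
  unfold Im
  calc (T.image (res X')).card ≤
      (rl T' X' X e).card * ((T.image (res X')).image key).card := hmain
    _ ≤ (rl T' X' X e).card * (2 ^ Fintype.card α * Fintype.card α ^ (X \ X').card *
      Fintype.card β ^ Fintype.card α) := Nat.mul_le_mul_left _ hkeys
    _ = _ := by ring

end MP731536
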