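import Pool.Agent.Lib.MP_731536_al.Basics
import Pool.Agent.Lib.MP_731536_al.Word

/-!
# GREEDY (MP_731536_al)
-/

set_option linter.unusedSectionVars false

open Equiv Finset

namespace MP731536

variable {α β : Type*} [Fintype α] [DecidableEq α]

/-- the property that is maximised -/
private def GREEDY_P {L : ℕ} (F : Filt α L) (k : ℕ) (Z : Finset α) (q : ℝ) (X : Finset α) : Prop :=
  Z ⊆ X ∧ ∃ A : Finset (Perm α),
    (∀ a ∈ A, ∃ l : List (Perm α), l.length ≤ 1 + (X \ Z).card * Fintype.card α ∧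
      (∀ g ∈ l, g ∈ F.T k) ∧ l.prod = a) ∧
    (Im (F.T k) Z : ℝ) * q ^ (X \ Z).card ≤ Im A X

private lemma GREEDY_res_eq {X : Finset α} {g h : Perm α} (H : res X g = res X h) {x : α}
    (hx : x ∈ X) : g x = h x := by
  have := congrFun H x
  simpa [res, hx] using this

private lemma GREEDY_base {L : ℕ} (F : Filt α L) (k : ℕ) (Z : Finset α) (q : ℝ) :
    GREEDY_P F k Z q Z := by
  refine ⟨Subset.refl _, F.T k, ?_, ?_⟩
  · intro a ha
    exact ⟨[a], by simp, by simpa using ha, by simp⟩
  · simp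

private lemma GREEDY_step {L : ℕ} (F : Filt α L) (k : ℕ) (Z : Finset α) (q : ℝ)
    (hq : 0 ≤ q) (X : Finset α) (hX : GREEDY_P F k Z q X) (z : α) (hz : z ∉ X)
    (horb : q ≤ ((orb (Gr (F.T k) X) z).card : ℝ)) : GREEDY_P F k Z q (insert z X) := by
  classical
  obtain ⟨hZX, A, hA, hcard⟩ := hX
  have hzZ : z ∉ Z := fun h => hz (hZX h)
  have hsdiff : (insert z X \ Z) = insert z (X \ Z) := by
    rw [insert_sdiff_of_notMem _ hzZ]
  have hzXZ : z ∉ X \ Z := fun h => hz (mem_sdiff.1 h).1
  have hcard' : (insert z X \ Z).card = (X \ Z).card + 1 := by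
    rw [hsdiff, card_insert_of_notMem hzXZ]
  -- words
  have hinv : ∀ g ∈ (fixPart (F.T k) X : Set (Perm α)), g⁻¹ ∈ (fixPart (F.T k) X : Set (Perm α)) := by
    intro g hg
    rw [mem_coe, mem_fixPart] at hg ⊢
    refine ⟨F.inv_mem k g hg.1, fun x hx => ?_⟩
    rw [Perm.inv_eq_iff_eq]
    exact (hg.2 x hx).symm
  have hword : ∀ y : α, y ∈ orb (Gr (F.T k) X) z → ∃ u : Perm α, (∀ x ∈ X, u x = x) ∧ u z = y ∧
      ∃ l : List (Perm α), l.length ≤ Fintype.card α ∧ (∀ g ∈ l, g ∈ F.T k) ∧ l.prod = u := by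
    intro y hy
    rw [mem_orb] at hy
    obtain ⟨l, hl1, hl2, hl3⟩ := word_orbit (G := Perm α) (Φ := α)
      (fixPart (F.T k) X : Set (Perm α)) hinv (x := z) (y := y) hy
    refine ⟨l.prod, ?_, hl3, l, hl1, fun g hg => ?_, rfl⟩
    · have : l.prod ∈ Gr (F.T k) X :=
        Subgroup.list_prod_mem _ fun g hg => Subgroup.subset_closure (hl2 g hg)
      exact Gr_fix this
    · have := hl2 g hg
      rw [mem_coe, mem_fixPart] at this
      exact this.1
  choose! u hu1 hu2 hu3 using hword
  set O := orb (Gr (F.T k) X) z with hO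
  refine ⟨hZX.trans (subset_insert _ _), (A ×ˢ O).image (fun p => p.1 * u p.2), ?_, ?_⟩
  · intro a ha
    obtain ⟨⟨a, y⟩, hay, rfl⟩ := mem_image.1 ha
    rw [mem_product] at hay
    obtain ⟨l1, h1, h2, h3⟩ := hA a hay.1
    obtain ⟨l2, h4, h5, h6⟩ := hu3 y hay.2
    refine ⟨l1 ++ l2, ?_, ?_, ?_⟩
    · rw [List.length_append, hcard', add_mul, one_mul]
      omega
    · intro g hg
      rcases List.mem_append.1 hg with h | h
      · exact h2 g h
      · exact h5 g h
    · rw [List.prod_append, h3, h6]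
  · -- counting
    have hrep : ∀ r ∈ A.image (res X), ∃ a ∈ A, res X a = r := fun r hr => mem_image.1 hr
    choose! ar har1 har2 using hrep
    have hcount : (A.image (res X)).card * O.card ≤
        (((A ×ˢ O).image (fun p => p.1 * u p.2)).image (res (insert z X))).card := by
      rw [← card_product]
      refine card_le_card_of_injOn (fun p => res (insert z X) (ar p.1 * u p.2)) ?_ ?_
      · rintro ⟨r, y⟩ hry
        rw [mem_coe, mem_product] at hry
        rw [mem_coe]
        exact mem_image_of_mem _ (mem_image.2 ⟨(ar r, y), mem_product.2 ⟨har1 r hry.1, hry.2⟩, rfl⟩)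
      · rintro ⟨r, y⟩ hry ⟨r', y'⟩ hry' heq
        rw [mem_coe, mem_product] at hry hry'
        simp only at hry hry' heq
        have h1 : ∀ x ∈ X, ar r x = ar r' x := by
          intro x hx
          have h2 := GREEDY_res_eq heq (mem_insert_of_mem hx)
          rw [Perm.mul_apply, Perm.mul_apply, hu1 y hry.2 x hx, hu1 y' hry'.2 x hx] at h2
          exact h2
        have h3 : r = r' := by
          rw [← har2 r hry.1, ← har2 r' hry'.1]
          funext x
          by_cases hx : x ∈ X
          · simp [res, hx, h1 x hx]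
          · simp [res, hx]
        subst h3
        have h4 := GREEDY_res_eq heq (mem_insert_self z X)
        rw [Perm.mul_apply, Perm.mul_apply, hu2 y hry.2, hu2 y' hry'.2] at h4
        have h5 : y = y' := (ar r).injective h4
        rw [h5]
    rw [hcard', pow_succ, ← mul_assoc]
    have h6 : ((A.image (res X)).card : ℝ) * (O.card : ℝ) ≤
        ((((A ×ˢ O).image (fun p => p.1 * u p.2)).image (res (insert z X))).card : ℝ) := by
      exact_mod_cast hcount
    refine le_trans ?_ h6
    exact mul_le_mul hcard horb hq (Nat.cast_nonneg _)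

theorem greedy {L : ℕ} (F : Filt α L) (hL : Fintype.card α ^ 2 + 1 ≤ L) (k : ℕ) (Z : Finset α)
    (q : ℝ) (hq : 0 ≤ q) :
    ∃ X : Finset α, Z ⊆ X ∧
      (Im (F.T k) Z : ℝ) * q ^ (X \ Z).card ≤ Im (F.T (k + 1)) X ∧
      ∀ z, z ∉ X → ((orb (Gr (F.T k) X) z).card : ℝ) < q := by
  classical
  obtain ⟨X, hX, hmax⟩ := (univ.filter (fun X => GREEDY_P F k Z q X)).exists_max_image
    (fun X : Finset α => X.card) ⟨Z, by simpa using GREEDY_base F k Z q⟩
  rw [mem_filter] at hX
  obtain ⟨hZX, A, hA, hcard⟩ := hX.2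
  refine ⟨X, hZX, hcard.trans ?_, ?_⟩
  · have hsub : A ⊆ F.T (k + 1) := by
      intro a ha
      obtain ⟨l, hl1, hl2, rfl⟩ := hA a ha
      refine F.step k l (hl1.trans ?_) hl2
      refine le_trans ?_ hL
      have h1 : (X \ Z).card ≤ Fintype.card α := card_le_univ _
      nlinarith [Nat.zero_le (Fintype.card α)]
    have : Im A X ≤ Im (F.T (k + 1)) X := card_le_card (image_subset_image hsub)
    exact_mod_cast this
  · intro z hz
    by_contra hcon
    push Not at hcon
    have h1 := GREEDY_step F k Z q hq X hX.2 z hz hcon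
    have h2 := hmax (insert z X) (by simpa using h1)
    rw [card_insert_of_notMem hz] at h2
    omega

end MP731536
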