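import Pool.Agent.Lib.MP_731536_al.Word

/-!
# Random words (MP_731536_al)
-/

set_option linter.unusedSectionVars false

open Equiv Finset

namespace MP731536

section rw

variable {G : Type*} {Φ : Type*} [Group G] [Fintype Φ] [DecidableEq Φ] [MulAction G Φ]

/-- counting function of a family of group elements -/
private def rwc {I : Type*} [Fintype I] (w : I → G) (x y : Φ) : ℕ :=
  (univ.filter (fun i => w i • x = y)).card

private theorem rwc_sum_left {I : Type*} [Fintype I] (w : I → G) (y : Φ) :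
    ∑ z : Φ, rwc w z y = Fintype.card I := by
  unfold rwc
  rw [← Finset.card_univ, Finset.card_eq_sum_card_fiberwise (f := fun i => (w i)⁻¹ • y)
    (t := univ) (fun _ _ => Finset.mem_coe.2 (mem_univ _))]
  refine Finset.sum_congr rfl fun z _ => ?_
  congr 1
  ext i
  simp only [mem_filter, mem_univ, true_and]
  rw [inv_smul_eq_iff, eq_comm]

private theorem rwc_sum_right {I : Type*} [Fintype I] (w : I → G) (x : Φ) :
    ∑ z : Φ, rwc w x z = Fintype.card I := by
  unfold rwc
  rw [← Finset.card_univ, Finset.card_eq_sum_card_fiberwise (f := fun i => w i • x)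
    (t := univ) (fun _ _ => Finset.mem_coe.2 (mem_univ _))]

private theorem rwc_prod {I J : Type*} [Fintype I] [Fintype J] (u : J → G) (w : I → G) (x y : Φ) :
    rwc (fun p : J × I => w p.2 * u p.1) x y = ∑ z : Φ, rwc u x z * rwc w z y := by
  have h1 : rwc (fun p : J × I => w p.2 * u p.1) x y = ∑ j : J, rwc w (u j • x) y := by
    unfold rwc
    rw [Finset.card_filter, Fintype.sum_prod_type]
    refine Finset.sum_congr rfl fun j _ => ?_
    rw [Finset.card_filter]
    refine Finset.sum_congr rfl fun i _ => ?_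
    simp only [mul_smul]
  rw [h1, ← Finset.sum_fiberwise_of_maps_to (s := univ) (t := univ) (g := fun j => u j • x)
    (fun _ _ => mem_univ _)]
  refine Finset.sum_congr rfl fun z _ => ?_
  have h2 : ∀ j ∈ univ.filter (fun j => u j • x = z), rwc w (u j • x) y = rwc w z y := by
    intro j hj
    rw [(mem_filter.1 hj).2]
  rw [Finset.sum_congr rfl h2, Finset.sum_const, smul_eq_mul]
  rfl

/-- one step: the deviation from uniformity is multiplied by `1 - 1 / N` -/
private theorem rw_step {I J : Type*} [Fintype I] [Fintype J] (u : J → G) (w : I → G)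
    (hI : 0 < Fintype.card I) (hJ : Fintype.card J = Fintype.card Φ ^ 2) (hN : 0 < Fintype.card Φ)
    (hu : ∀ x z : Φ, 1 ≤ rwc u x z) (D : ℝ)
    (hD : ∀ x y : Φ, |(rwc w x y : ℝ) / Fintype.card I - 1 / Fintype.card Φ| ≤ D) (x y : Φ) :
    |(rwc (fun p : J × I => w p.2 * u p.1) x y : ℝ) / Fintype.card (J × I) - 1 / Fintype.card Φ|
      ≤ (1 - 1 / Fintype.card Φ) * D := by
  set N : ℝ := (Fintype.card Φ : ℝ) with hNdef
  set M : ℝ := (Fintype.card I : ℝ) with hMdef
  have hN0 : (0 : ℝ) < N := by rw [hNdef]; exact_mod_cast hN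
  have hM0 : (0 : ℝ) < M := by rw [hMdef]; exact_mod_cast hI
  have hcJI : (Fintype.card (J × I) : ℝ) = N ^ 2 * M := by
    rw [Fintype.card_prod, hJ]
    push_cast
    rfl
  set f : Φ → ℝ := fun z => (rwc w z y : ℝ) / M - 1 / N with hf
  have hf0 : ∑ z, f z = 0 := by
    rw [hf, Finset.sum_sub_distrib, ← Finset.sum_div]
    have h1 : (∑ z : Φ, (rwc w z y : ℝ)) = M := by
      have := rwc_sum_left w y
      rw [hMdef]
      exact_mod_cast this
    rw [h1, Finset.sum_const, Finset.card_univ, nsmul_eq_mul, ← hNdef]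
    field_simp
    ring
  have hu1 : (∑ z : Φ, (rwc u x z : ℝ)) = N ^ 2 := by
    have := rwc_sum_right u x
    rw [hJ] at this
    rw [hNdef]
    exact_mod_cast this
  have hval : (rwc (fun p : J × I => w p.2 * u p.1) x y : ℝ) / Fintype.card (J × I) - 1 / N
      = (∑ z, ((rwc u x z : ℝ) - 1) * f z) / N ^ 2 := by
    have h1 : ∑ z, ((rwc u x z : ℝ) - 1) * f z = ∑ z, (rwc u x z : ℝ) * f z := by
      rw [← sub_zero (∑ z, (rwc u x z : ℝ) * f z), ← hf0, ← Finset.sum_sub_distrib]
      refine Finset.sum_congr rfl fun z _ => ?_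
      ring
    have h2 : ∑ z, (rwc u x z : ℝ) * f z
        = (∑ z, (rwc u x z : ℝ) * (rwc w z y : ℝ)) / M - N ^ 2 / N := by
      rw [hf, ← hu1, Finset.sum_div, Finset.sum_div, ← Finset.sum_sub_distrib]
      refine Finset.sum_congr rfl fun z _ => ?_
      ring
    rw [h1, h2, rwc_prod, hcJI]
    push_cast
    field_simp
  rw [hval, abs_div, abs_of_pos (by positivity : (0 : ℝ) < N ^ 2), div_le_iff₀ (by positivity)]
  have h3 : |∑ z, ((rwc u x z : ℝ) - 1) * f z| ≤ ∑ z, ((rwc u x z : ℝ) - 1) * D := by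
    refine (Finset.abs_sum_le_sum_abs _ _).trans (Finset.sum_le_sum fun z _ => ?_)
    have h4 : (0 : ℝ) ≤ (rwc u x z : ℝ) - 1 := by
      have : (1 : ℝ) ≤ (rwc u x z : ℝ) := by exact_mod_cast hu x z
      linarith
    rw [abs_mul, abs_of_nonneg h4]
    exact mul_le_mul_of_nonneg_left (hD z y) h4
  refine h3.trans (le_of_eq ?_)
  rw [← Finset.sum_mul, Finset.sum_sub_distrib, hu1, Finset.sum_const, Finset.card_univ,
    nsmul_eq_mul, mul_one, ← hNdef]
  field_simp

end rw

/-- RW. Random words. -/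
theorem random_words {G Φ : Type*} [Group G] [Fintype Φ] [DecidableEq Φ] [MulAction G Φ]
    [Nonempty Φ] (A : Set G) (hA : ∀ g ∈ A, g⁻¹ ∈ A)
    (htr : ∀ x y : Φ, ∃ g ∈ Subgroup.closure A, g • x = y) :
    ∃ (m : ℕ) (w : Fin m → G), 0 < m ∧
      (∀ k, ∃ l : List G, l.length ≤ 100 * Fintype.card Φ ^ 9 ∧ (∀ g ∈ l, g ∈ A) ∧
        l.prod = w k) ∧
      ∀ x y : Φ,
        (m : ℝ) ≤ 2 * Fintype.card Φ * ((univ.filter (fun k => w k • x = y)).card : ℝ) ∧
        2 * Fintype.card Φ * ((univ.filter (fun k => w k • x = y)).card : ℝ) ≤ 3 * m := by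
  have hN : 0 < Fintype.card Φ := Fintype.card_pos
  have hW : ∀ p : Φ × Φ, ∃ l : List G, l.length ≤ Fintype.card Φ ∧ (∀ g ∈ l, g ∈ A) ∧
      l.prod • p.1 = p.2 := fun p => word_orbit A hA (htr p.1 p.2)
  choose L hL1 hL2 hL3 using hW
  have hu : ∀ x z : Φ, 1 ≤ rwc (fun p : Φ × Φ => (L p).prod) x z := by
    intro x z
    unfold rwc
    rw [Nat.one_le_iff_ne_zero, ← Nat.pos_iff_ne_zero, Finset.card_pos]
    exact ⟨(x, z), by rw [mem_filter]; exact ⟨mem_univ _, hL3 (x, z)⟩⟩
  have hcard : Fintype.card (Φ × Φ) = Fintype.card Φ ^ 2 := by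
    rw [Fintype.card_prod, sq]
  have key : ∀ ℓ : ℕ, ∃ (m : ℕ) (w : Fin m → G), 0 < m ∧
      (∀ k, ∃ l : List G, l.length ≤ Fintype.card Φ * ℓ ∧ (∀ g ∈ l, g ∈ A) ∧ l.prod = w k) ∧
      ∀ x y : Φ, |(rwc w x y : ℝ) / (m : ℝ) - 1 / Fintype.card Φ| ≤
        (1 - 1 / (Fintype.card Φ : ℝ)) ^ ℓ := by
    intro ℓ
    induction ℓ with
    | zero =>
      refine ⟨1, fun _ => 1, Nat.one_pos, fun k => ⟨[], by simp, by simp, by simp⟩, ?_⟩
      intro x y
      rw [pow_zero, Nat.cast_one, div_one]
      have h1 : rwc (fun _ : Fin 1 => (1 : G)) x y ≤ 1 := by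
        unfold rwc
        refine (Finset.card_le_univ _).trans ?_
        simp
      have h2 : (rwc (fun _ : Fin 1 => (1 : G)) x y : ℝ) ≤ 1 := by exact_mod_cast h1
      have h3 : (0 : ℝ) ≤ (rwc (fun _ : Fin 1 => (1 : G)) x y : ℝ) := Nat.cast_nonneg _
      have h4 : (1 : ℝ) / Fintype.card Φ ≤ 1 := by
        rw [div_le_one (by exact_mod_cast hN)]
        exact_mod_cast hN
      have h5 : (0 : ℝ) ≤ 1 / Fintype.card Φ := by positivity
      rw [abs_le]
      constructor <;> linarith
    | succ ℓ ih =>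
      obtain ⟨m, w, hm, hw, hD⟩ := ih
      have hI : 0 < Fintype.card (Fin m) := by rw [Fintype.card_fin]; exact hm
      have hstep := rw_step (fun p : Φ × Φ => (L p).prod) w hI hcard hN hu
        ((1 - 1 / (Fintype.card Φ : ℝ)) ^ ℓ) (by
          intro x y
          rw [Fintype.card_fin]
          exact hD x y)
      let e := Fintype.equivFin ((Φ × Φ) × Fin m)
      refine ⟨Fintype.card ((Φ × Φ) × Fin m), fun k => w (e.symm k).2 * (L (e.symm k).1).prod,
        ?_, ?_, ?_⟩
      · rw [Fintype.card_prod, hcard, Fintype.card_fin]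
        positivity
      · intro k
        obtain ⟨l, hl1, hl2, hl3⟩ := hw (e.symm k).2
        refine ⟨l ++ L (e.symm k).1, ?_, ?_, ?_⟩
        · rw [List.length_append, Nat.mul_succ]
          exact Nat.add_le_add hl1 (hL1 _)
        · intro g hg
          rcases List.mem_append.1 hg with h | h
          · exact hl2 g h
          · exact hL2 _ g h
        · rw [List.prod_append, hl3]
      · intro x y
        have hre : rwc (fun k => w (e.symm k).2 * (L (e.symm k).1).prod) x y =
            rwc (fun p : (Φ × Φ) × Fin m => w p.2 * (L p.1).prod) x y := by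
          unfold rwc
          refine Finset.card_bij (fun k _ => e.symm k) ?_ ?_ ?_
          · intro k hk
            rw [mem_filter] at hk ⊢
            exact ⟨mem_univ _, hk.2⟩
          · intro a _ b _ hab
            exact e.symm.injective hab
          · intro p hp
            refine ⟨e p, ?_, by simp⟩
            rw [mem_filter] at hp ⊢
            exact ⟨mem_univ _, by simpa using hp.2⟩
        rw [hre]
        refine (hstep x y).trans (le_of_eq ?_)
        rw [pow_succ]
        ring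
  obtain ⟨m, w, hm, hw, hD⟩ := key (2 * Fintype.card Φ ^ 2)
  refine ⟨m, w, hm, ?_, ?_⟩
  · intro k
    obtain ⟨l, hl1, hl2, hl3⟩ := hw k
    refine ⟨l, hl1.trans ?_, hl2, hl3⟩
    have h1 : Fintype.card Φ ^ 3 ≤ Fintype.card Φ ^ 9 := Nat.pow_le_pow_right hN (by norm_num)
    calc Fintype.card Φ * (2 * Fintype.card Φ ^ 2) = 2 * Fintype.card Φ ^ 3 := by ring
      _ ≤ 100 * Fintype.card Φ ^ 9 := Nat.mul_le_mul (by norm_num) h1
  · intro x y
    have hdev := hD x y
    have hN0 : (0 : ℝ) < (Fintype.card Φ : ℝ) := by exact_mod_cast hN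
    have hN1 : (1 : ℝ) ≤ (Fintype.card Φ : ℝ) := by exact_mod_cast hN
    have hm0 : (0 : ℝ) < (m : ℝ) := by exact_mod_cast hm
    have hsmall : (1 - 1 / (Fintype.card Φ : ℝ)) ^ (2 * Fintype.card Φ ^ 2) ≤
        1 / (2 * (Fintype.card Φ : ℝ)) := by
      have h1 : (1 - 1 / (Fintype.card Φ : ℝ)) ≤ Real.exp (-(1 / (Fintype.card Φ : ℝ))) := by
        have := Real.add_one_le_exp (-(1 / (Fintype.card Φ : ℝ)))
        linarith
      have h0 : 0 ≤ 1 - 1 / (Fintype.card Φ : ℝ) := by
        have : 1 / (Fintype.card Φ : ℝ) ≤ 1 := by rw [div_le_one hN0]; exact hN1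
        linarith
      refine (pow_le_pow_left₀ h0 h1 _).trans ?_
      rw [← Real.exp_nat_mul]
      have h2 : ((2 * Fintype.card Φ ^ 2 : ℕ) : ℝ) * -(1 / (Fintype.card Φ : ℝ)) =
          -(2 * (Fintype.card Φ : ℝ)) := by
        push_cast
        field_simp
      rw [h2, Real.exp_neg, ← one_div]
      refine one_div_le_one_div_of_le (by positivity) ?_
      have := Real.add_one_le_exp (2 * (Fintype.card Φ : ℝ))
      linarith
    have h3 := hdev.trans hsmall
    have hc : ((univ.filter (fun k => w k • x = y)).card : ℝ) = (rwc w x y : ℝ) := rfl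
    rw [hc]
    rw [abs_le] at h3
    obtain ⟨h4, h5⟩ := h3
    have h6 : 1 / (2 * (Fintype.card Φ : ℝ)) ≤ (rwc w x y : ℝ) / m := by
      have : 1 / (Fintype.card Φ : ℝ) = 2 * (1 / (2 * (Fintype.card Φ : ℝ))) := by
        field_simp
      linarith
    have h7 : (rwc w x y : ℝ) / m ≤ 3 / (2 * (Fintype.card Φ : ℝ)) := by
      have : 3 / (2 * (Fintype.card Φ : ℝ)) = 1 / (Fintype.card Φ : ℝ) +
          1 / (2 * (Fintype.card Φ : ℝ)) := by
        field_simp
        norm_num
      linarith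
    rw [div_le_div_iff₀ (by positivity) hm0] at h6
    rw [div_le_div_iff₀ hm0 (by positivity)] at h7
    constructor <;> linarith

end MP731536
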