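import Pool.Agent.Lib.MP_731536_al.Defs2
import Pool.Agent.Lib.MP_731536_al.RW

/-!
# MP_731536_al, module TRANS
-/

set_option linter.unusedSectionVars false

open Equiv Finset

namespace MP731536

private theorem tr_fiber {m n : ℕ} (w : Fin m → Perm (Fin n)) (P : Fin m → Prop)
    [DecidablePred P] (z : Fin n) :
    (((univ.filter P).card : ℕ) : ℝ) =
      ∑ z' : Fin n, (((univ.filter (fun k => P k ∧ w k z = z')).card : ℕ) : ℝ) := by
  rw [Finset.card_eq_sum_card_fiberwise (f := fun k => w k z) (t := univ)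
    (fun _ _ => Finset.mem_coe.2 (Finset.mem_univ _)), Nat.cast_sum]
  refine Finset.sum_congr rfl (fun z' _ => ?_)
  rw [Finset.filter_filter]

private theorem tr_inj {n : ℕ} {x y z : Fin n} (hxy : x ≠ y) (hyz : y ≠ z) (hzx : z ≠ x) :
    Function.Injective ![x, y, z] := by
  intro i j hij
  fin_cases i <;> fin_cases j <;> simp_all

private theorem tr_iff {n : ℕ} {x y z x' y' z' : Fin n} (hxy : x ≠ y) (hyz : y ≠ z)
    (hzx : z ≠ x) (hxy' : x' ≠ y') (hyz' : y' ≠ z') (hzx' : z' ≠ x') (g : Perm (Fin n)) :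
    g • (⟨_, tr_inj hxy hyz hzx⟩ : Fin 3 ↪ Fin n) = ⟨_, tr_inj hxy' hyz' hzx'⟩ ↔
      g x = x' ∧ g y = y' ∧ g z = z' := by
  constructor
  · intro h
    exact ⟨congrArg (fun f : Fin 3 ↪ Fin n => f 0) h, congrArg (fun f : Fin 3 ↪ Fin n => f 1) h,
      congrArg (fun f : Fin 3 ↪ Fin n => f 2) h⟩
  · rintro ⟨h0, h1, h2⟩
    ext i
    fin_cases i
    · exact congrArg Fin.val h0
    · exact congrArg Fin.val h1
    · exact congrArg Fin.val h2

private theorem tr_near {n m : ℕ} (hn : 5 ≤ n) (hm : 0 < m) (w : Fin m → Perm (Fin n))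
    (h : ∀ x y : Fin 3 ↪ Fin n,
        (m : ℝ) ≤ 2 * Fintype.card (Fin 3 ↪ Fin n) *
          ((univ.filter (fun k => w k • x = y)).card : ℝ) ∧
        2 * Fintype.card (Fin 3 ↪ Fin n) * ((univ.filter (fun k => w k • x = y)).card : ℝ)
          ≤ 3 * m) : NearUnif w := by
  have hn' : (5 : ℝ) ≤ n := by exact_mod_cast hn
  have hm' : (0 : ℝ) < m := by exact_mod_cast hm
  have hN : ((Fintype.card (Fin 3 ↪ Fin n) : ℕ) : ℝ) = n * (n - 1) * (n - 2) := by
    rw [Fintype.card_embedding_eq, Fintype.card_fin, Fintype.card_fin]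
    have : n.descFactorial 3 = n * (n - 1) * (n - 2) := by
      simp only [Nat.descFactorial_succ, Nat.descFactorial_zero]
      rw [Nat.sub_zero]
      ring
    rw [this, Nat.cast_mul, Nat.cast_mul, Nat.cast_sub (by omega), Nat.cast_sub (by omega)]
    norm_num
  rw [hN] at h
  -- triples
  have key : ∀ x y z x' y' z' : Fin n, x ≠ y → y ≠ z → z ≠ x → x' ≠ y' → y' ≠ z' → z' ≠ x' →
      (m : ℝ) ≤ 2 * (n * (n - 1) * (n - 2)) *
        ((univ.filter (fun k => w k x = x' ∧ w k y = y' ∧ w k z = z')).card : ℝ) ∧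
      2 * (n * (n - 1) * (n - 2)) *
        ((univ.filter (fun k => w k x = x' ∧ w k y = y' ∧ w k z = z')).card : ℝ) ≤ 3 * m := by
    intro x y z x' y' z' hxy hyz hzx hxy' hyz' hzx'
    have h1 := h ⟨_, tr_inj hxy hyz hzx⟩ ⟨_, tr_inj hxy' hyz' hzx'⟩
    have h2 : (univ.filter (fun k => w k • (⟨_, tr_inj hxy hyz hzx⟩ : Fin 3 ↪ Fin n) =
        ⟨_, tr_inj hxy' hyz' hzx'⟩)) =
        univ.filter (fun k => w k x = x' ∧ w k y = y' ∧ w k z = z') := by
      refine Finset.filter_congr (fun k _ => ?_)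
      exact tr_iff hxy hyz hzx hxy' hyz' hzx' (w k)
    rw [h2] at h1
    exact h1
  have three : ∀ x y z x' y' z' : Fin n, x ≠ y → y ≠ z → z ≠ x →
      2 * (n * (n - 1) * (n - 2)) *
        ((univ.filter (fun k => w k x = x' ∧ w k y = y' ∧ w k z = z')).card : ℝ) ≤ 3 * m := by
    intro x y z x' y' z' hxy hyz hzx
    by_cases hc : x' ≠ y' ∧ y' ≠ z' ∧ z' ≠ x'
    · exact (key x y z x' y' z' hxy hyz hzx hc.1 hc.2.1 hc.2.2).2
    · have h0 : univ.filter (fun k => w k x = x' ∧ w k y = y' ∧ w k z = z') = ∅ := by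
        refine Finset.filter_eq_empty_iff.2 (fun k _ hk => hc ?_)
        obtain ⟨rfl, rfl, rfl⟩ := hk
        exact ⟨fun h => hxy ((w k).injective h), fun h => hyz ((w k).injective h),
          fun h => hzx ((w k).injective h)⟩
      rw [h0, Finset.card_empty]
      simp
  have hpair : ∀ x y z x' y' : Fin n,
      ((univ.filter (fun k => w k x = x' ∧ w k y = y')).card : ℝ) =
        ∑ z' : Fin n, ((univ.filter (fun k => w k x = x' ∧ w k y = y' ∧ w k z = z')).card : ℝ) := by
    intro x y z x' y'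
    rw [tr_fiber w _ z]
    refine Finset.sum_congr rfl (fun z' _ => ?_)
    congr 2
    exact Finset.filter_congr (fun k _ => and_assoc)
  have hthird : ∀ x y : Fin n, x ≠ y → ∃ z : Fin n, y ≠ z ∧ z ≠ x := by
    intro x y hxy
    have h1 : ({x, y} : Finset (Fin n)).card < (univ : Finset (Fin n)).card := by
      rw [Finset.card_pair hxy, Finset.card_univ, Fintype.card_fin]
      omega
    obtain ⟨z, -, hz⟩ := Finset.exists_mem_notMem_of_card_lt_card h1
    rw [Finset.mem_insert, Finset.mem_singleton, not_or] at hz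
    exact ⟨z, fun h => hz.2 h.symm, hz.1⟩
  have hcard2 : ∀ x y : Fin n, x ≠ y →
      (((univ.filter (fun z : Fin n => z ≠ x ∧ z ≠ y)).card : ℕ) : ℝ) = n - 2 := by
    intro x y hxy
    have h1 : univ.filter (fun z : Fin n => z ≠ x ∧ z ≠ y) = univ \ {x, y} := by
      ext z
      simp
    rw [h1, Finset.card_sdiff_of_subset (Finset.subset_univ _), Finset.card_pair hxy,
      Finset.card_univ, Fintype.card_fin, Nat.cast_sub (by omega)]
    norm_num
  have two_lower : ∀ x y x' y' : Fin n, x ≠ y → x' ≠ y' →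
      (m : ℝ) ≤ 2 * n * (n - 1) *
        ((univ.filter (fun k => w k x = x' ∧ w k y = y')).card : ℝ) := by
    intro x y x' y' hxy hxy'
    obtain ⟨z, hyz, hzx⟩ := hthird x y hxy
    rw [hpair x y z x' y']
    have h1 : ∑ z' ∈ univ.filter (fun z' : Fin n => z' ≠ x' ∧ z' ≠ y'),
        (m : ℝ) / (2 * (n * (n - 1) * (n - 2))) ≤
        ∑ z' : Fin n, ((univ.filter (fun k => w k x = x' ∧ w k y = y' ∧ w k z = z')).card : ℝ) := by
      refine le_trans (Finset.sum_le_sum (g := fun z' =>
        ((univ.filter (fun k => w k x = x' ∧ w k y = y' ∧ w k z = z')).card : ℝ)) ?_) ?_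
      · intro z' hz'
        rw [Finset.mem_filter] at hz'
        rw [div_le_iff₀ (by nlinarith [mul_pos (by linarith : (0:ℝ) < n) (by linarith : (0:ℝ) < n - 1), mul_pos (mul_pos (by linarith : (0:ℝ) < n) (by linarith : (0:ℝ) < n - 1)) (by linarith : (0:ℝ) < n - 2)])]
        have := (key x y z x' y' z' hxy hyz hzx hxy' (fun h => hz'.2.2 h.symm) hz'.2.1).1
        linarith
      · exact Finset.sum_le_sum_of_subset_of_nonneg (Finset.subset_univ _)
          (fun _ _ _ => Nat.cast_nonneg _)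
    rw [Finset.sum_const, nsmul_eq_mul, hcard2 x' y' hxy'] at h1
    have hpos : (0 : ℝ) < 2 * n * (n - 1) := by nlinarith
    have h2 : ((n : ℝ) - 2) * (m / (2 * (n * (n - 1) * (n - 2)))) = m / (2 * n * (n - 1)) := by
      have e1 : (n : ℝ) ≠ 0 := by linarith
      have e2 : (n : ℝ) - 1 ≠ 0 := by linarith
      have e3 : (n : ℝ) - 2 ≠ 0 := by linarith
      field_simp
    rw [h2, div_le_iff₀ hpos] at h1
    linarith
  refine ⟨hm, ?_, two_lower, ?_, ?_⟩
  · intro x x'
    obtain ⟨y, hy⟩ : ∃ y : Fin n, x ≠ y := by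
      have : Nontrivial (Fin n) := Fin.nontrivial_iff_two_le.2 (by omega)
      obtain ⟨y, hy⟩ := exists_ne x
      exact ⟨y, hy.symm⟩
    rw [tr_fiber w _ y]
    have h1 : ∑ y' ∈ univ.filter (fun y' : Fin n => y' ≠ x'),
        (m : ℝ) / (2 * n * (n - 1)) ≤
        ∑ y' : Fin n, ((univ.filter (fun k => w k x = x' ∧ w k y = y')).card : ℝ) := by
      refine le_trans (Finset.sum_le_sum (g := fun y' =>
        ((univ.filter (fun k => w k x = x' ∧ w k y = y')).card : ℝ)) ?_) ?_
      · intro y' hy'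
        rw [Finset.mem_filter] at hy'
        rw [div_le_iff₀ (by nlinarith)]
        have := two_lower x y x' y' hy (fun h => hy'.2 h.symm)
        linarith
      · exact Finset.sum_le_sum_of_subset_of_nonneg (Finset.subset_univ _)
          (fun _ _ _ => Nat.cast_nonneg _)
    have h3 : (((univ.filter (fun y' : Fin n => y' ≠ x')).card : ℕ) : ℝ) = n - 1 := by
      rw [Finset.filter_ne', Finset.card_erase_of_mem (Finset.mem_univ _), Finset.card_univ,
        Fintype.card_fin, Nat.cast_sub (by omega)]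
      norm_num
    rw [Finset.sum_const, nsmul_eq_mul, h3] at h1
    have hpos : (0 : ℝ) < 2 * n := by linarith
    have h2 : ((n : ℝ) - 1) * (m / (2 * n * (n - 1))) = m / (2 * n) := by
      have e1 : (n : ℝ) ≠ 0 := by linarith
      have e2 : (n : ℝ) - 1 ≠ 0 := by linarith
      field_simp
    rw [h2, div_le_iff₀ hpos] at h1
    linarith
  · intro x y x' y' hxy
    by_cases hxy' : x' = y'
    · have h0 : univ.filter (fun k => w k x = x' ∧ w k y = y') = ∅ := by
        refine Finset.filter_eq_empty_iff.2 (fun k _ hk => hxy ?_)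
        exact (w k).injective (hk.1.trans (hxy'.trans hk.2.symm))
      rw [h0, Finset.card_empty]
      simp
    · obtain ⟨z, hyz, hzx⟩ := hthird x y hxy
      rw [hpair x y z x' y']
      have h1 : ∑ z' : Fin n,
          ((univ.filter (fun k => w k x = x' ∧ w k y = y' ∧ w k z = z')).card : ℝ) ≤
          ∑ z' ∈ univ.filter (fun z' : Fin n => z' ≠ x' ∧ z' ≠ y'),
            (3 * m : ℝ) / (2 * (n * (n - 1) * (n - 2))) := by
        have h2 : ∑ z' ∈ univ.filter (fun z' : Fin n => z' ≠ x' ∧ z' ≠ y'),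
            ((univ.filter (fun k => w k x = x' ∧ w k y = y' ∧ w k z = z')).card : ℝ) =
            ∑ z' : Fin n,
              ((univ.filter (fun k => w k x = x' ∧ w k y = y' ∧ w k z = z')).card : ℝ) := by
          refine Finset.sum_subset (Finset.subset_univ _) (fun z' _ hz' => ?_)
          have h0 : univ.filter (fun k => w k x = x' ∧ w k y = y' ∧ w k z = z') = ∅ := by
            refine Finset.filter_eq_empty_iff.2 (fun k _ hk => hz' ?_)
            rw [Finset.mem_filter]
            obtain ⟨rfl, rfl, rfl⟩ := hk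
            exact ⟨Finset.mem_univ _, fun h => hzx ((w k).injective h),
              fun h => hyz ((w k).injective h).symm⟩
          rw [h0, Finset.card_empty, Nat.cast_zero]
        rw [← h2]
        refine Finset.sum_le_sum (fun z' hz' => ?_)
        rw [le_div_iff₀ (by nlinarith [mul_pos (by linarith : (0:ℝ) < n) (by linarith : (0:ℝ) < n - 1), mul_pos (mul_pos (by linarith : (0:ℝ) < n) (by linarith : (0:ℝ) < n - 1)) (by linarith : (0:ℝ) < n - 2)])]
        have := three x y z x' y' z' hxy hyz hzx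
        linarith
      rw [Finset.sum_const, nsmul_eq_mul, hcard2 x' y' hxy'] at h1
      have h2 : ((n : ℝ) - 2) * (3 * m / (2 * (n * (n - 1) * (n - 2)))) =
          3 * m / (2 * n * (n - 1)) := by
        have e1 : (n : ℝ) ≠ 0 := by linarith
        have e2 : (n : ℝ) - 1 ≠ 0 := by linarith
        have e3 : (n : ℝ) - 2 ≠ 0 := by linarith
        field_simp
      rw [h2] at h1
      refine (mul_le_mul_of_nonneg_right h1 (by positivity)).trans ?_
      have e1 : (0 : ℝ) < n := by linarith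
      have e2 : (0 : ℝ) < (n : ℝ) - 1 := by linarith
      rw [div_mul_eq_mul_div, div_le_iff₀ (by positivity)]
      have h5 : 3 * (n : ℝ) ≤ 8 * (n - 1) := by linarith
      have h6 : 0 ≤ (m : ℝ) * n := by positivity
      nlinarith [mul_le_mul_of_nonneg_left h5 h6]
  · intro x y z x' y' z' hxy hyz hzx
    have := three x y z x' y' z' hxy hyz hzx
    calc 2 * (n : ℝ) * (n - 1) * (n - 2) *
        ((univ.filter (fun k => w k x = x' ∧ w k y = y' ∧ w k z = z')).card : ℝ)
        = 2 * (n * (n - 1) * (n - 2)) *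
        ((univ.filter (fun k => w k x = x' ∧ w k y = y' ∧ w k z = z')).card : ℝ) := by ring
      _ ≤ 3 * m := this

/-- TRANS. Nearly uniform translators. -/
theorem translators {n L : ℕ} (hn : 5 ≤ n) (hL : 100 * n ^ 27 ≤ L) (F : Filt (Fin n) L)
    (hgen : alternatingGroup (Fin n) ≤ Subgroup.closure (F.T 0 : Set (Perm (Fin n)))) :
    ∃ (m : ℕ) (w : Fin m → Perm (Fin n)), NearUnif w ∧ ∀ k, w k ∈ F.T 1 := by
  have hcard : Nat.card (Fin n) = n := by
    rw [Nat.card_eq_fintype_card, Fintype.card_fin]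
  have h0 := alternatingGroup.isMultiplyPretransitive (Fin n)
  have h3 : MulAction.IsMultiplyPretransitive (alternatingGroup (Fin n)) (Fin n) 3 :=
    MulAction.isMultiplyPretransitive_of_le (n := Nat.card (Fin n) - 2) (by omega) (by omega)
  have htr : ∀ x y : Fin 3 ↪ Fin n,
      ∃ g ∈ Subgroup.closure (F.T 0 : Set (Perm (Fin n))), g • x = y := by
    intro x y
    obtain ⟨g, hg⟩ := h3.exists_smul_eq x y
    exact ⟨g, hgen g.2, hg⟩
  have hne : Nonempty (Fin 3 ↪ Fin n) := ⟨⟨Fin.castLE (by omega), Fin.castLE_injective _⟩⟩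
  obtain ⟨m, w, hm, hw1, hw2⟩ := random_words (F.T 0 : Set (Perm (Fin n)))
    (fun g hg => Finset.mem_coe.2 (F.inv_mem 0 g (Finset.mem_coe.1 hg))) htr
  refine ⟨m, w, tr_near hn hm w hw2, fun k => ?_⟩
  obtain ⟨l, hl1, hl2, hl3⟩ := hw1 k
  rw [← hl3]
  refine F.step 0 l (hl1.trans (le_trans ?_ hL)) (fun g hg => Finset.mem_coe.1 (hl2 g hg))
  refine Nat.mul_le_mul_left _ ?_
  rw [Fintype.card_embedding_eq, Fintype.card_fin, Fintype.card_fin]
  calc (n.descFactorial 3) ^ 9 ≤ (n ^ 3) ^ 9 := Nat.pow_le_pow_left (Nat.descFactorial_le_pow n 3) 9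
    _ = n ^ 27 := by rw [← pow_mul]

end MP731536
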