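import Pool.Agent.Lib.MP_731536_al.Defs2

/-!
# Module SHR: shrinking the support by commutators with random conjugates
-/

open Equiv Finset

namespace MP731536

/-- The support of a commutator. -/
theorem comm_fix {α : Type*} (b h : Perm α) (x : α)
    (h1 : b x = x ∨ h x = x) (h2 : b (b⁻¹ x) = b⁻¹ x ∨ h (b⁻¹ x) = b⁻¹ x)
    (h3 : b (h⁻¹ x) = h⁻¹ x ∨ h (h⁻¹ x) = h⁻¹ x) : (b * h * b⁻¹ * h⁻¹) x = x := by
  simp only [Perm.mul_apply]
  by_cases hx : h x = x
  · have hx' : h⁻¹ x = x := by rw [Perm.inv_eq_iff_eq]; exact hx.symm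
    rw [hx']
    rcases h2 with h2 | h2
    · have h4 : b⁻¹ x = x := by
        have h5 : b (b⁻¹ x) = x := by simp
        rw [← h2, h5]
      rw [h4, hx]
      rw [Perm.inv_eq_iff_eq] at h4
      exact h4.symm
    · rw [h2]
      simp
  · have hbx : b x = x := by
      rcases h1 with e | e
      · exact e
      · exact absurd e hx
    have h4 : b (h⁻¹ x) = h⁻¹ x := by
      rcases h3 with e | e
      · exact e
      · exfalso
        apply hx
        have h5 : h (h⁻¹ x) = x := by simp
        rw [h5] at e
        rw [Perm.eq_inv_iff_eq] at e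
        exact e
    have h5 : b⁻¹ (h⁻¹ x) = h⁻¹ x := by rw [Perm.inv_eq_iff_eq]; exact h4.symm
    rw [h5]
    simp [hbx]

/-- SHR. Let `p` with `p' = b p ≠ p`, `u ∈ supp b`, `v ∉ supp b`, and consider the `k` with
`w k p' = u`, `w k p = v` (at least `m / (2n(n-1))` of them, `two_lower`). For them
`h = (w k)⁻¹ b (w k)` fixes `p` and moves `p'`, so `b` and `h` do not commute. The average over
these `k` of the number of `x ∈ supp b`, `x ≠ p, p'`, with `w k x ∈ supp b` is at most
`s^2 * 3/(n-2)` (`three_upper`) with `s = |supp b| ≤ n/100`. So some `k` has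
`|supp b ∩ supp h| ≤ 1 + 0.031 s`. The support of the commutator is contained in
`I ∪ b I ∪ h I`, `I = supp b ∩ supp h`. -/
theorem shrink {n m : ℕ} (hn : 1000 ≤ n) (w : Fin m → Perm (Fin n)) (hw : NearUnif w)
    (b : Perm (Fin n)) (hb : b ≠ 1) (hs : (b.support.card : ℝ) ≤ n / 100) :
    ∃ k, b * ((w k)⁻¹ * b * w k) * b⁻¹ * ((w k)⁻¹ * b * w k)⁻¹ ≠ 1 ∧
      (((b * ((w k)⁻¹ * b * w k) * b⁻¹ * ((w k)⁻¹ * b * w k)⁻¹).support.card : ℝ)
        ≤ 6 + b.support.card / 10) := by
  classical
  have hnR : (1000 : ℝ) ≤ n := by exact_mod_cast hn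
  obtain ⟨p, hp⟩ : ∃ p, b p ≠ p := by
    by_contra hcon
    push Not at hcon
    exact hb (Equiv.ext hcon)
  have hp' : b (b p) ≠ b p := fun h => hp (b.injective h)
  -- a point outside the support
  obtain ⟨v, hv⟩ : ∃ v, v ∉ b.support := by
    by_contra hcon
    push Not at hcon
    have h1 : b.support = univ := Finset.eq_univ_of_forall hcon
    rw [h1, Finset.card_univ, Fintype.card_fin] at hs
    linarith
  have hbv : b v = v := by simpa using hv
  have hpv : p ≠ v := by
    rintro rfl
    exact hp hbv
  set s : ℝ := (b.support.card : ℝ) with hsdef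
  have hs0 : 0 ≤ s := Nat.cast_nonneg _
  set K0 : Finset (Fin m) := univ.filter (fun k => w k (b p) = p ∧ w k p = v) with hK0
  have hlow := hw.two_lower (b p) p p v hp hpv
  have hm : (0 : ℝ) < m := by exact_mod_cast hw.pos
  have hK0pos : 0 < (K0.card : ℝ) := by
    rcases Nat.eq_zero_or_pos K0.card with h | h
    · rw [← hK0, h, Nat.cast_zero, mul_zero] at hlow
      linarith
    · exact_mod_cast h
  have hK0ne : K0.Nonempty := by
    rw [← Finset.card_pos]
    exact_mod_cast hK0pos
  -- the points in question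
  set D : Finset (Fin n) := b.support.filter (fun x => x ≠ p ∧ x ≠ b p) with hD
  have hDcard : (D.card : ℝ) ≤ s := by
    rw [hsdef]
    exact_mod_cast Finset.card_filter_le _ _
  have hsum : (∑ k ∈ K0, ((D.filter (fun x => w k x ∈ b.support)).card : ℝ)) ≤
      ∑ k ∈ K0, 3 * s ^ 2 / ((n : ℝ) - 2) := by
    have h1 : ∀ k ∈ K0, ((D.filter (fun x => w k x ∈ b.support)).card : ℝ) =
        ∑ x ∈ D, ∑ z ∈ b.support, if w k x = z then (1 : ℝ) else 0 := by
      intro k _
      rw [Finset.card_filter]
      push_cast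
      refine Finset.sum_congr rfl fun x _ => ?_
      rw [Finset.sum_ite_eq]
    rw [Finset.sum_congr rfl h1, Finset.sum_comm]
    have h2 : ∀ x ∈ D, (∑ k ∈ K0, ∑ z ∈ b.support, if w k x = z then (1 : ℝ) else 0) ≤
        s * (3 * m / (2 * n * (n - 1) * (n - 2))) := by
      intro x hx
      rw [Finset.sum_comm]
      have hx2 := (Finset.mem_filter.1 hx).2
      have h3 : ∀ z ∈ b.support, (∑ k ∈ K0, if w k x = z then (1 : ℝ) else 0) ≤
          3 * m / (2 * n * (n - 1) * (n - 2)) := by
        intro z _
        have h4 : (∑ k ∈ K0, if w k x = z then (1 : ℝ) else 0) =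
            ((univ.filter (fun k => w k (b p) = p ∧ w k p = v ∧ w k x = z)).card : ℝ) := by
          rw [← Finset.sum_filter, hK0, Finset.filter_filter, Finset.sum_const, nsmul_eq_mul,
            mul_one]
          congr 2
          ext k
          simp only [Finset.mem_filter, Finset.mem_univ, true_and, and_assoc]
        rw [h4, le_div_iff₀ (by
          apply mul_pos (mul_pos (by linarith) (by linarith)) (by linarith))]
        have := hw.three_upper (b p) p x p v z hp (Ne.symm hx2.1) hx2.2
        linarith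
      calc (∑ z ∈ b.support, ∑ k ∈ K0, if w k x = z then (1 : ℝ) else 0)
          ≤ ∑ z ∈ b.support, (3 * (m : ℝ) / (2 * (n : ℝ) * ((n : ℝ) - 1) * ((n : ℝ) - 2))) :=
            Finset.sum_le_sum h3
        _ = s * (3 * m / (2 * n * (n - 1) * (n - 2))) := by
            rw [Finset.sum_const, nsmul_eq_mul]
    calc (∑ x ∈ D, ∑ k ∈ K0, ∑ z ∈ b.support, if w k x = z then (1 : ℝ) else 0)
        ≤ ∑ x ∈ D, s * (3 * (m : ℝ) / (2 * (n : ℝ) * ((n : ℝ) - 1) * ((n : ℝ) - 2))) :=
          Finset.sum_le_sum h2
      _ = D.card * (s * (3 * m / (2 * n * (n - 1) * (n - 2)))) := by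
          rw [Finset.sum_const, nsmul_eq_mul]
      _ ≤ s * (s * (3 * m / (2 * n * (n - 1) * (n - 2)))) := by
          apply mul_le_mul_of_nonneg_right hDcard
          apply mul_nonneg hs0
          apply div_nonneg (by linarith)
          apply mul_nonneg (mul_nonneg (by linarith) (by linarith)) (by linarith)
      _ = (m / (2 * n * (n - 1))) * (3 * s ^ 2 / (n - 2)) := by
          have h5 : ((n : ℝ) - 1) ≠ 0 := by linarith
          have h6 : ((n : ℝ) - 2) ≠ 0 := by linarith
          have h7 : (n : ℝ) ≠ 0 := by linarith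
          field_simp
      _ ≤ K0.card * (3 * s ^ 2 / (n - 2)) := by
          apply mul_le_mul_of_nonneg_right
          · rw [div_le_iff₀ (by apply mul_pos (by linarith) (by linarith))]
            linarith
          · apply div_nonneg (by positivity) (by linarith)
      _ = ∑ k ∈ K0, 3 * s ^ 2 / ((n : ℝ) - 2) := by
          rw [Finset.sum_const, nsmul_eq_mul]
  obtain ⟨k, hk, hkle⟩ := Finset.exists_le_of_sum_le hK0ne hsum
  refine ⟨k, ?_⟩
  obtain ⟨hk1, hk2⟩ := (Finset.mem_filter.1 hk).2
  set h : Perm (Fin n) := (w k)⁻¹ * b * w k with hh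
  have happ : ∀ x, h x = (w k)⁻¹ (b (w k x)) := fun x => rfl
  have hfix : ∀ x, h x = x ↔ b (w k x) = w k x := by
    intro x
    rw [happ, Perm.inv_eq_iff_eq]
  have hhp : h p = p := by
    rw [hfix, hk2]
    exact hbv
  have hhp' : h (b p) ≠ b p := by
    intro h1
    rw [hfix, hk1] at h1
    exact hp h1
  constructor
  · intro h1
    have h2 : b * h = h * b := by
      have : b * h * b⁻¹ * h⁻¹ * (h * b) = 1 * (h * b) := by rw [h1]
      rw [one_mul] at this
      rw [← this]
      group
    have h3 : (b * h) p = (h * b) p := by rw [h2]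
    simp only [Perm.mul_apply] at h3
    rw [hhp] at h3
    exact hhp' h3.symm
  · set I : Finset (Fin n) := univ.filter (fun x => b x ≠ x ∧ h x ≠ x) with hI
    have hIcard : (I.card : ℝ) ≤ 1 + 3 * s ^ 2 / (n - 2) := by
      have h1 : I ⊆ insert (b p) (D.filter (fun x => w k x ∈ b.support)) := by
        intro x hx
        obtain ⟨hx1, hx2⟩ := (Finset.mem_filter.1 hx).2
        rw [Finset.mem_insert]
        by_cases hxp : x = b p
        · exact Or.inl hxp
        · right
          rw [Finset.mem_filter, hD, Finset.mem_filter]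
          refine ⟨⟨by simpa using hx1, ?_, hxp⟩, ?_⟩
          · rintro rfl
            exact hx2 hhp
          · rw [Perm.mem_support]
            intro h2
            exact hx2 ((hfix x).2 h2)
      have h2 : I.card ≤ (D.filter (fun x => w k x ∈ b.support)).card + 1 :=
        (Finset.card_le_card h1).trans (Finset.card_insert_le _ _)
      have h3 : (I.card : ℝ) ≤ (D.filter (fun x => w k x ∈ b.support)).card + 1 := by
        exact_mod_cast h2
      linarith
    have hsupp : (b * h * b⁻¹ * h⁻¹).support ⊆ I ∪ (I.image b ∪ I.image h) := by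
      intro x hx
      rw [Perm.mem_support] at hx
      by_contra hcon
      rw [Finset.mem_union, Finset.mem_union, not_or, not_or] at hcon
      obtain ⟨c1, c2, c3⟩ := hcon
      apply hx
      apply comm_fix
      · by_contra h4
        rw [not_or] at h4
        exact c1 (Finset.mem_filter.2 ⟨Finset.mem_univ _, h4⟩)
      · by_contra h4
        rw [not_or] at h4
        exact c2 (Finset.mem_image.2 ⟨b⁻¹ x, Finset.mem_filter.2 ⟨Finset.mem_univ _, h4⟩, by simp⟩)
      · by_contra h4
        rw [not_or] at h4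
        exact c3 (Finset.mem_image.2 ⟨h⁻¹ x, Finset.mem_filter.2 ⟨Finset.mem_univ _, h4⟩, by simp⟩)
    have hc : (b * h * b⁻¹ * h⁻¹).support.card ≤ 3 * I.card := by
      calc (b * h * b⁻¹ * h⁻¹).support.card ≤ (I ∪ (I.image b ∪ I.image h)).card :=
            Finset.card_le_card hsupp
        _ ≤ I.card + (I.image b ∪ I.image h).card := Finset.card_union_le _ _
        _ ≤ I.card + ((I.image b).card + (I.image h).card) :=
            Nat.add_le_add_left (Finset.card_union_le _ _) _
        _ ≤ I.card + (I.card + I.card) :=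
            Nat.add_le_add_left (Nat.add_le_add Finset.card_image_le Finset.card_image_le) _
        _ = 3 * I.card := by ring
    have hc' : ((b * h * b⁻¹ * h⁻¹).support.card : ℝ) ≤ 3 * I.card := by exact_mod_cast hc
    have h5 : 3 * s ^ 2 / ((n : ℝ) - 2) ≤ 32 / 1000 * s := by
      rw [div_le_iff₀ (by linarith)]
      nlinarith
    linarith

end MP731536
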