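import Pool.Agent.Lib.MP_731536_al.Defs2
import Pool.Agent.Lib.MP_731536_al.Comm3

/-!
# From small support to a 3-cycle (MP_731536_al, module TC3)
-/

set_option linter.unusedSectionVars false

open Equiv Finset

namespace MP731536

theorem to_three_cycle {n m : ℕ} (hn : 1000 ≤ n) (w : Fin m → Perm (Fin n)) (hw : NearUnif w)
    (b : Perm (Fin n)) (hb : b ≠ 1) (hs : b.support.card ≤ 8) :
    ∃ k, ∃ x y z : Fin n, x ≠ y ∧ y ≠ z ∧ z ≠ x ∧
      b * ((w k)⁻¹ * b * w k) * b⁻¹ * ((w k)⁻¹ * b * w k)⁻¹ = cyc3 x y z := by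
  obtain ⟨x, hx⟩ : ∃ x, b x ≠ x := by
    by_contra hcon
    push Not at hcon
    exact hb (Perm.ext hcon)
  have hmpos : (0 : ℝ) < m := by exact_mod_cast hw.pos
  have hnR : (1000 : ℝ) ≤ (n : ℝ) := by exact_mod_cast hn
  have hn0 : (0 : ℝ) < (n : ℝ) := by linarith
  set K1 : Finset (Fin m) := univ.filter (fun k => w k x = x) with hK1
  set Bd : Fin n × Fin n → Finset (Fin m) :=
    fun p => univ.filter (fun k => w k x = x ∧ w k p.1 = p.2) with hBd
  set I : Finset (Fin n × Fin n) := (b.support.erase x) ×ˢ b.support with hI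
  have hIcard : I.card ≤ 64 := by
    rw [hI, Finset.card_product]
    calc (b.support.erase x).card * b.support.card ≤ 8 * 8 :=
          Nat.mul_le_mul ((Finset.card_erase_le).trans hs) hs
      _ = 64 := by norm_num
  have hBdcard : ∀ p ∈ I, ((Bd p).card : ℝ) ≤ 4 * m / (n : ℝ) ^ 2 := by
    intro p hp
    rw [hI, Finset.mem_product, Finset.mem_erase] at hp
    have := hw.two_upper x p.1 x p.2 (Ne.symm hp.1.1)
    rw [le_div_iff₀ (by positivity)]
    exact this
  have hUcard : (((I.biUnion Bd).card : ℕ) : ℝ) ≤ 64 * (4 * m / (n : ℝ) ^ 2) := by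
    calc (((I.biUnion Bd).card : ℕ) : ℝ) ≤ ((∑ p ∈ I, (Bd p).card : ℕ) : ℝ) := by
          exact_mod_cast Finset.card_biUnion_le
      _ = ∑ p ∈ I, ((Bd p).card : ℝ) := by push_cast; rfl
      _ ≤ ∑ _p ∈ I, 4 * (m : ℝ) / (n : ℝ) ^ 2 := Finset.sum_le_sum hBdcard
      _ = (I.card : ℝ) * (4 * m / (n : ℝ) ^ 2) := by rw [Finset.sum_const, nsmul_eq_mul]
      _ ≤ 64 * (4 * m / (n : ℝ) ^ 2) := by
          apply mul_le_mul_of_nonneg_right _ (by positivity)
          exact_mod_cast hIcard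
  have hlow := hw.one_lower x x
  have hlt : (((I.biUnion Bd).card : ℕ) : ℝ) < (K1.card : ℝ) := by
    have h1 : (m : ℝ) / (2 * n) ≤ (K1.card : ℝ) := by
      rw [div_le_iff₀ (by positivity)]
      calc (m : ℝ) ≤ 2 * n * (K1.card : ℝ) := hlow
        _ = _ := by ring
    have h2 : 64 * (4 * (m : ℝ) / (n : ℝ) ^ 2) < (m : ℝ) / (2 * n) := by
      rw [← mul_div_assoc, div_lt_div_iff₀ (by positivity) (by positivity)]
      have h3 : (512 : ℝ) < n := by linarith
      have h4 : (0 : ℝ) < m * n := by positivity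
      nlinarith
    linarith
  have hlt' : (I.biUnion Bd).card < K1.card := by exact_mod_cast hlt
  obtain ⟨k, hk1, hk2⟩ : ∃ k ∈ K1, k ∉ I.biUnion Bd := by
    by_contra hcon
    push Not at hcon
    exact absurd (Finset.card_le_card (fun k hk => hcon k hk)) (not_le.2 hlt')
  rw [hK1, Finset.mem_filter] at hk1
  have hkx : w k x = x := hk1.2
  have hmem : ∀ y, b y ≠ y → ((w k)⁻¹ * b * w k) y ≠ y → y = x := by
    intro y hy1 hy2
    by_contra hyx
    apply hk2
    rw [Finset.mem_biUnion]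
    refine ⟨(y, w k y), ?_, ?_⟩
    · rw [hI, Finset.mem_product, Finset.mem_erase]
      refine ⟨⟨hyx, Perm.mem_support.2 hy1⟩, Perm.mem_support.2 ?_⟩
      intro hc
      apply hy2
      change (w k)⁻¹ (b (w k y)) = y
      rw [hc]
      simp
    · simp only [hBd, Finset.mem_filter, Finset.mem_univ, true_and]
      exact ⟨hkx, trivial⟩
  have hhx : ((w k)⁻¹ * b * w k) x ≠ x := by
    intro hc
    have h1 : (w k)⁻¹ (b (w k x)) = x := hc
    rw [hkx] at h1
    have h2 : b x = w k x := by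
      rw [Perm.inv_eq_iff_eq] at h1
      exact h1
    exact hx (h2.trans hkx)
  obtain ⟨h1, h2⟩ := comm3 hmem hx hhx
  exact ⟨k, x, b x, ((w k)⁻¹ * b * w k) x, hx.symm, h2, hhx, h1⟩

end MP731536
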