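import Pool.Agent.Lib.MP_731536_al.Trans
import Pool.Agent.Lib.MP_731536_al.Shr
import Pool.Agent.Lib.MP_731536_al.TC3
import Pool.Agent.Lib.MP_731536_al.Word
import Pool.Agent.Lib.MP_731536_al.PPM

/-!
# Module STEP6: from small support to everything
-/

open Equiv Finset

namespace MP731536

/-- The alternating group is transitive on ordered triples. -/
theorem alt_trans3 {n : ℕ} (hn : 5 ≤ n) {x y z a b c : Fin n} (hxy : x ≠ y) (hyz : y ≠ z)
    (hzx : z ≠ x) (hab : a ≠ b) (hbc : b ≠ c) (hca : c ≠ a) :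
    ∃ g ∈ alternatingGroup (Fin n), g x = a ∧ g y = b ∧ g z = c := by
  have h0 : MulAction.IsMultiplyPretransitive (alternatingGroup (Fin n)) (Fin n)
      (Nat.card (Fin n) - 2) := alternatingGroup.isMultiplyPretransitive (Fin n)
  have h1 : MulAction.IsMultiplyPretransitive (alternatingGroup (Fin n)) (Fin n) 3 := by
    apply MulAction.isMultiplyPretransitive_of_le (n := Nat.card (Fin n) - 2)
    · rw [Nat.card_eq_fintype_card, Fintype.card_fin]
      omega
    · rw [Nat.card_eq_fintype_card]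
      exact_mod_cast Nat.sub_le _ _
  have e1 : Function.Injective ![x, y, z] := by
    intro i j hij
    fin_cases i <;> fin_cases j <;> simp_all
  have e2 : Function.Injective ![a, b, c] := by
    intro i j hij
    fin_cases i <;> fin_cases j <;> simp_all
  obtain ⟨g, hg⟩ := h1.exists_smul_eq ⟨![x, y, z], e1⟩ ⟨![a, b, c], e2⟩
  have key : ∀ i : Fin 3, (g : Perm (Fin n)) (![x, y, z] i) = ![a, b, c] i := by
    intro i
    have := congrArg (fun f : Fin 3 ↪ Fin n => f i) hg
    exact this
  exact ⟨g, g.2, key 0, key 1, key 2⟩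

/-- Every even permutation lies in `PP ⊤ 3`. -/
theorem alt_le_PP {n : ℕ} (hn : 5 ≤ n) : alternatingGroup (Fin n) ≤ PP (⊤ : Setoid (Fin n)) 3 := by
  rw [← Equiv.Perm.closure_three_cycles_eq_alternating, PP, Subgroup.closure_le]
  intro g hg
  have hg : g.IsThreeCycle := hg
  obtain ⟨a, ha⟩ : g.support.Nonempty := by
    rw [← Finset.card_pos, hg.card_support]
    norm_num
  have h1 := (hg.eq_swap_mul_swap_iff_mem_support).2 ha
  have h2 : [a, g a, g (g a)].Nodup := hg.nodup_iff_mem_support.2 ha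
  simp only [List.nodup_cons, List.mem_cons, List.not_mem_nil, or_false, not_or,
    List.nodup_nil, and_true, not_false_eq_true] at h2
  apply Subgroup.subset_closure
  refine ⟨a, g a, g (g a), h2.1.1, h2.2, Ne.symm h2.1.2, trivial, trivial, ?_, h1⟩
  have h3 : cls (⊤ : Setoid (Fin n)) a = univ := by
    ext y
    rw [mem_cls]
    simp only [Finset.mem_univ, iff_true]
    trivial
  rw [h3, Finset.card_univ, Fintype.card_fin]
  have : 3 ≤ n := by omega
  exact_mod_cast this

/-- STEP6 (uses TRANS, SHR, TC3, WORD, PP_words). (i) By induction on `k` there are `b_k ≠ 1`,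
products of at most `3 * 4^k` hence `4^(k+1) * 3` elements of `F.T j`, with
`|supp b_k| ≤ 20/3 + n / 10^k / 100` (SHR, `w k ∈ F.T 1 ⊆ F.T j`; the new word has length
`4 * old + 4`); for `k` with `n ≤ 10^k ≤ 10 n` we have `4^k ≤ 10^k ≤ 10 n`, `|supp b_k| ≤ 7`. So
`b' ∈ F.T (j+1)`. (ii) TC3: a 3-cycle in `F.T (j+2)` (product of 8 elements). (iii) All 3-cycles
in `F.T (j+3)`: conjugate by words of length at most `n^3` (WORD on triples, the alternating group
is transitive on triples). (iv) every even permutation is a product of at most `n` 3-cycles. -/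
theorem step6 {n L : ℕ} (hn : 1000 ≤ n) (F : Filt (Fin n) L) (hL : 100 * n ^ 27 ≤ L)
    (hgen : alternatingGroup (Fin n) ≤ Subgroup.closure (F.T 0 : Set (Perm (Fin n))))
    (j : ℕ) (hj : 1 ≤ j) (b : Perm (Fin n)) (hbj : b ∈ F.T j) (hb : b ≠ 1)
    (hs : (b.support.card : ℝ) ≤ n / 100) :
    ∀ g ∈ alternatingGroup (Fin n), g ∈ F.T (j + 4) := by
  have hnR : (1000 : ℝ) ≤ n := by exact_mod_cast hn
  have hn1 : 1 ≤ n := by omega
  have hL1 : ∀ k, k ≤ 27 → 100 * n ^ k ≤ L := fun k hk =>
    le_trans (Nat.mul_le_mul_left _ (Nat.pow_le_pow_right hn1 hk)) hL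
  have hL0 : 100 ≤ L := by simpa using hL1 0 (by norm_num)
  obtain ⟨m, w, hw, hwT⟩ := translators (by omega) hL F hgen
  have hwj : ∀ k, w k ∈ F.T j := fun k => F.mono (by omega) hj (hwT k)
  -- (i)
  have hind : ∀ k : ℕ, ∃ l : List (Perm (Fin n)), l.length + 2 ≤ 3 * 4 ^ k ∧
      (∀ g ∈ l, g ∈ F.T j) ∧ l.prod ≠ 1 ∧ (l.prod.support.card : ℝ) ≤ n / 100 ∧
      (l.prod.support.card : ℝ) ≤ 20 / 3 + n / 100 / 10 ^ k := by
    intro k
    induction k with
    | zero =>
      refine ⟨[b], by simp, by simpa using hbj, by simpa using hb, by simpa using hs, ?_⟩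
      simp only [List.prod_cons, List.prod_nil, mul_one, pow_zero, div_one]
      linarith
    | succ k ih =>
      obtain ⟨l, hl1, hl2, hl3, hl4, hl5⟩ := ih
      obtain ⟨i, hi1, hi2⟩ := shrink hn w hw l.prod hl3 hl4
      refine ⟨l ++ ((w i)⁻¹ :: l ++ [w i]) ++ (l.map (·⁻¹)).reverse ++
        ((w i)⁻¹ :: (l.map (·⁻¹)).reverse ++ [w i]), ?_, ?_, ?_, ?_, ?_⟩
      · simp only [List.length_append, List.length_cons, List.length_reverse, List.length_map,
          List.length_nil, pow_succ]
        omega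
      · intro g hg
        have hinv : ∀ g ∈ (l.map (·⁻¹)).reverse, g ∈ F.T j := by
          intro g hg
          rw [List.mem_reverse, List.mem_map] at hg
          obtain ⟨a, ha, rfl⟩ := hg
          exact F.inv_mem j a (hl2 a ha)
        simp only [List.mem_append, List.mem_cons, List.not_mem_nil, or_false] at hg
        rcases hg with ((hg | ((hg | hg) | hg)) | hg) | ((hg | hg) | hg)
        · exact hl2 g hg
        · rw [hg]; exact F.inv_mem j _ (hwj i)
        · exact hl2 g hg
        · rw [hg]; exact hwj i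
        · exact hinv g hg
        · rw [hg]; exact F.inv_mem j _ (hwj i)
        · exact hinv g hg
        · rw [hg]; exact hwj i
      all_goals
        have hprod : (l ++ ((w i)⁻¹ :: l ++ [w i]) ++ (l.map (·⁻¹)).reverse ++
            ((w i)⁻¹ :: (l.map (·⁻¹)).reverse ++ [w i])).prod =
            l.prod * ((w i)⁻¹ * l.prod * w i) * l.prod⁻¹ * ((w i)⁻¹ * l.prod * w i)⁻¹ := by
          have hr : ((l.map (·⁻¹)).reverse).prod = l.prod⁻¹ := by
            rw [List.prod_inv_reverse]
          simp only [List.prod_append, List.prod_cons, List.prod_nil, hr, mul_one]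
          group
        rw [hprod]
      · exact hi1
      · linarith
      · have h1 : (n : ℝ) / 100 / 10 ^ (k + 1) = (n / 100 / 10 ^ k) / 10 := by
          rw [pow_succ]
          field_simp
        rw [h1]
        linarith
  obtain ⟨l, hl1, hl2, hl3, hl4, hl5⟩ := hind (Nat.clog 10 n)
  have hpow1 : n ≤ 10 ^ Nat.clog 10 n := Nat.le_pow_clog (by norm_num) n
  have hpow2 : 10 ^ Nat.clog 10 n ≤ 10 * n := by
    have h1 : 10 ^ (Nat.clog 10 n).pred < n := Nat.pow_pred_clog_lt_self (by norm_num) (by omega)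
    have h2 : Nat.clog 10 n = (Nat.clog 10 n).pred + 1 := by
      have : 0 < Nat.clog 10 n := Nat.clog_pos (by norm_num) (by omega)
      exact (Nat.succ_pred_eq_of_pos this).symm
    rw [h2, pow_succ]
    omega
  have hpow4 : 4 ^ Nat.clog 10 n ≤ 10 ^ Nat.clog 10 n := Nat.pow_le_pow_left (by norm_num) _
  have hb'j : l.prod ∈ F.T (j + 1) := by
    apply F.step j l _ hl2
    have := hL1 1 (by norm_num)
    rw [pow_one] at this
    omega
  have hb's : l.prod.support.card ≤ 8 := by
    have h1 : (n : ℝ) / 100 / 10 ^ Nat.clog 10 n ≤ 1 / 100 := by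
      rw [div_div, div_le_div_iff₀ (by positivity) (by norm_num)]
      have : (n : ℝ) ≤ 10 ^ Nat.clog 10 n := by exact_mod_cast hpow1
      linarith
    have h2 : (l.prod.support.card : ℝ) ≤ 8 := by linarith
    exact_mod_cast h2
  -- (ii)
  obtain ⟨i, x, y, z, hxy, hyz, hzx, hcyc⟩ := to_three_cycle hn w hw l.prod hl3 hb's
  have hw1 : w i ∈ F.T (j + 1) := F.succ (by omega) j (hwj i)
  have hw1' : (w i)⁻¹ ∈ F.T (j + 1) := F.inv_mem _ _ hw1
  have hb'' : l.prod⁻¹ ∈ F.T (j + 1) := F.inv_mem _ _ hb'j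
  have hcyc2 : cyc3 x y z ∈ F.T (j + 2) := by
    have h1 := F.step (j + 1) [l.prod, (w i)⁻¹, l.prod, w i, l.prod⁻¹, (w i)⁻¹, l.prod⁻¹, w i]
      (by simp only [List.length_cons, List.length_nil]; omega)
      (by
        intro g hg
        simp only [List.mem_cons, List.not_mem_nil, or_false] at hg
        rcases hg with rfl | rfl | rfl | rfl | rfl | rfl | rfl | rfl <;> assumption)
    rw [← hcyc]
    have h2 : [l.prod, (w i)⁻¹, l.prod, w i, l.prod⁻¹, (w i)⁻¹, l.prod⁻¹, w i].prod =
        l.prod * ((w i)⁻¹ * l.prod * w i) * l.prod⁻¹ * ((w i)⁻¹ * l.prod * w i)⁻¹ := by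
      simp only [List.prod_cons, List.prod_nil, mul_one]
      group
    rw [← h2]
    exact h1
  -- (iii)
  have hall : ∀ a b c : Fin n, a ≠ b → b ≠ c → c ≠ a → cyc3 a b c ∈ F.T (j + 3) := by
    intro a b c hab hbc hca
    obtain ⟨g, hg, hga, hgb, hgc⟩ := alt_trans3 (by omega : 5 ≤ n) hxy hyz hzx hab hbc hca
    obtain ⟨v, hv1, hv2, hv3⟩ := word_orbit (Φ := Fin n × Fin n × Fin n)
      (F.T 0 : Set (Perm (Fin n))) (fun g hg => F.inv_mem 0 g hg) (x := (x, y, z)) (y := (a, b, c))
      ⟨g, hgen hg, by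
        show (g x, g y, g z) = (a, b, c)
        rw [hga, hgb, hgc]⟩
    have hv4 : v.prod x = a ∧ v.prod y = b ∧ v.prod z = c := by
      have h1 : (v.prod x, v.prod y, v.prod z) = (a, b, c) := hv3
      simpa using h1
    have hv5 : v.prod ∈ F.T 1 := by
      apply F.step 0 v _ hv2
      refine hv1.trans ?_
      have := hL1 3 (by norm_num)
      simp only [Fintype.card_prod, Fintype.card_fin]
      have h3 : n * (n * n) = n ^ 3 := by ring
      rw [h3]
      omega
    have hv6 : v.prod ∈ F.T (j + 2) := F.mono (by omega) (by omega) hv5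
    have := F.conj (by omega) hv6 hcyc2
    rw [conj_cyc3, hv4.1, hv4.2.1, hv4.2.2] at this
    exact this
  -- (iv)
  intro g hg
  obtain ⟨u, hu1, hu2, hu3⟩ := PP_words (⊤ : Setoid (Fin n)) 3 le_rfl
    (alt_le_PP (by omega : 5 ≤ n) hg)
  rw [← hu3]
  apply F.step (j + 3) u
  · rw [Fintype.card_fin] at hu1
    have := hL1 1 (by norm_num)
    rw [pow_one] at this
    omega
  · intro h hh
    obtain ⟨a, b, c, hab, hbc, hca, -, -, -, rfl⟩ := hu2 h hh
    exact hall a b c hab hbc hca

end MP731536
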