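import Pool.Agent.Lib.MP_731536_al.Defs2

/-!
# KER (MP_731536_al)

The order of a permutation group is at most the product of the orbit sizes of the points.
-/

set_option linter.unusedSectionVars false

open Equiv Finset

namespace MP731536

variable {α β : Type*} [Fintype α] [DecidableEq α]

/-- KER. `h ↦ (z ↦ h z)` is an injection of `H` into the product of the orbits. -/
theorem kernel_bound (H : Subgroup (Perm α)) (X Γ : Finset α)
    (hX : ∀ h ∈ H, ∀ x ∈ X, h x = x) (s : ℝ) (hs : 1 ≤ s)
    (h : ∀ z, z ∉ X → z ∉ Γ → ((orb H z).card : ℝ) ≤ s) :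
    (Nat.card H : ℝ) ≤ (Fintype.card α : ℝ) ^ Γ.card * s ^ (Fintype.card α) := by
  classical
  -- the injection
  have h1 : Nat.card H ≤ ∏ z : α, (orb H z).card := by
    have hinj : Function.Injective
        (fun g : H => (fun z : α => (⟨g.1 z, mem_orb.2 ⟨g.1, g.2, rfl⟩⟩ : orb H z))) := by
      intro g g' hgg
      apply Subtype.ext
      apply Equiv.ext
      intro z
      have := congrFun hgg z
      exact congrArg Subtype.val this
    have := Nat.card_le_card_of_injective _ hinj
    rw [Nat.card_eq_fintype_card (α := ∀ z : α, orb H z), Fintype.card_pi] at this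
    simpa using this
  have h2 : ∀ z : α, ((orb H z).card : ℝ) ≤ (if z ∈ Γ then (Fintype.card α : ℝ) else 1) * s := by
    intro z
    split_ifs with hz
    · have h3 : ((orb H z).card : ℝ) ≤ (Fintype.card α : ℝ) := by
        exact_mod_cast Finset.card_le_univ _
      have h4 : (0 : ℝ) ≤ (Fintype.card α : ℝ) := Nat.cast_nonneg _
      nlinarith
    · rw [one_mul]
      by_cases hzX : z ∈ X
      · have : orb H z = {z} := by
          ext y
          rw [mem_orb, Finset.mem_singleton]
          constructor
          · rintro ⟨g, hg, rfl⟩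
            exact hX g hg z hzX
          · rintro rfl
            exact ⟨1, H.one_mem, rfl⟩
        rw [this, Finset.card_singleton]
        simpa using hs
      · exact h z hzX hz
  calc (Nat.card H : ℝ) ≤ ((∏ z : α, (orb H z).card : ℕ) : ℝ) := by exact_mod_cast h1
    _ = ∏ z : α, ((orb H z).card : ℝ) := by push_cast; rfl
    _ ≤ ∏ z : α, ((if z ∈ Γ then (Fintype.card α : ℝ) else 1) * s) :=
        Finset.prod_le_prod (fun z _ => Nat.cast_nonneg _) (fun z _ => h2 z)
    _ = (Fintype.card α : ℝ) ^ Γ.card * s ^ (Fintype.card α) := by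
        rw [Finset.prod_mul_distrib, Finset.prod_ite, Finset.prod_const, Finset.prod_const_one,
          mul_one, Finset.prod_const, Finset.card_univ, Finset.filter_mem_eq_inter,
          Finset.univ_inter]

end MP731536
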