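import Pool.Agent.Lib.MP_731536_al.Defs2

/-!
# The potential lemma (MP_731536_al)
-/

set_option linter.unusedSectionVars false

open Equiv Finset

namespace MP731536

section pot

variable {n m : ℕ} (w : Fin m → Perm (Fin n)) (Γ : Finset (Fin n)) (O : Fin n → Finset (Fin n))

/-- the pair `(a, b)` is not separated by the translators in `l` -/
private def potAlive (l : List (Fin m)) (a b : Fin n) : Prop :=
  ∀ k ∈ l, w k a ∈ Γ → w k b ∈ O (w k a)

/-- number of visits of `a` to `Γ` -/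
private def potCnt : List (Fin m) → Fin n → ℕ
  | [], _ => 0
  | k :: l, a => (if w k a ∈ Γ then 1 else 0) + potCnt l a

open Classical in
/-- weight of a pair -/
private noncomputable def potW (c : ℝ) (l : List (Fin m)) (a b : Fin n) : ℝ :=
  if b ≠ a ∧ potAlive w Γ O l a b then (n : ℝ) ^ (c * (potCnt w Γ l a : ℝ) / 2 - 2) else 0

/-- weight of a point -/
private noncomputable def potV (l : List (Fin m)) (a : Fin n) : ℝ :=
  (1 / 2 : ℝ) ^ (potCnt w Γ l a) / n

/-- the potential -/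
private noncomputable def potΘ (c : ℝ) (l : List (Fin m)) : ℝ :=
  (∑ a, ∑ b, potW w Γ O c l a b) + ∑ a, potV w Γ l a

private theorem potW_nonneg (c : ℝ) (l : List (Fin m)) (a b : Fin n) :
    0 ≤ potW w Γ O c l a b := by
  unfold potW
  split_ifs
  · exact Real.rpow_nonneg (Nat.cast_nonneg n) _
  · exact le_rfl

private theorem potV_nonneg (l : List (Fin m)) (a : Fin n) : 0 ≤ potV w Γ l a := by
  unfold potV
  positivity

/-- number of translators which carry `a` into `Γ` -/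
private theorem pot_hit (hw : NearUnif w) (κ : ℝ) (hn : 1 ≤ n) (hΓ : κ * n ≤ (Γ.card : ℝ))
    (a : Fin n) : κ / 2 * m ≤ ((univ.filter (fun k => w k a ∈ Γ)).card : ℝ) := by
  have hn0 : (0 : ℝ) < n := by exact_mod_cast hn
  have h1 : (univ.filter (fun k => w k a ∈ Γ)).card =
      ∑ γ ∈ Γ, (univ.filter (fun k => w k a = γ)).card := by
    rw [Finset.card_eq_sum_card_fiberwise (f := fun k => w k a) (t := Γ)
      (fun k hk => by
        rw [Finset.mem_coe, mem_filter] at hk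
        exact Finset.mem_coe.2 hk.2)]
    refine Finset.sum_congr rfl fun γ hγ => ?_
    congr 1
    ext k
    simp only [mem_filter, mem_univ, true_and]
    exact ⟨fun h => h.2, fun h => ⟨by rw [h]; exact hγ, h⟩⟩
  rw [h1]
  push_cast
  have h2 : ∀ γ ∈ Γ, (m : ℝ) / (2 * n) ≤ ((univ.filter (fun k => w k a = γ)).card : ℝ) := by
    intro γ _
    rw [div_le_iff₀ (by positivity)]
    have := hw.one_lower a γ
    linarith
  calc κ / 2 * m = (κ * n) * (m / (2 * n)) := by field_simp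
    _ ≤ (Γ.card : ℝ) * (m / (2 * n)) := mul_le_mul_of_nonneg_right hΓ (by positivity)
    _ = ∑ _γ ∈ Γ, (m : ℝ) / (2 * n) := by rw [Finset.sum_const, nsmul_eq_mul]
    _ ≤ _ := Finset.sum_le_sum h2

/-- number of translators which carry `a` into `Γ` and do not separate `a` and `b` -/
private theorem pot_pair (hw : NearUnif w) (hn : 1 ≤ n) (c : ℝ)
    (hO : ∀ γ ∈ Γ, ((O γ).card : ℝ) ≤ (n : ℝ) ^ (1 - c)) (a b : Fin n) (hab : b ≠ a) :
    ((univ.filter (fun k => w k a ∈ Γ ∧ w k b ∈ O (w k a))).card : ℝ) ≤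
      4 * m * (n : ℝ) ^ (-c) := by
  have hn0 : (0 : ℝ) < n := by exact_mod_cast hn
  have h1 : (univ.filter (fun k => w k a ∈ Γ ∧ w k b ∈ O (w k a))).card =
      ∑ γ ∈ Γ, ∑ δ ∈ O γ, (univ.filter (fun k => w k a = γ ∧ w k b = δ)).card := by
    rw [Finset.card_eq_sum_card_fiberwise (f := fun k => w k a) (t := Γ)
      (fun k hk => by
        rw [Finset.mem_coe, mem_filter] at hk
        exact Finset.mem_coe.2 hk.2.1)]
    refine Finset.sum_congr rfl fun γ hγ => ?_
    rw [Finset.card_eq_sum_card_fiberwise (f := fun k => w k b) (t := O γ)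
      (fun k hk => by
        rw [Finset.mem_coe, mem_filter, mem_filter] at hk
        refine Finset.mem_coe.2 ?_
        rw [← hk.2]
        exact hk.1.2.2)]
    refine Finset.sum_congr rfl fun δ hδ => ?_
    congr 1
    ext k
    simp only [mem_filter, mem_univ, true_and]
    constructor
    · rintro ⟨⟨_, h⟩, h'⟩
      exact ⟨h, h'⟩
    · rintro ⟨h, h'⟩
      refine ⟨⟨⟨by rw [h]; exact hγ, by rw [h, h']; exact hδ⟩, h⟩, h'⟩
  rw [h1]
  push_cast
  have h2 : ∀ γ ∈ Γ, ∀ δ ∈ O γ,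
      ((univ.filter (fun k => w k a = γ ∧ w k b = δ)).card : ℝ) ≤ 4 * m / (n : ℝ) ^ 2 := by
    intro γ _ δ _
    rw [le_div_iff₀ (by positivity)]
    exact hw.two_upper a b γ δ hab.symm
  have hexp : (n : ℝ) * ((n : ℝ) ^ (1 - c) * (4 * m / (n : ℝ) ^ 2)) = 4 * m * (n : ℝ) ^ (-c) := by
    have e1 : (n : ℝ) ^ (1 - c) = n * (n : ℝ) ^ (-c) := by
      rw [sub_eq_add_neg, Real.rpow_add hn0, Real.rpow_one]
    rw [e1]
    field_simp
  calc ∑ γ ∈ Γ, ∑ δ ∈ O γ, ((univ.filter (fun k => w k a = γ ∧ w k b = δ)).card : ℝ)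
      ≤ ∑ γ ∈ Γ, ∑ _δ ∈ O γ, 4 * m / (n : ℝ) ^ 2 :=
        Finset.sum_le_sum fun γ hγ => Finset.sum_le_sum fun δ hδ => h2 γ hγ δ hδ
    _ = ∑ γ ∈ Γ, ((O γ).card : ℝ) * (4 * m / (n : ℝ) ^ 2) := by
        refine Finset.sum_congr rfl fun γ _ => ?_
        rw [Finset.sum_const, nsmul_eq_mul]
    _ ≤ ∑ _γ ∈ Γ, (n : ℝ) ^ (1 - c) * (4 * m / (n : ℝ) ^ 2) :=
        Finset.sum_le_sum fun γ hγ => mul_le_mul_of_nonneg_right (hO γ hγ) (by positivity)
    _ = (Γ.card : ℝ) * ((n : ℝ) ^ (1 - c) * (4 * m / (n : ℝ) ^ 2)) := by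
        rw [Finset.sum_const, nsmul_eq_mul]
    _ ≤ n * ((n : ℝ) ^ (1 - c) * (4 * m / (n : ℝ) ^ 2)) := by
        refine mul_le_mul_of_nonneg_right ?_ ?_
        · have := Finset.card_le_univ Γ
          rw [Fintype.card_fin] at this
          exact_mod_cast this
        · have := Real.rpow_nonneg hn0.le (1 - c)
          positivity
    _ = 4 * m * (n : ℝ) ^ (-c) := hexp

private theorem pot_avg_pair (hw : NearUnif w) (κ : ℝ) (hκ : 0 < κ) (hn : 1 ≤ n) (c : ℝ)
    (h16 : 16 / κ ≤ (n : ℝ) ^ (c / 2)) (hΓ : κ * n ≤ (Γ.card : ℝ))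
    (hO : ∀ γ ∈ Γ, ((O γ).card : ℝ) ≤ (n : ℝ) ^ (1 - c)) (l : List (Fin m)) (a b : Fin n) :
    ∑ k, potW w Γ O c (k :: l) a b ≤ (1 - κ / 4) * m * potW w Γ O c l a b := by
  classical
  have hn0 : (0 : ℝ) < n := by exact_mod_cast hn
  by_cases hal : b ≠ a ∧ potAlive w Γ O l a b
  · have hW : potW w Γ O c l a b = (n : ℝ) ^ (c * (potCnt w Γ l a : ℝ) / 2 - 2) := by
      unfold potW
      rw [if_pos hal]
    have hterm : ∀ k, potW w Γ O c (k :: l) a b ≤
        potW w Γ O c l a b * ((if w k a ∈ Γ then 0 else 1) +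
          (n : ℝ) ^ (c / 2) * (if w k a ∈ Γ ∧ w k b ∈ O (w k a) then 1 else 0)) := by
      intro k
      rw [hW]
      have hle : potW w Γ O c (k :: l) a b ≤
          (n : ℝ) ^ (c * (potCnt w Γ (k :: l) a : ℝ) / 2 - 2) := by
        unfold potW
        split_ifs
        · exact le_rfl
        · exact Real.rpow_nonneg hn0.le _
      by_cases h1 : w k a ∈ Γ
      · by_cases h2 : w k b ∈ O (w k a)
        · have h3 : w k a ∈ Γ ∧ w k b ∈ O (w k a) := ⟨h1, h2⟩
          rw [if_pos h1, if_pos h3, zero_add, mul_one, ← Real.rpow_add hn0]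
          refine hle.trans (le_of_eq ?_)
          congr 1
          rw [potCnt, if_pos h1]
          push_cast
          ring
        · have h3 : ¬ (w k a ∈ Γ ∧ w k b ∈ O (w k a)) := fun h => h2 h.2
          rw [if_pos h1, if_neg h3, mul_zero, add_zero, mul_zero]
          unfold potW
          rw [if_neg]
          rintro ⟨_, h4⟩
          exact h2 (h4 k List.mem_cons_self h1)
      · have h3 : ¬ (w k a ∈ Γ ∧ w k b ∈ O (w k a)) := fun h => h1 h.1
        rw [if_neg h1, if_neg h3, mul_zero, add_zero, mul_one]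
        refine hle.trans (le_of_eq ?_)
        rw [potCnt, if_neg h1]
        push_cast
        rw [zero_add]
    refine (Finset.sum_le_sum fun k _ => hterm k).trans ?_
    rw [← Finset.mul_sum, mul_comm ((1 - κ / 4) * m)]
    refine mul_le_mul_of_nonneg_left ?_ (potW_nonneg w Γ O c l a b)
    rw [Finset.sum_add_distrib, ← Finset.mul_sum]
    have e1 : (∑ k, (if w k a ∈ Γ then (0 : ℝ) else 1)) =
        m - ((univ.filter (fun k => w k a ∈ Γ)).card : ℝ) := by
      have : ∀ k, (if w k a ∈ Γ then (0 : ℝ) else 1) = 1 - (if w k a ∈ Γ then (1 : ℝ) else 0) := by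
        intro k
        split_ifs <;> norm_num
      rw [Finset.sum_congr rfl (fun k _ => this k), Finset.sum_sub_distrib, Finset.sum_const,
        Finset.card_univ, Fintype.card_fin, nsmul_eq_mul, mul_one, Finset.sum_boole]
    have e2 : (∑ k, (if w k a ∈ Γ ∧ w k b ∈ O (w k a) then (1 : ℝ) else 0)) =
        ((univ.filter (fun k => w k a ∈ Γ ∧ w k b ∈ O (w k a))).card : ℝ) := by
      rw [Finset.sum_boole]
    rw [e1, e2]
    have h1 := pot_hit w Γ hw κ hn hΓ a
    have h2 := pot_pair w Γ O hw hn c hO a b hal.1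
    have hpos : (0 : ℝ) < (n : ℝ) ^ (c / 2) := Real.rpow_pos_of_pos hn0 _
    have h3 : (n : ℝ) ^ (c / 2) *
        ((univ.filter (fun k => w k a ∈ Γ ∧ w k b ∈ O (w k a))).card : ℝ) ≤ κ / 4 * m := by
      have h4 : (n : ℝ) ^ (c / 2) * (4 * m * (n : ℝ) ^ (-c)) = 4 * m / (n : ℝ) ^ (c / 2) := by
        have e3 : (n : ℝ) ^ (-c) = ((n : ℝ) ^ (c / 2))⁻¹ * ((n : ℝ) ^ (c / 2))⁻¹ := by
          rw [← Real.rpow_neg hn0.le, ← Real.rpow_add hn0]
          congr 1
          ring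
        rw [e3]
        field_simp
      refine (mul_le_mul_of_nonneg_left h2 hpos.le).trans ?_
      rw [h4, div_le_iff₀ hpos]
      have h5 : (κ / 4 * m) * (16 / κ) ≤ (κ / 4 * m) * (n : ℝ) ^ (c / 2) :=
        mul_le_mul_of_nonneg_left h16 (by positivity)
      have h6 : (κ / 4 * m) * (16 / κ) = 4 * m := by
        field_simp
        ring
      linarith
    nlinarith
  · have hW : potW w Γ O c l a b = 0 := by
      unfold potW
      rw [if_neg hal]
    have hW' : ∀ k, potW w Γ O c (k :: l) a b = 0 := by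
      intro k
      unfold potW
      rw [if_neg]
      rintro ⟨h1, h2⟩
      exact hal ⟨h1, fun j hj => h2 j (List.mem_cons_of_mem _ hj)⟩
    rw [hW, mul_zero, Finset.sum_eq_zero fun k _ => hW' k]

private theorem pot_avg_point (hw : NearUnif w) (κ : ℝ) (hn : 1 ≤ n)
    (hΓ : κ * n ≤ (Γ.card : ℝ)) (l : List (Fin m)) (a : Fin n) :
    ∑ k, potV w Γ (k :: l) a ≤ (1 - κ / 4) * m * potV w Γ l a := by
  have hterm : ∀ k, potV w Γ (k :: l) a =
      potV w Γ l a * (1 - 1 / 2 * (if w k a ∈ Γ then (1 : ℝ) else 0)) := by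
    intro k
    unfold potV
    rw [potCnt]
    split_ifs
    · rw [pow_add, pow_one]
      ring
    · rw [zero_add, mul_zero, sub_zero, mul_one]
  rw [Finset.sum_congr rfl (fun k _ => hterm k), ← Finset.mul_sum, Finset.sum_sub_distrib,
    Finset.sum_const, Finset.card_univ, Fintype.card_fin, nsmul_eq_mul, mul_one, ← Finset.mul_sum,
    Finset.sum_boole, mul_comm ((1 - κ / 4) * m)]
  refine mul_le_mul_of_nonneg_left ?_ (potV_nonneg w Γ l a)
  have h1 := pot_hit w Γ hw κ hn hΓ a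
  linarith

private theorem pot_step (hw : NearUnif w) (κ : ℝ) (hκ : 0 < κ) (hn : 1 ≤ n) (c : ℝ)
    (h16 : 16 / κ ≤ (n : ℝ) ^ (c / 2)) (hΓ : κ * n ≤ (Γ.card : ℝ))
    (hO : ∀ γ ∈ Γ, ((O γ).card : ℝ) ≤ (n : ℝ) ^ (1 - c)) (l : List (Fin m)) :
    ∃ k, potΘ w Γ O c (k :: l) ≤ (1 - κ / 4) * potΘ w Γ O c l := by
  have hm : 0 < m := hw.pos
  have hm0 : (0 : ℝ) < m := by exact_mod_cast hm
  by_contra hcon
  push Not at hcon
  have h1 : ∑ _k : Fin m, (1 - κ / 4) * potΘ w Γ O c l < ∑ k, potΘ w Γ O c (k :: l) := by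
    refine Finset.sum_lt_sum_of_nonempty ?_ fun k _ => hcon k
    exact ⟨⟨0, hm⟩, mem_univ _⟩
  rw [Finset.sum_const, Finset.card_univ, Fintype.card_fin, nsmul_eq_mul] at h1
  have h2 : ∑ k, potΘ w Γ O c (k :: l) ≤ (1 - κ / 4) * m * potΘ w Γ O c l := by
    unfold potΘ
    rw [Finset.sum_add_distrib, mul_add]
    refine add_le_add ?_ ?_
    · rw [Finset.sum_comm, Finset.mul_sum]
      refine Finset.sum_le_sum fun a _ => ?_
      rw [Finset.sum_comm, Finset.mul_sum]
      exact Finset.sum_le_sum fun b _ => pot_avg_pair w Γ O hw κ hκ hn c h16 hΓ hO l a b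
    · rw [Finset.sum_comm, Finset.mul_sum]
      exact Finset.sum_le_sum fun a _ => pot_avg_point w Γ hw κ hn hΓ l a
  linarith

private theorem pot_nil (hn : 1 ≤ n) (c : ℝ) : potΘ w Γ O c [] ≤ 2 := by
  have hn0 : (0 : ℝ) < n := by exact_mod_cast hn
  have h1 : ∑ a, ∑ b, potW w Γ O c [] a b ≤ 1 := by
    have hb : ∀ a b, potW w Γ O c [] a b ≤ 1 / (n : ℝ) ^ 2 := by
      intro a b
      unfold potW
      split_ifs
      · rw [potCnt]
        have : c * ((0 : ℕ) : ℝ) / 2 - 2 = -(2 : ℕ) := by push_cast; ring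
        rw [this, Real.rpow_neg hn0.le, Real.rpow_natCast, one_div]
      · positivity
    calc ∑ a, ∑ b, potW w Γ O c [] a b ≤ ∑ _a : Fin n, ∑ _b : Fin n, 1 / (n : ℝ) ^ 2 :=
          Finset.sum_le_sum fun a _ => Finset.sum_le_sum fun b _ => hb a b
      _ = 1 := by
          rw [Finset.sum_const, Finset.sum_const, Finset.card_univ, Fintype.card_fin,
            nsmul_eq_mul, nsmul_eq_mul]
          field_simp
  have h2 : ∑ a, potV w Γ [] a = 1 := by
    unfold potV
    simp only [potCnt, pow_zero]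
    rw [Finset.sum_const, Finset.card_univ, Fintype.card_fin, nsmul_eq_mul]
    field_simp
  unfold potΘ
  linarith

private theorem pot_iter (hw : NearUnif w) (κ : ℝ) (hκ : 0 < κ) (hκ1 : κ ≤ 1) (hn : 1 ≤ n) (c : ℝ)
    (h16 : 16 / κ ≤ (n : ℝ) ^ (c / 2)) (hΓ : κ * n ≤ (Γ.card : ℝ))
    (hO : ∀ γ ∈ Γ, ((O γ).card : ℝ) ≤ (n : ℝ) ^ (1 - c)) (t : ℕ) :
    ∃ l : List (Fin m), l.length = t ∧ potΘ w Γ O c l ≤ (1 - κ / 4) ^ t * 2 := by
  induction t with
  | zero => exact ⟨[], rfl, by rw [pow_zero, one_mul]; exact pot_nil w Γ O hn c⟩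
  | succ t ih =>
    obtain ⟨l, hl, hΘ⟩ := ih
    obtain ⟨k, hk⟩ := pot_step w Γ O hw κ hκ hn c h16 hΓ hO l
    refine ⟨k :: l, by rw [List.length_cons, hl], hk.trans ?_⟩
    have h0 : 0 ≤ 1 - κ / 4 := by linarith
    calc (1 - κ / 4) * potΘ w Γ O c l ≤ (1 - κ / 4) * ((1 - κ / 4) ^ t * 2) :=
          mul_le_mul_of_nonneg_left hΘ h0
      _ = (1 - κ / 4) ^ (t + 1) * 2 := by rw [pow_succ]; ring

open Classical in
private theorem pot_final (hn : 1 ≤ n) (c : ℝ) (hc : 0 < c) (l : List (Fin m)) (ν : ℝ)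
    (hν1 : ν ≤ 1) (hΘ : potΘ w Γ O c l * (2 : ℝ) ^ (4 / c) < ν) :
    ((univ.filter (fun a : Fin n => ∃ b, b ≠ a ∧ potAlive w Γ O l a b)).card : ℝ) < ν * n := by
  have hn0 : (0 : ℝ) < n := by exact_mod_cast hn
  have hn1 : (1 : ℝ) ≤ n := by exact_mod_cast hn
  have h2pos : (0 : ℝ) < (2 : ℝ) ^ (4 / c) := Real.rpow_pos_of_pos (by norm_num) _
  have h2one : (1 : ℝ) ≤ (2 : ℝ) ^ (4 / c) := Real.one_le_rpow (by norm_num) (by positivity)
  have hΘ0 : 0 ≤ potΘ w Γ O c l := by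
    unfold potΘ
    exact add_nonneg (Finset.sum_nonneg fun a _ => Finset.sum_nonneg fun b _ =>
      potW_nonneg w Γ O c l a b) (Finset.sum_nonneg fun a _ => potV_nonneg w Γ l a)
  have hΘ1 : potΘ w Γ O c l < 1 := by
    have : potΘ w Γ O c l * 1 ≤ potΘ w Γ O c l * (2 : ℝ) ^ (4 / c) :=
      mul_le_mul_of_nonneg_left h2one hΘ0
    linarith
  set B := univ.filter (fun a : Fin n => ∃ b, b ≠ a ∧ potAlive w Γ O l a b) with hB
  have hV : ∀ a ∈ B, 1 / ((2 : ℝ) ^ (4 / c) * n) ≤ potV w Γ l a := by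
    intro a ha
    obtain ⟨b, hba, hal⟩ := (mem_filter.1 ha).2
    have hcnt : (potCnt w Γ l a : ℝ) < 4 / c := by
      by_contra hge
      push Not at hge
      have h1 : (1 : ℝ) ≤ potW w Γ O c l a b := by
        unfold potW
        rw [if_pos ⟨hba, hal⟩]
        refine Real.one_le_rpow hn1 ?_
        rw [div_le_iff₀ hc] at hge
        linarith
      have h2 : potW w Γ O c l a b ≤ potΘ w Γ O c l := by
        unfold potΘ
        have h3 : potW w Γ O c l a b ≤ ∑ b, potW w Γ O c l a b :=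
          Finset.single_le_sum (fun b _ => potW_nonneg w Γ O c l a b) (mem_univ b)
        have h4 : ∑ b, potW w Γ O c l a b ≤ ∑ a, ∑ b, potW w Γ O c l a b :=
          Finset.single_le_sum (f := fun a => ∑ b, potW w Γ O c l a b)
            (fun a _ => Finset.sum_nonneg fun b _ => potW_nonneg w Γ O c l a b) (mem_univ a)
        have h5 : 0 ≤ ∑ a, potV w Γ l a := Finset.sum_nonneg fun a _ => potV_nonneg w Γ l a
        linarith
      linarith
    unfold potV
    rw [← one_div_mul_one_div, div_eq_mul_one_div ((1 / 2 : ℝ) ^ potCnt w Γ l a)]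
    refine mul_le_mul_of_nonneg_right ?_ (by positivity)
    rw [one_div_pow]
    refine one_div_le_one_div_of_le (by positivity) ?_
    rw [← Real.rpow_natCast]
    exact Real.rpow_le_rpow_of_exponent_le (by norm_num) hcnt.le
  have h1 : (B.card : ℝ) * (1 / ((2 : ℝ) ^ (4 / c) * n)) ≤ potΘ w Γ O c l := by
    calc (B.card : ℝ) * (1 / ((2 : ℝ) ^ (4 / c) * n))
        = ∑ _a ∈ B, (1 / ((2 : ℝ) ^ (4 / c) * n)) := by rw [Finset.sum_const, nsmul_eq_mul]
      _ ≤ ∑ a ∈ B, potV w Γ l a := Finset.sum_le_sum hV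
      _ ≤ ∑ a, potV w Γ l a :=
          Finset.sum_le_sum_of_subset_of_nonneg (Finset.subset_univ _)
            (fun a _ _ => potV_nonneg w Γ l a)
      _ ≤ potΘ w Γ O c l := by
          unfold potΘ
          have : 0 ≤ ∑ a, ∑ b, potW w Γ O c l a b :=
            Finset.sum_nonneg fun a _ => Finset.sum_nonneg fun b _ => potW_nonneg w Γ O c l a b
          linarith
  have h2 : (B.card : ℝ) ≤ potΘ w Γ O c l * (2 : ℝ) ^ (4 / c) * n := by
    have h3 := mul_le_mul_of_nonneg_right h1 (by positivity : 0 ≤ (2 : ℝ) ^ (4 / c) * n)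
    have h4 : (B.card : ℝ) * (1 / ((2 : ℝ) ^ (4 / c) * n)) * ((2 : ℝ) ^ (4 / c) * n) =
        (B.card : ℝ) := by
      field_simp
    rw [h4] at h3
    linarith
  refine h2.trans_lt ?_
  exact mul_lt_mul_of_pos_right hΘ hn0

end pot

/-- POT. Derandomised potential. -/
theorem potential (κ ν : ℝ) (hκ : 0 < κ) (hκ1 : κ ≤ 1) (hν : 0 < ν) (hν1 : ν ≤ 1) :
    ∃ Ct : ℝ, 0 < Ct ∧ PotBound κ ν Ct := by
  set T : ℝ := 4 / κ * (5 * Real.log 2 + Real.log (1 / ν) + 1) with hT
  have hlog2 : 0 < Real.log 2 := Real.log_pos (by norm_num)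
  have hlogν : 0 ≤ Real.log (1 / ν) := Real.log_nonneg (by rw [le_div_iff₀ hν]; linarith)
  have hT0 : 0 < T := by rw [hT]; positivity
  refine ⟨T + 1, by linarith, ?_⟩
  intro c hc hc4 n hn h16 m w hw Γ O hΓ hO
  set t : ℕ := ⌈T / c⌉₊ with ht
  obtain ⟨l, hl, hΘ⟩ := pot_iter w Γ O hw κ hκ hκ1 hn c h16 hΓ hO t
  have htT : T / c ≤ (t : ℝ) := Nat.le_ceil _
  have ht1 : (t : ℝ) < T / c + 1 := Nat.ceil_lt_add_one (by positivity)
  have hsmall : potΘ w Γ O c l * (2 : ℝ) ^ (4 / c) < ν := by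
    have h2pos : (0 : ℝ) < (2 : ℝ) ^ (4 / c) := Real.rpow_pos_of_pos (by norm_num) _
    have h1 : potΘ w Γ O c l * (2 : ℝ) ^ (4 / c) ≤ (1 - κ / 4) ^ t * 2 * (2 : ℝ) ^ (4 / c) :=
      mul_le_mul_of_nonneg_right hΘ h2pos.le
    have h2 : (1 - κ / 4) ^ t ≤ Real.exp (-(κ / 4 * t)) := by
      have h3 : 1 - κ / 4 ≤ Real.exp (-(κ / 4)) := by
        have := Real.add_one_le_exp (-(κ / 4))
        linarith
      refine (pow_le_pow_left₀ (by linarith) h3 _).trans (le_of_eq ?_)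
      rw [← Real.exp_nat_mul]
      congr 1
      ring
    have h4 : (2 : ℝ) ^ (4 / c) = Real.exp (Real.log 2 * (4 / c)) := by
      rw [Real.rpow_def_of_pos (by norm_num)]
    have h5 : (2 : ℝ) = Real.exp (Real.log 2) := (Real.exp_log (by norm_num)).symm
    have h6 : ν = Real.exp (-Real.log (1 / ν)) := by
      rw [one_div, Real.log_inv, neg_neg, Real.exp_log hν]
    refine h1.trans_lt ?_
    have h7 : (1 - κ / 4) ^ t * 2 * (2 : ℝ) ^ (4 / c) ≤
        Real.exp (-(κ / 4 * t)) * Real.exp (Real.log 2) * Real.exp (Real.log 2 * (4 / c)) := by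
      rw [h4, Real.exp_log (by norm_num : (0 : ℝ) < 2)]
      have := Real.exp_pos (Real.log 2 * (4 / c))
      exact mul_le_mul_of_nonneg_right (mul_le_mul_of_nonneg_right h2 (by norm_num)) this.le
    refine h7.trans_lt ?_
    rw [h6, ← Real.exp_add, ← Real.exp_add, Real.exp_lt_exp]
    have h8 : κ / 4 * (T / c) ≤ κ / 4 * t := mul_le_mul_of_nonneg_left htT (by positivity)
    have h9 : κ / 4 * (T / c) = (5 * Real.log 2 + Real.log (1 / ν) + 1) * (1 / c) := by
      rw [hT]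
      field_simp
    have h10 : (1 : ℝ) ≤ 1 / c := by
      rw [le_div_iff₀ hc]
      linarith
    have h11 : Real.log 2 * (4 / c) = 4 * Real.log 2 * (1 / c) := by ring
    rw [h9] at h8
    rw [h11]
    nlinarith [mul_le_mul_of_nonneg_left h10 hlog2.le, mul_le_mul_of_nonneg_left h10 hlogν]
  refine ⟨l.length, l.get, ?_, ?_⟩
  · rw [hl]
    have h10 : (1 : ℝ) ≤ 1 / c := by
      rw [le_div_iff₀ hc]
      linarith
    have h12 : (T + 1) / c = T / c + 1 / c := by ring
    rw [h12]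
    linarith
  · classical
    have hfin := pot_final w Γ O hn c hc l ν hν1 hsmall
    refine lt_of_le_of_lt ?_ hfin
    have hsub : (univ.filter (fun a : Fin n => ∃ b, b ≠ a ∧
        ∀ j, w (l.get j) a ∈ Γ → w (l.get j) b ∈ O (w (l.get j) a))).card ≤
        (univ.filter (fun a : Fin n => ∃ b, b ≠ a ∧ potAlive w Γ O l a b)).card := by
      refine Finset.card_le_card ?_
      intro a ha
      rw [mem_filter] at ha ⊢
      obtain ⟨b, hba, hal⟩ := ha.2
      refine ⟨mem_univ _, b, hba, ?_⟩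
      intro k hk hkΓ
      obtain ⟨j, rfl⟩ := List.mem_iff_get.1 hk
      exact hal j hkΓ
    exact_mod_cast hsub

end MP731536
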