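import Pool.Agent.Lib.MP_731536_al.Defs2

/-!
# SEQ: combinatorial lemma about sequences (MP_731536_al)
-/

open Finset

namespace MP731536

/-- Induction over the stages: `K` stages with all `c m ≤ c0`; if no index is good, the sum of
the `a m` is at least `K * (3 η / 4)`. -/
theorem seq_stage (η : ℝ) (hη : 0 < η) (hη1 : η ≤ 1) (K : ℕ) :
    ∀ c0 : ℝ, 0 < c0 → ∃ (M : ℕ) (c : ℕ → ℝ), (∀ m, 0 < c m ∧ c m ≤ c0) ∧
      ∀ a : ℕ → ℝ, (∀ m, 0 ≤ a m) → (∑ m ∈ range M, a m ≤ 1) →
        (∀ m, m < M → a m ≤ η * c m → η * c m < ∑ j ∈ range m, c j * a j) →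
        (K : ℝ) * (3 * η / 4) ≤ ∑ m ∈ range M, a m := by
  induction K with
  | zero =>
    intro c0 hc0
    refine ⟨0, fun _ => c0, fun m => ⟨hc0, le_refl _⟩, ?_⟩
    intro a ha hs _
    simp
  | succ K ih =>
    intro c0 hc0
    have hc1 : 0 < η / 4 * c0 := by positivity
    obtain ⟨M', c', hc', hM'⟩ := ih (η / 4 * c0) hc1
    obtain ⟨N, hN⟩ := exists_nat_gt (1 / (η * c0))
    have hηc : 0 < η * c0 := by positivity
    have hN' : 1 < (N : ℝ) * (η * c0) := by
      rwa [div_lt_iff₀ hηc] at hN
    refine ⟨M' + N, fun m => if m < M' then c' m else c0, ?_, ?_⟩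
    · intro m
      by_cases h : m < M'
      · simp only [h, if_true]
        refine ⟨(hc' m).1, (hc' m).2.trans ?_⟩
        have : η / 4 * c0 ≤ 1 * c0 := by
          apply mul_le_mul_of_nonneg_right _ hc0.le
          linarith
        linarith
      · simp only [h, if_false]
        exact ⟨hc0, le_refl _⟩
    · intro a ha hs hbad
      set c : ℕ → ℝ := fun m => if m < M' then c' m else c0 with hcdef
      have hcpos : ∀ m, 0 < c m := by
        intro m
        by_cases h : m < M'
        · simp only [hcdef, h, if_true]; exact (hc' m).1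
        · simp only [hcdef, h, if_false]; exact hc0
      have hsplit : ∑ m ∈ range (M' + N), a m
          = ∑ m ∈ range M', a m + ∑ m ∈ range N, a (M' + m) := by
        rw [Finset.sum_range_add]
      have hnn2 : 0 ≤ ∑ m ∈ range N, a (M' + m) := Finset.sum_nonneg (fun _ _ => ha _)
      have hnn1 : 0 ≤ ∑ m ∈ range M', a m := Finset.sum_nonneg (fun _ _ => ha _)
      have hs1 : ∑ m ∈ range M', a m ≤ 1 := by linarith
      have h1 : (K : ℝ) * (3 * η / 4) ≤ ∑ m ∈ range M', a m := by
        apply hM' a ha hs1
        intro m hm ham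
        have hcm : c m = c' m := by simp only [hcdef, hm, if_true]
        have := hbad m (by omega) (by rw [hcm]; exact ham)
        rw [hcm] at this
        refine this.trans_le (le_of_eq ?_)
        apply Finset.sum_congr rfl
        intro j hj
        have hj' : j < M' := by
          have := Finset.mem_range.1 hj
          omega
        simp only [hcdef, hj', if_true]
      -- some index of the last stage has small `a`
      have h2 : ∃ m, m < N ∧ a (M' + m) ≤ η * c0 := by
        by_contra hcon
        push Not at hcon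
        have : (N : ℝ) * (η * c0) ≤ ∑ m ∈ range N, a (M' + m) := by
          have := Finset.card_nsmul_le_sum (range N) (fun m => a (M' + m)) (η * c0)
            (fun m hm => (hcon m (Finset.mem_range.1 hm)).le)
          simpa [nsmul_eq_mul] using this
        linarith
      obtain ⟨m, hmN, ham⟩ := h2
      have hcm : c (M' + m) = c0 := by
        have : ¬ (M' + m < M') := by omega
        simp only [hcdef, this, if_false]
      have h3 := hbad (M' + m) (by omega) (by rw [hcm]; exact ham)
      rw [hcm, Finset.sum_range_add] at h3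
      have h4 : ∑ j ∈ range M', c j * a j ≤ η / 4 * c0 := by
        calc ∑ j ∈ range M', c j * a j ≤ ∑ j ∈ range M', (η / 4 * c0) * a j := by
              apply Finset.sum_le_sum
              intro j hj
              have hj' := Finset.mem_range.1 hj
              have : c j = c' j := by simp only [hcdef, hj', if_true]
              rw [this]
              exact mul_le_mul_of_nonneg_right (hc' j).2 (ha j)
          _ = (η / 4 * c0) * ∑ j ∈ range M', a j := by rw [Finset.mul_sum]
          _ ≤ (η / 4 * c0) * 1 := mul_le_mul_of_nonneg_left hs1 hc1.le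
          _ = η / 4 * c0 := mul_one _
      have h5 : ∑ j ∈ range m, c (M' + j) * a (M' + j) = c0 * ∑ j ∈ range m, a (M' + j) := by
        rw [Finset.mul_sum]
        apply Finset.sum_congr rfl
        intro j _
        have : ¬ (M' + j < M') := by omega
        simp only [hcdef, this, if_false]
      rw [h5] at h3
      have h6 : 3 * η / 4 < ∑ j ∈ range m, a (M' + j) := by
        have : c0 * (3 * η / 4) < c0 * ∑ j ∈ range m, a (M' + j) := by nlinarith
        exact lt_of_mul_lt_mul_left this hc0.le
      have h7 : ∑ j ∈ range m, a (M' + j) ≤ ∑ j ∈ range N, a (M' + j) := by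
        apply Finset.sum_le_sum_of_subset_of_nonneg
        · intro j hj
          have := Finset.mem_range.1 hj
          exact Finset.mem_range.2 (by omega)
        · intro j _ _
          exact ha _
      push_cast
      linarith

/-- SEQ. Combinatorial lemma about sequences. -/
theorem seq_lemma (η : ℝ) (hη : 0 < η) (hη1 : η ≤ 1) :
    ∃ (M : ℕ) (c : ℕ → ℝ), (∀ m, 0 < c m ∧ c m ≤ 1 / 4) ∧
      ∀ a : ℕ → ℝ, (∀ m, 0 ≤ a m) → (∑ m ∈ range M, a m ≤ 1) →
        ∃ m, m < M ∧ a m ≤ η * c m ∧ ∑ j ∈ range m, c j * a j ≤ η * c m := by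
  obtain ⟨K, hK⟩ := exists_nat_gt (1 / (3 * η / 4))
  have hη' : 0 < 3 * η / 4 := by positivity
  rw [div_lt_iff₀ hη'] at hK
  obtain ⟨M, c, hc, hM⟩ := seq_stage η hη hη1 K (1 / 4) (by norm_num)
  refine ⟨M, c, hc, ?_⟩
  intro a ha hs
  by_contra hcon
  push Not at hcon
  have := hM a ha hs (fun m hm ham => hcon m hm ham)
  linarith

end MP731536
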