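import Pool.Agent.Lib.MP_731536_al.Greedy
import Pool.Agent.Lib.MP_731536_al.SeqL

/-!
# Scales (MP_731536_al, module PROP1)
-/

set_option linter.unusedSectionVars false

open Equiv Finset

namespace MP731536

private theorem prop1_min (c : ℕ → ℝ) (hc : ∀ m, 0 < c m ∧ c m ≤ 1 / 4) (M : ℕ) :
    ∃ cmin : ℝ, 0 < cmin ∧ cmin ≤ 1 / 4 ∧ ∀ m, m < M → cmin ≤ c m := by
  induction M with
  | zero => exact ⟨1 / 4, by norm_num, le_rfl, fun m hm => absurd hm (Nat.not_lt_zero _)⟩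
  | succ M ih =>
    obtain ⟨d, h1, h2, h3⟩ := ih
    refine ⟨min d (c M), lt_min h1 (hc M).1, (min_le_left _ _).trans h2, fun m hm => ?_⟩
    rcases Nat.lt_succ_iff_lt_or_eq.1 hm with h | h
    · exact (min_le_left _ _).trans (h3 m h)
    · rw [h]; exact min_le_right _ _

private theorem prop1_im_mono {α : Type*} [Fintype α] [DecidableEq α] {T T' : Finset (Perm α)}
    (h : T ⊆ T') (X : Finset α) : Im T X ≤ Im T' X :=
  Finset.card_le_card (Finset.image_subset_image h)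

theorem prop1 (η : ℝ) (hη : 0 < η) (hη1 : η ≤ 1) (g : ℕ) :
    ∃ (I : ℕ) (cmin : ℝ), 0 < cmin ∧ cmin ≤ 1 / 4 ∧
      ∀ (n L : ℕ) (F : Filt (Fin n) L), 1 ≤ n → n ^ 2 + 1 ≤ L →
        ∃ (i : ℕ) (c : ℝ) (X' X : Finset (Fin n)), i ≤ I ∧ cmin ≤ c ∧ c ≤ 1 / 4 ∧ X' ⊆ X ∧
          ((X \ X').card : ℝ) ≤ η * c * n ∧
          (n : ℝ) ^ ((X'.card : ℝ) - η * c * n) ≤ Im (F.T i) X' ∧
          ∀ z, z ∉ X → ((orb (Gr (F.T (i + g)) X) z).card : ℝ) < (n : ℝ) ^ (1 - c) := by
  obtain ⟨M, c, hc, hseq⟩ := seq_lemma η hη hη1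
  obtain ⟨cmin, hm1, hm2, hm3⟩ := prop1_min c hc M
  refine ⟨(g + 1) * M, cmin, hm1, hm2, ?_⟩
  intro n L F hn hL
  have hnR : (1 : ℝ) ≤ (n : ℝ) := by exact_mod_cast hn
  have hn0 : (0 : ℝ) < (n : ℝ) := by linarith
  have hL1 : 1 ≤ L := le_trans (Nat.le_add_left 1 _) hL
  have hLc : Fintype.card (Fin n) ^ 2 + 1 ≤ L := by rw [Fintype.card_fin]; exact hL
  -- one step
  have hstep : ∀ (m : ℕ) (Z : Finset (Fin n)), ∃ X : Finset (Fin n), Z ⊆ X ∧
      (Im (F.T ((g + 1) * m + g)) Z : ℝ) * ((n : ℝ) ^ (1 - c m)) ^ (X \ Z).card ≤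
        Im (F.T ((g + 1) * m + g + 1)) X ∧
      ∀ z, z ∉ X → ((orb (Gr (F.T ((g + 1) * m + g)) X) z).card : ℝ) < (n : ℝ) ^ (1 - c m) :=
    fun m Z => greedy F hLc _ Z _ (Real.rpow_nonneg hn0.le _)
  choose nx hnx1 hnx2 hnx3 using hstep
  set X : ℕ → Finset (Fin n) := fun m => Nat.rec ∅ (fun m Z => nx m Z) m with hX
  have hX0 : X 0 = ∅ := rfl
  have hXs : ∀ m, X (m + 1) = nx m (X m) := fun m => rfl
  have hXsub : ∀ m, X m ⊆ X (m + 1) := fun m => by rw [hXs]; exact hnx1 m (X m)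
  set a : ℕ → ℝ := fun m => ((X (m + 1) \ X m).card : ℝ) / n with ha
  have han : ∀ m, (n : ℝ) * a m = ((X (m + 1) \ X m).card : ℝ) := by
    intro m
    simp only [ha]
    field_simp
  have hcards : ∀ m, ((X (m + 1)).card : ℝ) = ((X m).card : ℝ) + n * a m := by
    intro m
    rw [han]
    have := Finset.card_sdiff_add_card_eq_card (hXsub m)
    have h2 : ((X (m + 1) \ X m).card : ℝ) + ((X m).card : ℝ) = ((X (m + 1)).card : ℝ) := by
      exact_mod_cast this
    linarith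
  have hsum : ∀ m, ((X m).card : ℝ) = n * ∑ j ∈ range m, a j := by
    intro m
    induction m with
    | zero => simp [hX0]
    | succ m ih => rw [hcards, ih, Finset.sum_range_succ]; ring
  have hIm : ∀ m, (n : ℝ) ^ (((X m).card : ℝ) - n * ∑ j ∈ range m, c j * a j) ≤
      Im (F.T ((g + 1) * m)) (X m) := by
    intro m
    induction m with
    | zero =>
      have h1 : 1 ≤ Im (F.T ((g + 1) * 0)) (X 0) := by
        unfold Im
        rw [Nat.one_le_iff_ne_zero, Finset.card_ne_zero]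
        exact ⟨_, Finset.mem_image_of_mem _ (F.one_mem _)⟩
      simp only [hX0, Finset.card_empty, Nat.cast_zero, Finset.range_zero, Finset.sum_empty,
        mul_zero, sub_zero, Real.rpow_zero]
      rw [hX0] at h1
      exact_mod_cast h1
    | succ m ih =>
      have h1 := hnx2 m (X m)
      rw [← hXs] at h1
      have h2 : (Im (F.T ((g + 1) * m)) (X m) : ℝ) ≤ Im (F.T ((g + 1) * m + g)) (X m) := by
        exact_mod_cast prop1_im_mono (F.mono hL1 (Nat.le_add_right _ _)) _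
      have h3 : (g + 1) * m + g + 1 = (g + 1) * (m + 1) := by ring
      rw [h3] at h1
      have h4 : (n : ℝ) ^ (((X (m + 1)).card : ℝ) - n * ∑ j ∈ range (m + 1), c j * a j) =
          (n : ℝ) ^ (((X m).card : ℝ) - n * ∑ j ∈ range m, c j * a j) *
            ((n : ℝ) ^ (1 - c m)) ^ (X (m + 1) \ X m).card := by
        rw [← Real.rpow_natCast, ← Real.rpow_mul hn0.le, ← Real.rpow_add hn0, ← han,
          hcards, Finset.sum_range_succ]
        congr 1
        ring
      rw [h4]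
      refine le_trans ?_ h1
      exact mul_le_mul_of_nonneg_right (ih.trans h2) (by positivity)
  have ha0 : ∀ m, 0 ≤ a m := fun m => by simp only [ha]; positivity
  have ha1 : ∑ m ∈ range M, a m ≤ 1 := by
    have h1 := hsum M
    have h2 : ((X M).card : ℝ) ≤ n := by
      have := Finset.card_le_univ (X M)
      rw [Fintype.card_fin] at this
      exact_mod_cast this
    rw [h1] at h2
    have h3 : (n : ℝ) * ∑ j ∈ range M, a j ≤ n * 1 := by linarith
    exact le_of_mul_le_mul_left h3 hn0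
  obtain ⟨m, hmM, hma, hms⟩ := hseq a ha0 ha1
  refine ⟨(g + 1) * m, c m, X m, X (m + 1), Nat.mul_le_mul_left _ hmM.le, hm3 m hmM, (hc m).2,
    hXsub m, ?_, ?_, ?_⟩
  · rw [← han]
    calc (n : ℝ) * a m ≤ n * (η * c m) := mul_le_mul_of_nonneg_left hma hn0.le
      _ = η * c m * n := by ring
  · refine le_trans ?_ (hIm m)
    apply Real.rpow_le_rpow_of_exponent_le hnR
    have : (n : ℝ) * ∑ j ∈ range m, c j * a j ≤ n * (η * c m) :=
      mul_le_mul_of_nonneg_left hms hn0.le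
    linarith
  · intro z hz
    rw [hXs] at hz ⊢
    exact hnx3 m (X m) z hz

end MP731536
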