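import Pool.Agent.Lib.MP_731536_al.Defs2

/-!
# PIG (MP_731536_al)

Pigeonhole on the cosets of the group of the permutations which act on `X` as an element of `P`.
-/

set_option linter.unusedSectionVars false

open Equiv Finset

namespace MP731536

variable {α β : Type*} [Fintype α] [DecidableEq α]

/-- The relation: `g` restricted to `X` is `g'` composed with an element of `P`. -/
def pigSetoid (X : Finset α) (P : Subgroup (Perm α))
    (hPX : ∀ π ∈ P, ∀ x, x ∉ X → π x = x) : Setoid (Perm α) where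
  r g g' := ∃ π ∈ P, ∀ x ∈ X, g x = g' (π x)
  iseqv := by
    refine ⟨fun g => ⟨1, P.one_mem, fun _ _ => rfl⟩, ?_, ?_⟩
    · rintro g g' ⟨π, hπ, h⟩
      refine ⟨π⁻¹, P.inv_mem hπ, fun x hx => ?_⟩
      have h1 : π⁻¹ x ∈ X := supp_mem (Finset.Subset.refl X) (hPX _ (P.inv_mem hπ)) hx
      rw [h _ h1]
      simp
    · rintro g g' g'' ⟨π, hπ, h⟩ ⟨π', hπ', h'⟩
      refine ⟨π' * π, P.mul_mem hπ' hπ, fun x hx => ?_⟩
      have h1 : π x ∈ X := supp_mem (Finset.Subset.refl X) (hPX _ hπ) hx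
      rw [h x hx, h' _ h1, Perm.mul_apply]

/-- PIG. Let `Q = {g | ∃ π ∈ P, ∀ x ∈ X, g x = π x}`, a subgroup. `|Q| = |P| * (n - |X|)!`, so
its index is `n! / ((n-|X|)! |P|) ≤ n ^ |X| / |P|`. Map `s ∈ S` to the family of left cosets
`(s⁻¹ * (w l)⁻¹) Q`: if `|S| > index ^ t` two elements `s ≠ s'` have the same family, so that
`(s⁻¹ (w l)⁻¹)⁻¹ (s'⁻¹ (w l)⁻¹) = w l * (s * s'⁻¹) * (w l)⁻¹ ∈ Q`. -/
theorem pigeon (X : Finset α) (P : Subgroup (Perm α)) (hPX : ∀ π ∈ P, ∀ x, x ∉ X → π x = x)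
    (S : Finset (Perm α)) (t : ℕ) (w : Fin t → Perm α)
    (hS : ((Fintype.card α : ℝ) ^ X.card / (Nat.card P : ℝ)) ^ t < (S.card : ℝ)) :
    ∃ s ∈ S, ∃ s' ∈ S, s ≠ s' ∧
      ∀ l, ∃ π ∈ P, ∀ x ∈ X, (w l * (s * s'⁻¹) * (w l)⁻¹) x = π x := by
  classical
  let E := pigSetoid X P hPX
  -- the number of classes
  have hfin : Finite (Quotient E) := Quotient.finite E
  have hcard : Nat.card (Quotient E) * Nat.card P ≤ Fintype.card α ^ X.card := by
    have hinj : Function.Injective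
        (fun p : Quotient E × P => (fun x : X => p.1.out (p.2.1 x.1) : X → α)) := by
      rintro ⟨q, π⟩ ⟨q', π'⟩ hqq
      have h0 : ∀ x ∈ X, q.out (π.1 x) = q'.out (π'.1 x) := fun x hx => congrFun hqq ⟨x, hx⟩
      have h1 : q = q' := by
        have h2 : E q.out q'.out := by
          refine ⟨π'.1 * π.1⁻¹, P.mul_mem π'.2 (P.inv_mem π.2), fun x hx => ?_⟩
          have h3 : π.1⁻¹ x ∈ X :=
            supp_mem (Finset.Subset.refl X) (hPX _ (P.inv_mem π.2)) hx
          have h4 := h0 _ h3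
          rw [Perm.mul_apply, ← h4]
          simp
        have h3 := Quotient.sound h2
        rwa [Quotient.out_eq, Quotient.out_eq] at h3
      subst h1
      have h2 : π = π' := by
        apply Subtype.ext
        apply Equiv.ext
        intro x
        by_cases hx : x ∈ X
        · exact q.out.injective (h0 x hx)
        · rw [hPX _ π.2 x hx, hPX _ π'.2 x hx]
      rw [h2]
    have := Nat.card_le_card_of_injective _ hinj
    rw [Nat.card_prod, Nat.card_eq_fintype_card (α := X → α), Fintype.card_fun] at this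
    simpa using this
  have hPpos : (0 : ℝ) < (Nat.card P : ℝ) := by exact_mod_cast Nat.card_pos
  have hle : (Nat.card (Quotient E) : ℝ) ≤ (Fintype.card α : ℝ) ^ X.card / (Nat.card P : ℝ) := by
    rw [le_div_iff₀ hPpos]
    exact_mod_cast hcard
  have hlt : Nat.card (Fin t → Quotient E) < S.card := by
    have h1 : ((Nat.card (Quotient E) ^ t : ℕ) : ℝ) < (S.card : ℝ) := by
      push_cast
      exact lt_of_le_of_lt (pow_le_pow_left₀ (Nat.cast_nonneg _) hle t) hS
    have h2 : Nat.card (Quotient E) ^ t < S.card := by exact_mod_cast h1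
    simpa [Nat.card_fun] using h2
  have : Fintype (Fin t → Quotient E) := Fintype.ofFinite _
  rw [Nat.card_eq_fintype_card] at hlt
  obtain ⟨s', hs', s, hs, hne, heq⟩ := Finset.exists_ne_map_eq_of_card_lt_of_maps_to
    (s := S) (t := (Finset.univ : Finset (Fin t → Quotient E)))
    (by rw [Finset.card_univ]; exact hlt)
    (f := fun s => fun l => (Quotient.mk E (s⁻¹ * (w l)⁻¹))) (fun _ _ => Finset.mem_coe.2 (Finset.mem_univ _))
  refine ⟨s, hs, s', hs', hne.symm, fun l => ?_⟩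
  have h1 : E (s'⁻¹ * (w l)⁻¹) (s⁻¹ * (w l)⁻¹) := Quotient.exact (congrFun heq l)
  obtain ⟨π, hπ, h⟩ := h1
  refine ⟨π, hπ, fun x hx => ?_⟩
  have h2 := h x hx
  simp only [Perm.mul_apply] at h2 ⊢
  rw [h2]
  simp

end MP731536
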