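import Pool.Agent.Lib.MP_731536_al.TypeI
import Pool.Agent.Lib.MP_731536_al.Pig

set_option linter.unusedSectionVars false

open Equiv Finset

namespace MP731536

theorem split {n L : ℕ} (F : Filt (Fin n) L) (hL : 3 * n + 3 ≤ L) (hn : 1 ≤ n) (κ ν Ct : ℝ)
    (hpot : PotBound κ ν Ct) {m : ℕ} (w : Fin m → Perm (Fin n)) (hw : NearUnif w)
    (hw1 : ∀ k, w k ∈ F.T 1) (X : Finset (Fin n)) (P : Subgroup (Perm (Fin n)))
    (hPX : ∀ π ∈ P, ∀ x, x ∉ X → π x = x) (j : ℕ)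
    (hP : ∀ π ∈ P, ∃ t ∈ F.T j, ∀ x ∈ X, t x = π x) (q s : ℝ) (hs : 1 ≤ s)
    (hqs : (n : ℝ) < q * s)
    (hidx : ∀ Q : Subgroup (Perm (Fin n)), Q ≤ P →
      (Nat.card P : ℝ) < q * (Nat.card Q : ℝ) → Q = P)
    (c : ℝ) (hc : 0 < c) (hc4 : c ≤ 1 / 4) (h16 : 16 / κ ≤ (n : ℝ) ^ (c / 2))
    (horb : ∀ z, z ∉ X → ((orb (Gr (F.T (j + 3)) X) z).card : ℝ) < (n : ℝ) ^ (1 - c))
    (hcost : ∀ t : ℕ, (t : ℝ) ≤ Ct / c →
      ((n : ℝ) ^ X.card / (Nat.card P : ℝ)) ^ t < ((F.T 0).card : ℝ))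
    (Γ : Finset (Fin n))
    (hΓ : ∀ γ ∈ Γ, γ ∉ X ∧ s ≤ ((orb (Gr (F.T j) X) γ).card : ℝ)) :
    (Γ.card : ℝ) < κ * n ∨ ∃ g ∈ F.T 1, g ≠ 1 ∧ (g.support.card : ℝ) < ν * n := by
  classical
  by_cases hcard : (Γ.card : ℝ) < κ * n
  · exact Or.inl hcard
  right
  push Not at hcard
  obtain ⟨t, k, ht, hsup⟩ := hpot c hc hc4 n hn h16 m w hw Γ
    (fun γ => orb (Gr (F.T (j + 3)) X) γ) hcard (fun γ hγ => (horb γ (hΓ γ hγ).1).le)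
  obtain ⟨a, ha, b, hb, hab, hcong⟩ := pigeon X P hPX (F.T 0) t (fun l => w (k l))
    (by simpa using hcost t ht)
  have hμ : a * b⁻¹ ∈ F.T 1 := F.mul (by omega) ha (F.inv_mem _ _ hb)
  refine ⟨a * b⁻¹, hμ, fun h => hab (mul_inv_eq_one.1 h), lt_of_le_of_lt ?_ hsup⟩
  have hsub : (a * b⁻¹).support ⊆ univ.filter (fun a' : Fin n => ∃ b', b' ≠ a' ∧
          ∀ l, w (k l) a' ∈ Γ → w (k l) b' ∈ orb (Gr (F.T (j + 3)) X) (w (k l) a')) := by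
    intro x hx
    rw [Perm.mem_support] at hx
    refine Finset.mem_filter.2 ⟨Finset.mem_univ _, (a * b⁻¹) x, hx, fun l hl => ?_⟩
    obtain ⟨π, hπ, hπX⟩ := hcong l
    have hconj : w (k l) * (a * b⁻¹) * (w (k l))⁻¹ ∈ F.T (j + 2) :=
      F.mono (by omega) (by omega) (F.conj (by omega) (hw1 (k l)) hμ)
    have h1 := typeI F hL X P j hPX hP q s (by linarith) hqs hs hidx (w (k l) x)
      (hΓ _ hl).1 (hΓ _ hl).2 _ hconj π hπ hπX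
    simpa [Perm.mul_apply] using h1
  exact_mod_cast Finset.card_le_card hsub

end MP731536
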