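import Pool.Agent.Lib.MP_731536_al.Defs2
import Pool.Agent.Lib.MP_731536_al.Comm3

/-!
# BL: the basic lemma (MP_731536_al)
-/

set_option linter.unusedSectionVars false

open Equiv Finset

namespace MP731536

variable {α β : Type*} [Fintype α] [DecidableEq α]

/-- The values at `p` of the elements of `B` which agree with `b0` on `Y`. -/
private noncomputable def blVals (B : Finset (Perm α)) (Y : Finset α) (p : α) (b0 : Perm α) :
    Finset α :=
  (B.filter (fun b => ∀ y ∈ Y, b y = b0 y)).image (fun b => b p)

/-- `p` is good for `Y`. -/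
private def blGood (B : Finset (Perm α)) (q : ℝ) (Y : Finset α) (p : α) : Prop :=
  ∃ b0 ∈ B, q ≤ ((blVals B Y p b0).card : ℝ)

private theorem res_eq_iff {X : Finset α} {g h : Perm α} :
    res X g = res X h ↔ ∀ x ∈ X, g x = h x := by
  constructor
  · intro hgh x hx
    have := congrFun hgh x
    simpa [res, hx] using this
  · intro hgh
    funext x
    by_cases hx : x ∈ X
    · simp [res, hx, hgh x hx]
    · simp [res, hx]

/-- The step of the count. -/
private theorem bl_step (B : Finset (Perm α)) (Y : Finset α) (p : α) (q : ℝ)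
    (h : ∀ b0 ∈ B, ((blVals B Y p b0).card : ℝ) ≤ q) :
    (Im B (insert p Y) : ℝ) ≤ Im B Y * q := by
  classical
  unfold Im
  -- the map which restricts to `Y`
  let ρ : (α → α) → (α → α) := fun f x => if x ∈ Y then f x else x
  have hρ : ∀ b : Perm α, ρ (res (insert p Y) b) = res Y b := by
    intro b
    funext x
    by_cases hx : x ∈ Y
    · simp [ρ, res, hx]
    · simp [ρ, res, hx]
  have hmaps : ∀ f ∈ B.image (res (insert p Y)), ρ f ∈ B.image (res Y) := by
    intro f hf
    obtain ⟨b, hb, rfl⟩ := Finset.mem_image.1 hf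
    rw [hρ]
    exact Finset.mem_image_of_mem _ hb
  have h1 := Finset.card_eq_sum_card_fiberwise hmaps
  rw [h1]
  push_cast
  have h2 : ∀ g ∈ B.image (res Y),
      ((((B.image (res (insert p Y))).filter (fun f => ρ f = g)).card : ℕ) : ℝ) ≤ q := by
    intro g hg
    obtain ⟨b0, hb0, rfl⟩ := Finset.mem_image.1 hg
    refine le_trans ?_ (h b0 hb0)
    have h3 : ((B.image (res (insert p Y))).filter (fun f => ρ f = res Y b0)).card ≤
        (blVals B Y p b0).card := by
      refine Finset.card_le_card_of_injOn (fun f => f p) ?_ ?_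
      · intro f hf
        obtain ⟨hf1, hf2⟩ := Finset.mem_filter.1 (Finset.mem_coe.1 hf)
        obtain ⟨b, hb, rfl⟩ := Finset.mem_image.1 hf1
        rw [hρ] at hf2
        refine Finset.mem_coe.2 (Finset.mem_image.2 ⟨b, ?_, ?_⟩)
        · exact Finset.mem_filter.2 ⟨hb, res_eq_iff.1 hf2⟩
        · simp [res]
      · intro f hf g hg hfg
        obtain ⟨hf1, hf2⟩ := Finset.mem_filter.1 (Finset.mem_coe.1 hf)
        obtain ⟨hg1, hg2⟩ := Finset.mem_filter.1 (Finset.mem_coe.1 hg)
        obtain ⟨b, hb, rfl⟩ := Finset.mem_image.1 hf1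
        obtain ⟨c, hc, rfl⟩ := Finset.mem_image.1 hg1
        rw [hρ] at hf2 hg2
        refine res_eq_iff.2 ?_
        intro x hx
        rcases Finset.mem_insert.1 hx with rfl | hx
        · simpa [res] using hfg
        · rw [res_eq_iff.1 hf2 x hx, res_eq_iff.1 hg2 x hx]
    exact_mod_cast h3
  calc ∑ g ∈ B.image (res Y), ((((B.image (res (insert p Y))).filter (fun f => ρ f = g)).card : ℕ) : ℝ)
      ≤ ∑ _g ∈ B.image (res Y), q := Finset.sum_le_sum h2
    _ = ((B.image (res Y)).card : ℝ) * q := by rw [Finset.sum_const, nsmul_eq_mul]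

open Classical in
/-- The bad points of `U` for the enumeration `o`. -/
private noncomputable def blBad (B : Finset (Perm α)) (q : ℝ) (o : α → ℤ) (U : Finset α) :
    Finset α :=
  U.filter (fun p => ¬ blGood B q (U.filter (fun x => o x < o p)) p)

/-- The count for an enumeration. -/
private theorem bl_count (B : Finset (Perm α)) (q : ℝ) (hq : 0 ≤ q) (o : α → ℤ)
    (ho : Function.Injective o) (U : Finset α) :
    (Im B U : ℝ) * (Fintype.card α : ℝ) ^ (blBad B q o U).card ≤
      (Fintype.card α : ℝ) ^ U.card * q ^ (blBad B q o U).card := by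
  classical
  refine Finset.induction_on_max_value o U ?_ ?_
  · show (Im B ∅ : ℝ) * (Fintype.card α : ℝ) ^ (blBad B q o ∅).card ≤
      (Fintype.card α : ℝ) ^ (∅ : Finset α).card * q ^ (blBad B q o ∅).card
    have h1 : blBad B q o ∅ = ∅ := by simp [blBad]
    rw [h1]
    have h2 : Im B ∅ ≤ 1 := by
      unfold Im
      refine Finset.card_le_one.2 ?_
      intro f hf g hg
      obtain ⟨b, hb, rfl⟩ := Finset.mem_image.1 hf
      obtain ⟨c, hc, rfl⟩ := Finset.mem_image.1 hg
      exact res_eq_iff.2 (by simp)
    have h3 : (Im B ∅ : ℝ) ≤ 1 := by exact_mod_cast h2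
    simpa using h3
  · intro a s ha hmax ih
    have hlt : ∀ x ∈ s, o x < o a := fun x hx =>
      lt_of_le_of_ne (hmax x hx) (fun h => ha (by rw [← ho h]; exact hx))
    have hpre : (insert a s).filter (fun x => o x < o a) = s := by
      ext x
      simp only [Finset.mem_filter, Finset.mem_insert]
      constructor
      · rintro ⟨rfl | h, h'⟩
        · exact absurd h' (lt_irrefl _)
        · exact h
      · intro h
        exact ⟨Or.inr h, hlt x h⟩
    have hpre' : ∀ y ∈ s, (insert a s).filter (fun x => o x < o y) =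
        s.filter (fun x => o x < o y) := by
      intro y hy
      ext x
      simp only [Finset.mem_filter, Finset.mem_insert]
      constructor
      · rintro ⟨rfl | h, h'⟩
        · exact absurd h' (not_lt.2 (hlt y hy).le)
        · exact ⟨h, h'⟩
      · rintro ⟨h, h'⟩
        exact ⟨Or.inr h, h'⟩
    have hcard : (insert a s).card = s.card + 1 := Finset.card_insert_of_notMem ha
    have hn : (0 : ℝ) ≤ (Fintype.card α : ℝ) := Nat.cast_nonneg _
    by_cases hg : blGood B q s a
    · -- `a` is good
      have hbad : blBad B q o (insert a s) = blBad B q o s := by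
        ext x
        simp only [blBad, Finset.mem_filter, Finset.mem_insert]
        constructor
        · rintro ⟨rfl | h, h'⟩
          · rw [hpre] at h'
            exact absurd hg h'
          · rw [hpre' x h] at h'
            exact ⟨h, h'⟩
        · rintro ⟨h, h'⟩
          refine ⟨Or.inr h, ?_⟩
          rw [hpre' x h]
          exact h'
      rw [hbad, hcard]
      have h1 : (Im B (insert a s) : ℝ) ≤ Im B s * (Fintype.card α : ℝ) := by
        refine bl_step B s a _ ?_
        intro b0 _
        exact_mod_cast Finset.card_le_univ _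
      calc (Im B (insert a s) : ℝ) * (Fintype.card α : ℝ) ^ (blBad B q o s).card
          ≤ (Im B s * (Fintype.card α : ℝ)) * (Fintype.card α : ℝ) ^ (blBad B q o s).card :=
            mul_le_mul_of_nonneg_right h1 (pow_nonneg hn _)
        _ = (Im B s * (Fintype.card α : ℝ) ^ (blBad B q o s).card) * (Fintype.card α : ℝ) := by
            ring
        _ ≤ ((Fintype.card α : ℝ) ^ s.card * q ^ (blBad B q o s).card) *
            (Fintype.card α : ℝ) := mul_le_mul_of_nonneg_right ih hn
        _ = _ := by ring
    · have hbad : blBad B q o (insert a s) = insert a (blBad B q o s) := by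
        ext x
        simp only [blBad, Finset.mem_filter, Finset.mem_insert]
        constructor
        · rintro ⟨rfl | h, h'⟩
          · exact Or.inl rfl
          · rw [hpre' x h] at h'
            exact Or.inr ⟨h, h'⟩
        · rintro (rfl | ⟨h, h'⟩)
          · refine ⟨Or.inl rfl, ?_⟩
            rw [hpre]
            exact hg
          · refine ⟨Or.inr h, ?_⟩
            rw [hpre' x h]
            exact h'
      have hna : a ∉ blBad B q o s := fun h => ha (Finset.mem_filter.1 h).1
      rw [hbad, hcard, Finset.card_insert_of_notMem hna]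
      have h1 : (Im B (insert a s) : ℝ) ≤ Im B s * q := by
        refine bl_step B s a _ ?_
        intro b0 hb0
        by_contra hc
        exact hg ⟨b0, hb0, (not_le.1 hc).le⟩
      calc (Im B (insert a s) : ℝ) * (Fintype.card α : ℝ) ^ ((blBad B q o s).card + 1)
          ≤ (Im B s * q) * (Fintype.card α : ℝ) ^ ((blBad B q o s).card + 1) :=
            mul_le_mul_of_nonneg_right h1 (pow_nonneg hn _)
        _ = (Im B s * (Fintype.card α : ℝ) ^ (blBad B q o s).card) *
            (q * (Fintype.card α : ℝ)) := by ring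
        _ ≤ ((Fintype.card α : ℝ) ^ s.card * q ^ (blBad B q o s).card) *
            (q * (Fintype.card α : ℝ)) := mul_le_mul_of_nonneg_right ih (mul_nonneg hq hn)
        _ = _ := by ring

private theorem bl_im (B : Finset (Perm α)) (U : Finset α)
    (hB : ∀ b ∈ B, ∀ x, x ∉ U → b x = x) : Im B U = B.card := by
  unfold Im
  refine Finset.card_image_of_injOn ?_
  intro b hb c hc hbc
  ext x
  by_cases hx : x ∈ U
  · exact res_eq_iff.1 hbc x hx
  · rw [hB b hb x hx, hB c hc x hx]

private theorem bl_real (b N q : ℝ) (hb : 0 ≤ b) (hN : 0 < N) (hq : 0 < q) (hqn : q ≤ N)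
    (u f f' k : ℕ) (h1 : b * N ^ f ≤ N ^ u * q ^ f) (h2 : b * N ^ f' ≤ N ^ u * q ^ f')
    (hk : k ≤ f + f') (hk2 : k ≤ 2 * u) : b ^ 2 ≤ N ^ (2 * u - k) * q ^ k := by
  obtain ⟨d, hd⟩ := Nat.exists_eq_add_of_le hk
  obtain ⟨e, he⟩ := Nat.exists_eq_add_of_le hk2
  have he' : 2 * u - k = e := by omega
  rw [he']
  have h3 : b ^ 2 * N ^ (f + f') ≤ N ^ (2 * u) * q ^ (f + f') := by
    calc b ^ 2 * N ^ (f + f') = (b * N ^ f) * (b * N ^ f') := by
          rw [pow_add]; ring
      _ ≤ (N ^ u * q ^ f) * (N ^ u * q ^ f') := by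
          refine mul_le_mul h1 h2 ?_ ?_
          · positivity
          · positivity
      _ = N ^ (2 * u) * q ^ (f + f') := by
          rw [pow_add, two_mul, pow_add]; ring
  rw [hd, he] at h3
  have h4 : q ^ d ≤ N ^ d := pow_le_pow_left₀ hq.le hqn d
  have h5 : b ^ 2 * (N ^ k * N ^ d) ≤ (N ^ e * q ^ k) * (N ^ k * N ^ d) := by
    calc b ^ 2 * (N ^ k * N ^ d) = b ^ 2 * N ^ (k + d) := by
          rw [pow_add]
      _ ≤ N ^ (k + e) * q ^ (k + d) := h3
      _ = (N ^ e * q ^ k * N ^ k) * q ^ d := by rw [pow_add, pow_add]; ring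
      _ ≤ (N ^ e * q ^ k * N ^ k) * N ^ d := mul_le_mul_of_nonneg_left h4 (by positivity)
      _ = _ := by ring
  exact le_of_mul_le_mul_right h5 (by positivity)

/-- BL. Basic lemma: if `B` is supported in `U` and the commutators of the elements of `B⁻¹ B` are
in `W`, then all but few points of `U` lie in classes of `tc W` with at least `q` elements. -/
theorem basic_lemma (U : Finset α) (B : Finset (Perm α)) (hB : ∀ b ∈ B, ∀ x, x ∉ U → b x = x)
    (W : Finset (Perm α))
    (hW : ∀ a ∈ B, ∀ b ∈ B, ∀ c ∈ B, ∀ d ∈ B,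
      (a⁻¹ * b) * (c⁻¹ * d) * (a⁻¹ * b)⁻¹ * (c⁻¹ * d)⁻¹ ∈ W)
    (q : ℝ) (hq1 : 1 < q) (hqn : q ≤ Fintype.card α) :
    ∃ Bad : Finset α, Bad ⊆ U ∧
      (B.card : ℝ) ^ 2 ≤ (Fintype.card α : ℝ) ^ (2 * U.card - Bad.card) * q ^ Bad.card ∧
      ∀ p ∈ U, p ∉ Bad → q ≤ ((cls (tc W) p).card : ℝ) := by
  classical
  have hq0 : 0 < q := lt_trans one_pos hq1
  have hn0 : (0 : ℝ) < Fintype.card α := lt_of_lt_of_le hq0 hqn
  -- the enumeration
  let o : α → ℤ := fun x => ((Fintype.equivFin α x : ℕ) : ℤ)
  have ho : Function.Injective o := by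
    intro x y hxy
    have h1 : (((Fintype.equivFin α x : ℕ)) : ℤ) = ((Fintype.equivFin α y : ℕ) : ℤ) := hxy
    have h2 : ((Fintype.equivFin α x : ℕ)) = (Fintype.equivFin α y : ℕ) := Nat.cast_injective h1
    exact (Fintype.equivFin α).injective (Fin.ext h2)
  have ho' : Function.Injective (fun x => - o x) := fun x y hxy => ho (neg_injective hxy)
  have hc1 := bl_count B q hq0.le o ho U
  have hc2 := bl_count B q hq0.le (fun x => - o x) ho' U
  rw [bl_im B U hB] at hc1 hc2
  set F := blBad B q o U with hF
  set F' := blBad B q (fun x => - o x) U with hF'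
  have hFU : F ⊆ U := Finset.filter_subset _ _
  have hFU' : F' ⊆ U := Finset.filter_subset _ _
  refine ⟨F ∪ F', Finset.union_subset hFU hFU', ?_, ?_⟩
  · -- the count
    have hle : (F ∪ F').card ≤ F.card + F'.card := Finset.card_union_le _ _
    have hle2 : (F ∪ F').card ≤ 2 * U.card := by
      have := Finset.card_le_card (Finset.union_subset hFU hFU')
      omega
    exact bl_real _ _ _ (Nat.cast_nonneg _) hn0 hq0 hqn _ _ _ _ hc1 hc2 hle hle2
  · intro p hpU hpB
    have hpF : p ∉ F := fun h => hpB (Finset.mem_union_left _ h)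
    have hpF' : p ∉ F' := fun h => hpB (Finset.mem_union_right _ h)
    have hg1 : blGood B q (U.filter (fun x => o x < o p)) p := by
      by_contra hc
      exact hpF (Finset.mem_filter.2 ⟨hpU, hc⟩)
    have hg2 : blGood B q (U.filter (fun x => - o x < - o p)) p := by
      by_contra hc
      exact hpF' (Finset.mem_filter.2 ⟨hpU, hc⟩)
    obtain ⟨b0, hb0, hbq⟩ := hg1
    obtain ⟨c0, hc0, hcq⟩ := hg2
    -- an element `c` with `c p ≠ c0 p`
    obtain ⟨c, hcB, hcY, hcp⟩ : ∃ c ∈ B, (∀ y ∈ U.filter (fun x => - o x < - o p), c y = c0 y) ∧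
        c p ≠ c0 p := by
      have h1 : 1 < (blVals B (U.filter (fun x => - o x < - o p)) p c0).card := by
        have : (1 : ℝ) < ((blVals B (U.filter (fun x => - o x < - o p)) p c0).card : ℝ) :=
          lt_of_lt_of_le hq1 hcq
        exact_mod_cast this
      obtain ⟨v, hv, hvne⟩ := Finset.exists_mem_ne h1 (c0 p)
      obtain ⟨c, hc, rfl⟩ := Finset.mem_image.1 hv
      obtain ⟨hc1, hc2⟩ := Finset.mem_filter.1 hc
      exact ⟨c, hc1, hc2, hvne⟩
    have hsub : (blVals B (U.filter (fun x => o x < o p)) p b0).image (fun v => b0⁻¹ v) ⊆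
        cls (tc W) p := by
      intro y hy
      obtain ⟨v, hv, rfl⟩ := Finset.mem_image.1 hy
      obtain ⟨b, hb, rfl⟩ := Finset.mem_image.1 hv
      obtain ⟨hbB, hbY⟩ := Finset.mem_filter.1 hb
      rw [mem_cls]
      by_cases hgp : b0⁻¹ (b p) = p
      · rw [hgp]
      · set g : Perm α := b0⁻¹ * b with hg
        set h : Perm α := c0⁻¹ * c with hh
        have hgp' : g p ≠ p := hgp
        have hhp : h p ≠ p := by
          intro h'
          rw [hh, Perm.mul_apply, Perm.inv_eq_iff_eq] at h'
          exact hcp h'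
        have hmeet : ∀ x, g x ≠ x → h x ≠ x → x = p := by
          intro x hgx hhx
          have hxU : x ∈ U := by
            by_contra hxU
            apply hgx
            rw [hg, Perm.mul_apply, hB b hbB x hxU, Perm.inv_eq_iff_eq]
            exact (hB b0 hb0 x hxU).symm
          have h1 : ¬ o x < o p := by
            intro hlt
            apply hgx
            rw [hg, Perm.mul_apply, hbY x (Finset.mem_filter.2 ⟨hxU, hlt⟩)]
            simp
          have h2 : ¬ - o x < - o p := by
            intro hlt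
            apply hhx
            rw [hh, Perm.mul_apply, hcY x (Finset.mem_filter.2 ⟨hxU, hlt⟩)]
            simp
          apply ho
          omega
        obtain ⟨h1, h2⟩ := comm3 hmeet hgp' hhp
        have hmem : cyc3 p (g p) (h p) ∈ W := by
          rw [← h1]
          exact hW b0 hb0 b hbB c0 hc0 c hcB
        exact Relation.EqvGen.rel _ _ ⟨h p, hgp'.symm, h2, hhp, hmem⟩
    have hcard : ((blVals B (U.filter (fun x => o x < o p)) p b0).image
        (fun v => b0⁻¹ v)).card = (blVals B (U.filter (fun x => o x < o p)) p b0).card :=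
      Finset.card_image_of_injective _ (b0⁻¹).injective
    refine hbq.trans ?_
    rw [← hcard]
    exact_mod_cast Finset.card_le_card hsub

end MP731536
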