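import Pool.Agent.Lib.MP_731536_al.AltIdx

/-!
# PIDX (MP_731536_al): small index subgroups of the product of alternating groups
-/

set_option linter.unusedSectionVars false

open Equiv Finset

namespace MP731536

variable {α : Type*} [Fintype α] [DecidableEq α]

/-- PIDX (uses ALTIDX). -/
theorem PP_index (E : Setoid α) (q : ℝ) (hq : 5 ≤ q) (Q : Subgroup (Perm α)) (hQ : Q ≤ PP E q)
    (hidx : (Nat.card (PP E q) : ℝ) < q * (Nat.card Q : ℝ)) : Q = PP E q := by
  classical
  refine le_antisymm hQ ?_
  unfold PP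
  rw [Subgroup.closure_le]
  rintro g ⟨a, b, c, hab, hbc, hca, hEab, hEbc, hqC, rfl⟩
  -- the class of `a`
  set C : Finset α := cls E a with hC
  have haC : a ∈ C := mem_cls.2 (E.refl' a)
  have hbC : b ∈ C := mem_cls.2 hEab
  have hcC : c ∈ C := mem_cls.2 (E.trans' hEab hEbc)
  let ι : alternatingGroup {x // x ∈ C} →* Perm α :=
    (Perm.ofSubtype (p := fun x => x ∈ C)).comp (alternatingGroup {x // x ∈ C}).subtype
  have hι : ∀ s : alternatingGroup {x // x ∈ C}, ι s =
      Perm.ofSubtype (p := fun x => x ∈ C) (s : Perm {x // x ∈ C}) := fun s => rfl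
  have hcyc : ∀ x y z : {x // x ∈ C}, Perm.ofSubtype (p := fun x => x ∈ C) (cyc3 x y z) =
      cyc3 (x : α) (y : α) (z : α) := by
    intro x y z
    unfold cyc3
    rw [map_mul, Perm.ofSubtype_swap_eq, Perm.ofSubtype_swap_eq]
  -- the image of the alternating group of the class lies in `PP E q`
  have hmem : ∀ s ∈ alternatingGroup {x // x ∈ C},
      Perm.ofSubtype (p := fun x => x ∈ C) s ∈ PP E q := by
    intro s hs
    rw [← Perm.closure_three_cycles_eq_alternating] at hs
    refine Subgroup.closure_induction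
      (p := fun s _ => Perm.ofSubtype (p := fun x => x ∈ C) s ∈ PP E q) ?_ ?_ ?_ ?_ hs
    · intro g hg
      have hg3 : g.IsThreeCycle := hg
      obtain ⟨x, hx⟩ : ∃ x, x ∈ g.support := by
        by_contra hne
        push Not at hne
        have h0 : g.support = ∅ := Finset.eq_empty_of_forall_notMem hne
        have := hg3.card_support
        rw [h0] at this
        simp at this
      have h1 : g = cyc3 x (g x) (g (g x)) := hg3.eq_swap_mul_swap_iff_mem_support.2 hx
      have h2 := hg3.nodup_iff_mem_support.2 hx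
      simp only [List.nodup_cons, List.mem_cons, List.not_mem_nil, or_false, not_or,
        List.nodup_nil, not_false_eq_true, and_true] at h2
      obtain ⟨⟨h3, h4⟩, h5⟩ := h2
      rw [h1, hcyc]
      refine Subgroup.subset_closure ⟨x, g x, g (g x), ?_, ?_, ?_, ?_, ?_, ?_, rfl⟩
      · exact fun h => h3 (Subtype.ext h)
      · exact fun h => h5 (Subtype.ext h)
      · exact fun h => h4 (Subtype.ext h.symm)
      · exact E.trans' (E.symm' (mem_cls.1 x.2)) (mem_cls.1 (g x).2)
      · exact E.trans' (E.symm' (mem_cls.1 (g x).2)) (mem_cls.1 (g (g x)).2)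
      · rw [cls_eq (mem_cls.1 x.2)]
        exact hqC
    · rw [map_one]
      exact Subgroup.one_mem _
    · intro x y _ _ hx hy
      rw [map_mul]
      exact Subgroup.mul_mem _ hx hy
    · intro x _ hx
      rw [map_inv]
      exact Subgroup.inv_mem _ hx
  have hrange : ι.range ≤ PP E q := by
    rintro _ ⟨s, rfl⟩
    exact hmem s s.2
  -- the index
  have hcardQ : 0 < Nat.card Q := Nat.card_pos
  have hrel : Q.relIndex (PP E q) * Nat.card Q = Nat.card (PP E q) := by
    have h1 := Subgroup.card_mul_index (Q.subgroupOf (PP E q))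
    have h2 : Nat.card (Q.subgroupOf (PP E q)) = Nat.card Q :=
      Nat.card_congr (Subgroup.subgroupOfEquivOfLe hQ).toEquiv
    rw [h2] at h1
    rw [mul_comm]
    exact h1
  have hrel' : (Q.relIndex (PP E q) : ℝ) < q := by
    have h1 : (Q.relIndex (PP E q) : ℝ) * (Nat.card Q : ℝ) < q * (Nat.card Q : ℝ) := by
      rw [← Nat.cast_mul, hrel]
      exact hidx
    exact lt_of_mul_lt_mul_right h1 (Nat.cast_nonneg _)
  have hle : (Q.comap ι).index ≤ Q.relIndex (PP E q) := by
    rw [Subgroup.index_comap]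
    apply Subgroup.relIndex_le_of_le_right hrange
    intro h0
    rw [h0, zero_mul] at hrel
    exact (Nat.card_pos (α := PP E q)).ne hrel
  have hcardC : Fintype.card {x // x ∈ C} = C.card := Fintype.card_coe C
  have htop : Q.comap ι = ⊤ := by
    apply alt_index
    · rw [hcardC]
      have : (5 : ℝ) ≤ (C.card : ℝ) := hq.trans hqC
      exact_mod_cast this
    · rw [hcardC]
      have : ((Q.comap ι).index : ℝ) < (C.card : ℝ) :=
        lt_of_le_of_lt (Nat.cast_le.2 hle) (hrel'.trans_le hqC)
      exact_mod_cast this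
  -- conclusion
  let s : Perm {x // x ∈ C} := cyc3 ⟨a, haC⟩ ⟨b, hbC⟩ ⟨c, hcC⟩
  have hs : s ∈ alternatingGroup {x // x ∈ C} := by
    rw [Perm.mem_alternatingGroup]
    change Perm.sign (swap (⟨a, haC⟩ : {x // x ∈ C}) ⟨b, hbC⟩ *
      swap (⟨b, hbC⟩ : {x // x ∈ C}) ⟨c, hcC⟩) = 1
    rw [Perm.sign_mul, Perm.sign_swap (fun h => hab (congrArg Subtype.val h)),
      Perm.sign_swap (fun h => hbc (congrArg Subtype.val h))]
    decide
  have hin : (⟨s, hs⟩ : alternatingGroup {x // x ∈ C}) ∈ Q.comap ι := by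
    rw [htop]
    exact Subgroup.mem_top _
  have h9 : ι ⟨s, hs⟩ ∈ Q := hin
  rw [hι] at h9
  have h10 : Perm.ofSubtype (p := fun x => x ∈ C) s = cyc3 a b c := hcyc _ _ _
  have h11 : Perm.ofSubtype (p := fun x => x ∈ C) s ∈ Q := h9
  rw [h10] at h11
  exact h11

end MP731536
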