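import Pool.Agent.Lib.MP_731536_al.PPM

/-!
# PSIZE: a lower bound for the product of alternating groups (MP_731536_al)
-/

set_option linter.unusedSectionVars false

open Equiv Finset

namespace MP731536

variable {α β : Type*} [Fintype α] [DecidableEq α]

private theorem large_card' (E : Setoid α) (q : ℝ) (s : Finset (Quotient E))
    (hs : ∀ c ∈ s, q ≤ ((cls E c.out).card : ℝ)) :
    (s.card : ℝ) * q ≤ (Fintype.card α : ℝ) := by
  classical
  have hdis : (s : Set (Quotient E)).PairwiseDisjoint (fun c => cls E c.out) := by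
    intro c _ c' _ hcc
    rw [Function.onFun, Finset.disjoint_left]
    intro x hx hx'
    rw [mem_cls] at hx hx'
    apply hcc
    rw [← Quotient.out_eq c, ← Quotient.out_eq c']
    exact Quotient.sound (s := E) (E.trans' hx (E.symm' hx'))
  have h1 : (s.biUnion (fun c => cls E c.out)).card = ∑ c ∈ s, (cls E c.out).card :=
    Finset.card_biUnion hdis
  have h2 : (s.biUnion (fun c => cls E c.out)).card ≤ Fintype.card α := Finset.card_le_univ _
  calc (s.card : ℝ) * q = ∑ _c ∈ s, q := by rw [Finset.sum_const, nsmul_eq_mul]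
    _ ≤ ∑ c ∈ s, ((cls E c.out).card : ℝ) := Finset.sum_le_sum hs
    _ = ((s.biUnion (fun c => cls E c.out)).card : ℝ) := by rw [h1]; push_cast; rfl
    _ ≤ Fintype.card α := by exact_mod_cast h2

/-- PSIZE. -/
theorem psize (U : Finset α) (R : Finset (Perm α)) (hR : ∀ r ∈ R, ∀ x, x ∉ U → r x = x)
    (E E' : Setoid α) (hEE : ∀ x y, E x y → E' x y)
    (hmap : ∀ r ∈ R, ∀ x y, E x y → E' (r x) (r y)) (q : ℝ) (hq : 3 ≤ q) (Bad : Finset α)
    (hBad : ∀ x ∈ U, x ∉ Bad → q ≤ ((cls E x).card : ℝ)) (hn : 2 ≤ Fintype.card α) :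
    (R.card : ℝ) ≤
      (Fintype.card α : ℝ) ^ (2 * (Fintype.card α : ℝ) / q + 2 * (Bad.card : ℝ)) *
        (Nat.card (PP E' q) : ℝ) := by
  classical
  set s : Finset (Quotient E) := univ.filter (fun c => q ≤ ((cls E c.out).card : ℝ)) with hs
  have hlarge : (s.card : ℝ) * q ≤ (Fintype.card α : ℝ) :=
    large_card' E q s (fun c hc => (Finset.mem_filter.1 hc).2)
  set f : Perm α → ({c // c ∈ s} → α) × (({b // b ∈ Bad} → α) × ({b // b ∈ Bad} → α)) :=
    fun r => (fun c => r c.1.out, fun b => r b.1, fun b => r⁻¹ b.1) with hf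
  set B : ℝ := (2 : ℝ) ^ ((Fintype.card α : ℝ) / q) * (Nat.card (PP E' q) : ℝ) with hB
  have hfib : ∀ a ∈ R.image f, ((R.filter (fun r => f r = a)).card : ℝ) ≤ B := by
    intro a ha
    obtain ⟨r0, hr0, rfl⟩ := Finset.mem_image.1 ha
    have hinj : Function.Injective (fun r : Perm α => r * r0⁻¹) := fun r r' h =>
      mul_right_cancel h
    rw [← Finset.card_image_of_injective (R.filter (fun r => f r = f r0)) hinj]
    refine PP_card E' q hq _ ?_
    intro ρ hρ y
    obtain ⟨r, hr, rfl⟩ := Finset.mem_image.1 hρ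
    obtain ⟨hrR, hrf⟩ := Finset.mem_filter.1 hr
    have e1 : ∀ c : {c // c ∈ s}, r c.1.out = r0 c.1.out := fun c =>
      congrFun (congrArg Prod.fst hrf) c
    have e2 : ∀ b : {b // b ∈ Bad}, r b.1 = r0 b.1 := fun b =>
      congrFun (congrArg (fun z => z.2.1) hrf) b
    have e3 : ∀ b : {b // b ∈ Bad}, r⁻¹ b.1 = r0⁻¹ b.1 := fun b =>
      congrFun (congrArg (fun z => z.2.2) hrf) b
    have hy0 : r0 (r0⁻¹ y) = y := by simp
    constructor
    · show E' y ((r * r0⁻¹) y)
      rw [Perm.mul_apply]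
      set x : α := r0⁻¹ y with hx
      rw [← hy0]
      by_cases hxU : x ∈ U
      · by_cases hxB : x ∈ Bad
        · rw [e2 ⟨x, hxB⟩]
        · have hbig := hBad x hxU hxB
          have hrep : E (Quotient.mk E x).out x := Quotient.mk_out (s := E) x
          have hc : Quotient.mk E x ∈ s := by
            refine Finset.mem_filter.2 ⟨Finset.mem_univ _, ?_⟩
            rw [← cls_eq hrep]
            exact hbig
          have h1 := hmap r hrR _ _ hrep
          have h2 := hmap r0 hr0 _ _ hrep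
          have h3 := e1 ⟨Quotient.mk E x, hc⟩
          simp only at h3
          rw [h3] at h1
          exact E'.trans' (E'.symm' h2) h1
      · rw [hR r hrR x hxU, hR r0 hr0 x hxU]
    · intro hsmall
      show (r * r0⁻¹) y = y
      rw [Perm.mul_apply]
      by_cases hyB : y ∈ Bad
      · rw [← e3 ⟨y, hyB⟩]
        simp
      · have hyU : y ∉ U := by
          intro hyU
          have h1 := hBad y hyU hyB
          have h2 : (cls E y).card ≤ (cls E' y).card := by
            refine Finset.card_le_card fun z hz => ?_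
            rw [mem_cls] at hz ⊢
            exact hEE _ _ hz
          have h3 : ((cls E y).card : ℝ) ≤ (cls E' y).card := by exact_mod_cast h2
          linarith
        have h1 : r0⁻¹ y = y := by
          rw [Perm.inv_eq_iff_eq]; exact (hR r0 hr0 y hyU).symm
        rw [h1, hR r hrR y hyU]
  have hsum : (R.card : ℝ) ≤ ((R.image f).card : ℝ) * B := by
    have h1 := Finset.card_eq_sum_card_image f R
    calc (R.card : ℝ) = ∑ a ∈ R.image f, ((R.filter (fun r => f r = a)).card : ℝ) := by
          rw [h1]; push_cast; rfl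
      _ ≤ ∑ _a ∈ R.image f, B := Finset.sum_le_sum hfib
      _ = ((R.image f).card : ℝ) * B := by rw [Finset.sum_const, nsmul_eq_mul]
  set n : ℕ := Fintype.card α with hnn
  have himg : (R.image f).card ≤ n ^ s.card * (n ^ Bad.card * n ^ Bad.card) := by
    refine (Finset.card_le_univ _).trans (le_of_eq ?_)
    rw [Fintype.card_prod, Fintype.card_prod, Fintype.card_fun, Fintype.card_fun,
      Fintype.card_coe, Fintype.card_coe]
  have hq0 : (0 : ℝ) < q := by linarith
  have hn1 : (1 : ℝ) ≤ (n : ℝ) := by exact_mod_cast (by omega : 1 ≤ n)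
  have hn0 : (0 : ℝ) < (n : ℝ) := by linarith
  have hn2 : (2 : ℝ) ≤ (n : ℝ) := by exact_mod_cast hn
  have himg' : ((R.image f).card : ℝ) ≤ (n : ℝ) ^ ((n : ℝ) / q + 2 * (Bad.card : ℝ)) := by
    have h1 : ((R.image f).card : ℝ) ≤ (n : ℝ) ^ (s.card + 2 * Bad.card) := by
      have h2 : n ^ s.card * (n ^ Bad.card * n ^ Bad.card) = n ^ (s.card + 2 * Bad.card) := by
        rw [← pow_add, ← pow_add]; congr 1; omega
      rw [h2] at himg
      exact_mod_cast himg
    refine h1.trans ?_
    rw [← Real.rpow_natCast]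
    refine Real.rpow_le_rpow_of_exponent_le hn1 ?_
    push_cast
    have : (s.card : ℝ) ≤ (n : ℝ) / q := by
      rw [le_div_iff₀ hq0]; exact hlarge
    linarith
  have h2n : (2 : ℝ) ^ ((n : ℝ) / q) ≤ (n : ℝ) ^ ((n : ℝ) / q) :=
    Real.rpow_le_rpow (by norm_num) hn2 (by positivity)
  have hBle : B ≤ (n : ℝ) ^ ((n : ℝ) / q) * (Nat.card (PP E' q) : ℝ) :=
    mul_le_mul_of_nonneg_right h2n (Nat.cast_nonneg _)
  have hB0 : 0 ≤ B := by positivity
  calc (R.card : ℝ) ≤ ((R.image f).card : ℝ) * B := hsum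
    _ ≤ (n : ℝ) ^ ((n : ℝ) / q + 2 * (Bad.card : ℝ)) *
          ((n : ℝ) ^ ((n : ℝ) / q) * (Nat.card (PP E' q) : ℝ)) := by
        refine mul_le_mul himg' hBle hB0 (by positivity)
    _ = _ := by
        rw [← mul_assoc, ← Real.rpow_add hn0]
        congr 2
        ring

end MP731536
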