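import Pool.Agent.Lib.MP_731536_al.RlSize
import Pool.Agent.Lib.MP_731536_al.BL
import Pool.Agent.Lib.MP_731536_al.PSize
import Pool.Agent.Lib.MP_731536_al.Alt
import Pool.Agent.Lib.MP_731536_al.PPM
import Pool.Agent.Lib.MP_731536_al.PIdx

/-!
# Module STEP2 (MP_731536_al)
-/

set_option linter.unusedSectionVars false

open Equiv Finset

namespace MP731536

section step2aux

variable {α : Type*} [Fintype α] [DecidableEq α]

private theorem s2_tc_mono {W W' : Finset (Perm α)} (h : W ⊆ W') {x y : α} (hxy : tc W x y) :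
    tc W' x y := by
  change Relation.EqvGen _ x y at hxy
  change Relation.EqvGen _ x y
  refine Relation.EqvGen.mono ?_ _ _ hxy
  rintro p x ⟨z, h1, h2, h3, h4⟩
  exact ⟨z, h1, h2, h3, h h4⟩

private theorem s2_tc_map {W W' : Finset (Perm α)} (r : Perm α)
    (h : ∀ g ∈ W, r * g * r⁻¹ ∈ W') {x y : α} (hxy : tc W x y) : tc W' (r x) (r y) := by
  change Relation.EqvGen _ x y at hxy
  induction hxy with
  | rel p x hp =>
    obtain ⟨z, h1, h2, h3, h4⟩ := hp
    refine Relation.EqvGen.rel _ _ ⟨r z, fun hh => h1 (r.injective hh),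
      fun hh => h2 (r.injective hh), fun hh => h3 (r.injective hh), ?_⟩
    rw [← conj_cyc3]
    exact h _ h4
  | refl x => exact (tc W').refl' _
  | symm x y _ ih => exact (tc W').symm' ih
  | trans x y z _ _ ih1 ih2 => exact (tc W').trans' ih1 ih2

private theorem s2_tc_supp {W : Finset (Perm α)} {X' : Finset α}
    (h : ∀ g ∈ W, ∀ x, x ∉ X' → g x = x) {x y : α} (hxy : tc W x y) :
    x = y ∨ (x ∈ X' ∧ y ∈ X') := by
  change Relation.EqvGen _ x y at hxy
  induction hxy with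
  | rel p x hp =>
    obtain ⟨z, h1, h2, h3, h4⟩ := hp
    right
    constructor
    · by_contra hc
      have h5 := h _ h4 p hc
      rw [cyc3_apply_left h1 h3] at h5
      exact h1 h5.symm
    · by_contra hc
      have h5 := h _ h4 x hc
      rw [cyc3_apply_mid h2 h3] at h5
      exact h2 h5.symm
  | refl x => exact Or.inl rfl
  | symm x y _ ih =>
    rcases ih with ih | ih
    · exact Or.inl ih.symm
    · exact Or.inr ⟨ih.2, ih.1⟩
  | trans x y z _ _ ih1 ih2 =>
    rcases ih1 with ih1 | ih1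
    · rw [ih1]; exact ih2
    · rcases ih2 with ih2 | ih2
      · rw [← ih2]; exact Or.inr ih1
      · exact Or.inr ⟨ih1.1, ih2.2⟩

private theorem s2_PP_supp {E : Setoid α} {q : ℝ} {X' : Finset α}
    (h : ∀ x y, E x y → x = y ∨ (x ∈ X' ∧ y ∈ X')) {π : Perm α} (hπ : π ∈ PP E q) :
    ∀ x, x ∉ X' → π x = x := by
  refine Subgroup.closure_induction (p := fun g _ => ∀ x, x ∉ X' → g x = x) ?_ ?_ ?_ ?_ hπ
  · rintro g ⟨a, b, c, hab, hbc, hca, h1, h2, _, rfl⟩ x hx
    have h3 : a ∈ X' ∧ b ∈ X' := (h a b h1).resolve_left hab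
    have h4 : b ∈ X' ∧ c ∈ X' := (h b c h2).resolve_left hbc
    exact cyc3_apply_of_ne (fun hh => hx (hh ▸ h3.1)) (fun hh => hx (hh ▸ h3.2))
      (fun hh => hx (hh ▸ h4.2))
  · intro x _
    rfl
  · intro a b _ _ ha hb x hx
    rw [Perm.mul_apply, hb x hx, ha x hx]
  · intro a _ ha x hx
    rw [Perm.inv_eq_iff_eq]
    exact (ha x hx).symm

end step2aux

theorem step2 {n L : ℕ} (F : Filt (Fin n) L) (hL : 2 * n ^ 3 + 8 ≤ L) (hn : 2 ≤ n) (i : ℕ)
    (X' X : Finset (Fin n)) (hX : X' ⊆ X) (θ c' : ℝ) (hθ : 0 < θ) (hc' : 0 < c') (hc'1 : c' < 1)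
    (hXX : ((X \ X').card : ℝ) ≤ θ * n)
    (hIm : (n : ℝ) ^ ((X'.card : ℝ) - θ * n) ≤ Im (F.T i) X')
    (h2 : 2 ≤ (n : ℝ) ^ θ) (h3 : 5 ≤ (n : ℝ) ^ (1 - c')) (h4 : 2 * (n : ℝ) ^ c' ≤ θ * n) :
    ∃ P : Subgroup (Perm (Fin n)), (∀ π ∈ P, ∀ x, x ∉ X' → π x = x) ∧
      (∀ π ∈ P, ∃ t ∈ F.T (i + 5), ∀ x ∈ X, t x = π x) ∧
      (∀ Q : Subgroup (Perm (Fin n)), Q ≤ P →
        (Nat.card P : ℝ) < (n : ℝ) ^ (1 - c') * (Nat.card Q : ℝ) → Q = P) ∧
      (n : ℝ) ^ ((X'.card : ℝ) - 16 / c' * θ * n) ≤ (Nat.card P : ℝ) := by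
  classical
  set e : Fin n → Unit := fun _ => () with he
  set R : Filt (Fin n) L := rlFilt F X' X hX e with hR
  have hRT : ∀ j, R.T j = rl (F.T j) X' X e := fun j => rfl
  have hL1 : 1 ≤ L := by omega
  have hL3 : 3 ≤ L := by omega
  have hn1 : (1 : ℝ) < n := by exact_mod_cast (by omega : 1 < n)
  have hn0 : (0 : ℝ) < n := by linarith
  set q : ℝ := (n : ℝ) ^ (1 - c') with hq
  have hsup : ∀ j, ∀ g ∈ R.T j, ∀ x, x ∉ X' → g x = x := fun j g hg => by
    rw [hRT, mem_rl] at hg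
    exact hg.1
  -- the size of `R.T (i+1)`
  have hsize : (n : ℝ) ^ ((X'.card : ℝ) - 3 * θ * n) ≤ ((R.T (i + 1)).card : ℝ) := by
    have h5 := rl_size (F.T i) (F.T (i + 1))
      (fun a ha b hb => F.mul (by omega) (F.inv_mem i a ha) hb) X' X hX e
    rw [Fintype.card_fin, Fintype.card_unit, one_pow, mul_one, ← hRT] at h5
    have h6 : (Im (F.T i) X' : ℝ) ≤ 2 ^ n * (n : ℝ) ^ (X \ X').card * ((R.T (i + 1)).card : ℝ) := by
      exact_mod_cast h5
    have h7 : (2 : ℝ) ^ n ≤ (n : ℝ) ^ (θ * n) := by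
      rw [Real.rpow_mul hn0.le, Real.rpow_natCast]
      exact pow_le_pow_left₀ (by norm_num) h2 n
    have h8 : (n : ℝ) ^ (X \ X').card ≤ (n : ℝ) ^ (θ * n) := by
      rw [← Real.rpow_natCast]
      exact Real.rpow_le_rpow_of_exponent_le hn1.le hXX
    have h9 : (n : ℝ) ^ ((X'.card : ℝ) - θ * n) ≤
        (n : ℝ) ^ (θ * n) * (n : ℝ) ^ (θ * n) * ((R.T (i + 1)).card : ℝ) := by
      refine hIm.trans (h6.trans ?_)
      refine mul_le_mul_of_nonneg_right ?_ (Nat.cast_nonneg _)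
      exact mul_le_mul h7 h8 (by positivity) (by positivity)
    have h10 : (n : ℝ) ^ ((X'.card : ℝ) - θ * n) = (n : ℝ) ^ (θ * n) * (n : ℝ) ^ (θ * n) *
        (n : ℝ) ^ ((X'.card : ℝ) - 3 * θ * n) := by
      rw [← Real.rpow_add hn0, ← Real.rpow_add hn0]
      congr 1; ring
    rw [h10] at h9
    exact le_of_mul_le_mul_left h9 (by positivity)
  -- the basic lemma
  have hq1 : 1 < q := by linarith
  have hqn : q ≤ Fintype.card (Fin n) := by
    rw [Fintype.card_fin, hq]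
    calc (n : ℝ) ^ (1 - c') ≤ (n : ℝ) ^ (1 : ℝ) :=
          Real.rpow_le_rpow_of_exponent_le hn1.le (by linarith)
      _ = n := Real.rpow_one _
  obtain ⟨Bad, hBadU, hBadsz, hBad⟩ := basic_lemma X' (R.T (i + 1)) (hsup (i + 1)) (R.T (i + 2))
    (by
      intro a ha b hb c hc d hd
      have h5 := R.step (i + 1) [a⁻¹, b, c⁻¹, d, b⁻¹, a, d⁻¹, c]
        (by simp only [List.length_cons, List.length_nil]; omega)
        (by
          intro g hg
          simp only [List.mem_cons, List.not_mem_nil, or_false] at hg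
          rcases hg with rfl | rfl | rfl | rfl | rfl | rfl | rfl | rfl
          · exact R.inv_mem _ _ ha
          · exact hb
          · exact R.inv_mem _ _ hc
          · exact hd
          · exact R.inv_mem _ _ hb
          · exact ha
          · exact R.inv_mem _ _ hd
          · exact hc)
      have h6 : [a⁻¹, b, c⁻¹, d, b⁻¹, a, d⁻¹, c].prod =
          (a⁻¹ * b) * (c⁻¹ * d) * (a⁻¹ * b)⁻¹ * (c⁻¹ * d)⁻¹ := by
        simp only [List.prod_cons, List.prod_nil]
        group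
      rw [h6] at h5
      exact h5) q hq1 hqn
  have hBadc : c' * (Bad.card : ℝ) ≤ 6 * θ * n := by
    rw [Fintype.card_fin] at hBadsz
    have hBle : Bad.card ≤ 2 * X'.card := (card_le_card hBadU).trans (by omega)
    have h5 : (n : ℝ) ^ (2 * ((X'.card : ℝ) - 3 * θ * n)) ≤
        (n : ℝ) ^ (2 * (X'.card : ℝ) - c' * (Bad.card : ℝ)) := by
      calc (n : ℝ) ^ (2 * ((X'.card : ℝ) - 3 * θ * n)) =
            ((n : ℝ) ^ ((X'.card : ℝ) - 3 * θ * n)) ^ 2 := by
            rw [← Real.rpow_natCast, ← Real.rpow_mul hn0.le]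
            congr 1; push_cast; ring
        _ ≤ ((R.T (i + 1)).card : ℝ) ^ 2 := pow_le_pow_left₀ (by positivity) hsize 2
        _ ≤ (n : ℝ) ^ (2 * X'.card - Bad.card) * q ^ Bad.card := hBadsz
        _ = (n : ℝ) ^ (2 * (X'.card : ℝ) - c' * (Bad.card : ℝ)) := by
            rw [hq, ← Real.rpow_natCast, ← Real.rpow_natCast, ← Real.rpow_mul hn0.le,
              ← Real.rpow_add hn0, Nat.cast_sub hBle]
            congr 1; push_cast; ring
    have h6 := (Real.rpow_le_rpow_left_iff hn1).1 h5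
    linarith
  -- the group
  set E : Setoid (Fin n) := tc (R.T (i + 2)) with hE
  set E' : Setoid (Fin n) := tc (R.T (i + 3)) with hE'
  have hps := psize X' (R.T (i + 1)) (hsup (i + 1)) E E'
    (fun x y hxy => s2_tc_mono (R.succ hL1 (i + 2)) hxy)
    (fun r hr x y hxy => s2_tc_map r (fun g hg => R.conj hL3 (R.succ hL1 (i + 1) hr) hg) hxy)
    q (by linarith) Bad hBad (by rw [Fintype.card_fin]; exact hn)
  rw [Fintype.card_fin] at hps
  have hE's : ∀ x y, E' x y → x = y ∨ (x ∈ X' ∧ y ∈ X') := fun x y hxy =>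
    s2_tc_supp (hsup (i + 3)) hxy
  refine ⟨PP E' q, fun π hπ => s2_PP_supp hE's hπ, ?_, ?_, ?_⟩
  · intro π hπ
    obtain ⟨l, hl1, hl2, hl3⟩ := PP_words E' q (by linarith) hπ
    rw [Fintype.card_fin] at hl1
    have h5 : ∀ g ∈ l, g ∈ R.T (i + 4) := by
      intro g hg
      obtain ⟨a, b, c, hab, hbc, hca, h6, h7, h8, rfl⟩ := hl2 g hg
      obtain ⟨m, hm1, hm2, hm3⟩ := three_cycles (R.T (i + 3)) (fun g hg => R.inv_mem _ g hg) a
        (by exact_mod_cast h3.trans h8) (mem_cls.2 (E'.refl' a)) (mem_cls.2 h6)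
        (mem_cls.2 (E'.trans' h6 h7)) hab hbc hca
      rw [Fintype.card_fin] at hm1
      rw [← hm3]
      exact R.step (i + 3) m (by omega) hm2
    have h6 := R.step (i + 4) l (by
      have : n ≤ n ^ 3 := Nat.le_self_pow (by norm_num) n
      omega) h5
    rw [hl3] at h6
    have h7 : π ∈ rl (F.T (i + 5)) X' X e := h6
    rw [mem_rl] at h7
    obtain ⟨_, t, ht, ht1, _⟩ := h7
    exact ⟨t, ht, ht1⟩
  · intro Q hQ hidx
    exact PP_index E' q h3 Q hQ hidx
  · have h5 : 2 * (n : ℝ) / q ≤ θ * n := by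
      refine le_trans (le_of_eq ?_) h4
      rw [hq, mul_div_assoc]
      congr 1
      rw [div_eq_iff (by positivity), ← Real.rpow_add hn0]
      rw [show c' + (1 - c') = 1 by ring, Real.rpow_one]
    have h6 : 2 * (n : ℝ) / q + 2 * (Bad.card : ℝ) ≤ θ * n + 12 / c' * θ * n := by
      have h7 : (Bad.card : ℝ) ≤ 6 * θ * n / c' := by
        rw [le_div_iff₀ hc']; linarith
      have h8 : 2 * (6 * θ * n / c') = 12 / c' * θ * n := by ring
      linarith
    have h7 : (n : ℝ) ^ ((X'.card : ℝ) - 3 * θ * n) ≤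
        (n : ℝ) ^ (θ * n + 12 / c' * θ * n) * (Nat.card (PP E' q) : ℝ) := by
      refine hsize.trans (hps.trans ?_)
      refine mul_le_mul_of_nonneg_right ?_ (Nat.cast_nonneg _)
      exact Real.rpow_le_rpow_of_exponent_le hn1.le h6
    have h8 : (n : ℝ) ^ ((X'.card : ℝ) - 3 * θ * n) = (n : ℝ) ^ (θ * n + 12 / c' * θ * n) *
        (n : ℝ) ^ ((X'.card : ℝ) - 4 * θ * n - 12 / c' * θ * n) := by
      rw [← Real.rpow_add hn0]
      congr 1; ring
    rw [h8] at h7
    have h9 := le_of_mul_le_mul_left h7 (by positivity)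
    refine le_trans (Real.rpow_le_rpow_of_exponent_le hn1.le ?_) h9
    have h10 : 4 * θ * n ≤ 4 / c' * θ * n := by
      have h11 : (4 : ℝ) ≤ 4 / c' := by
        rw [le_div_iff₀ hc']; nlinarith
      have h12 : 0 ≤ θ * n := by positivity
      nlinarith
    have h11 : 16 / c' * θ * n = 4 / c' * θ * n + 12 / c' * θ * n := by ring
    linarith

end MP731536
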