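import Pool.Agent.Lib.MP_731536_al.Defs2

/-!
# COL: invariant colourings (MP_731536_al)
-/

set_option linter.unusedSectionVars false

open Equiv Finset

namespace MP731536

/-- A colouring invariant under `g` is determined by its values at the points which `g` does not
decrease. -/
theorem col_count {n r : ℕ} (g : Perm (Fin n)) (Y : Finset (Fin n))
    (hY : ∀ x ∈ Y, g x < x) :
    (univ.filter (fun e : Fin n → Fin r => ∀ x, e (g x) = e x)).card ≤ r ^ (n - Y.card) := by
  classical
  have h1 : (univ.filter (fun e : Fin n → Fin r => ∀ x, e (g x) = e x)).card ≤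
      (univ : Finset ({x // x ∉ Y} → Fin r)).card := by
    apply Finset.card_le_card_of_injOn (fun e => fun x : {x // x ∉ Y} => e x.1)
    · intro e _
      exact Finset.mem_coe.2 (Finset.mem_univ _)
    · intro e he e' he' hee
      have he1 : ∀ x, e (g x) = e x := by simpa using he
      have he2 : ∀ x, e' (g x) = e' x := by simpa using he'
      have hee' : ∀ x, x ∉ Y → e x = e' x := fun x hx => congrFun hee ⟨x, hx⟩
      funext x
      induction x using WellFoundedLT.induction with
      | ind x ih =>
        by_cases hx : x ∈ Y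
        · have := ih (g x) (hY x hx)
          rw [← he1 x, ← he2 x, this]
        · exact hee' x hx
  refine h1.trans (le_of_eq ?_)
  rw [Finset.card_univ, Fintype.card_fun, Fintype.card_fin]
  congr 1
  have := Fintype.card_subtype_compl (fun x : Fin n => x ∈ Y)
  rw [this, Fintype.card_fin, Fintype.card_coe]

theorem col_bad {n : ℕ} (g : Perm (Fin n)) (d : ℕ) (hg : 2 * d ≤ g.support.card) (r : ℕ)
    (hr : 1 ≤ r) :
    (univ.filter (fun e : Fin n → Fin r => ∀ x, e (g x) = e x)).card ≤ r ^ (n - d) := by
  classical
  have hsplit : g.support.card ≤ (univ.filter (fun x => g x < x)).card +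
      (univ.filter (fun x => x < g x)).card := by
    refine le_trans (Finset.card_le_card ?_) (Finset.card_union_le _ _)
    intro x hx
    rw [Perm.mem_support] at hx
    rcases lt_or_gt_of_ne hx with h | h
    · exact Finset.mem_union_left _ (by simpa using h)
    · exact Finset.mem_union_right _ (by simpa using h)
  by_cases h1 : d ≤ (univ.filter (fun x => g x < x)).card
  · refine (col_count g (univ.filter (fun x => g x < x))
      (fun x hx => (Finset.mem_filter.1 hx).2)).trans ?_
    exact Nat.pow_le_pow_right hr (by omega)
  · have h2 : d ≤ (univ.filter (fun x => x < g x)).card := by omega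
    have h3 : (univ.filter (fun x => x < g x)).card =
        (univ.filter (fun x => g⁻¹ x < x)).card := by
      apply Finset.card_bij (fun x _ => g x)
      · intro x hx
        simpa using hx
      · intro x _ y _ hxy
        exact g.injective hxy
      · intro y hy
        exact ⟨g⁻¹ y, by simpa using hy, by simp⟩
    have h4 : (univ.filter (fun e : Fin n → Fin r => ∀ x, e (g x) = e x)) =
        (univ.filter (fun e : Fin n → Fin r => ∀ x, e (g⁻¹ x) = e x)) := by
      ext e
      simp only [mem_filter, mem_univ, true_and]
      constructor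
      · intro h x
        have := h (g⁻¹ x)
        simpa using this.symm
      · intro h x
        have := h (g x)
        simpa using this.symm
    rw [h4]
    refine (col_count g⁻¹ (univ.filter (fun x => g⁻¹ x < x))
      (fun x hx => (Finset.mem_filter.1 hx).2)).trans ?_
    exact Nat.pow_le_pow_right hr (by omega)

/-- COL. For few permutations with large support there is a colouring which none of them
preserves. -/
theorem coloring {n : ℕ} (A : Finset (Perm (Fin n))) (d : ℕ)
    (hA : ∀ g ∈ A, g ≠ 1 → 2 * d ≤ g.support.card) (r : ℕ) (hr : 1 ≤ r)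
    (h : A.card < r ^ d) :
    ∃ e : Fin n → Fin r, ∀ g ∈ A, g ≠ 1 → ∃ x, e (g x) ≠ e x := by
  classical
  by_contra hcon
  have hcon' : ∀ e : Fin n → Fin r, ∃ g ∈ A, g ≠ 1 ∧ ∀ x, e (g x) = e x := by
    intro e
    by_contra hc
    apply hcon
    refine ⟨e, fun g hg hg1 => ?_⟩
    by_contra hx
    apply hc
    refine ⟨g, hg, hg1, fun x => ?_⟩
    by_contra hxx
    exact hx ⟨x, hxx⟩
  obtain ⟨g0, hg0, hg01, -⟩ := hcon' (fun _ => ⟨0, hr⟩)
  have hdn : d ≤ n := by
    have h1 := hA g0 hg0 hg01
    have h2 := Finset.card_le_univ g0.support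
    rw [Fintype.card_fin] at h2
    omega
  have hcov : (univ : Finset (Fin n → Fin r)) ⊆ (A.filter (fun g => g ≠ 1)).biUnion
      (fun g => univ.filter (fun e : Fin n → Fin r => ∀ x, e (g x) = e x)) := by
    intro e _
    obtain ⟨g, hg, hg1, hx⟩ := hcon' e
    rw [Finset.mem_biUnion]
    exact ⟨g, by simp [hg, hg1], by simpa using hx⟩
  have h1 := Finset.card_le_card hcov
  rw [Finset.card_univ, Fintype.card_fun, Fintype.card_fin, Fintype.card_fin] at h1
  have h2 : ((A.filter (fun g => g ≠ 1)).biUnion
      (fun g => univ.filter (fun e : Fin n → Fin r => ∀ x, e (g x) = e x))).card ≤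
      (A.filter (fun g => g ≠ 1)).card * r ^ (n - d) := by
    apply Finset.card_biUnion_le_card_mul
    intro g hg
    rw [Finset.mem_filter] at hg
    exact col_bad g d (hA g hg.1 hg.2) r hr
  have h3 : (A.filter (fun g => g ≠ 1)).card * r ^ (n - d) ≤ A.card * r ^ (n - d) :=
    Nat.mul_le_mul_right _ (Finset.card_filter_le _ _)
  have h4 : A.card * r ^ (n - d) < r ^ d * r ^ (n - d) :=
    Nat.mul_lt_mul_of_pos_right h (Nat.pow_pos hr)
  have h5 : r ^ d * r ^ (n - d) = r ^ n := by
    rw [← pow_add]
    congr 1
    omega
  omega

end MP731536
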