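import Pool.Agent.Lib.MP_731536_al.Defs2

/-!
# FIVE (MP_731536_al): few noncommuting pairs move a given point
-/

set_option linter.unusedSectionVars false

open Equiv Finset

namespace MP731536

variable {α β : Type*} [Fintype α] [DecidableEq α]

private theorem five_comm_closure {S T : Set (Perm α)} (h : ∀ s ∈ S, ∀ t ∈ T, Commute s t)
    {g k : Perm α} (hg : g ∈ Subgroup.closure S) (hk : k ∈ Subgroup.closure T) :
    Commute g k := by
  have h1 : ∀ s ∈ S, Commute s k := by
    intro s hs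
    refine Subgroup.closure_induction (p := fun k _ => Commute s k) ?_ ?_ ?_ ?_ hk
    · intro y hy
      exact h s hs y hy
    · exact Commute.one_right s
    · intro a b _ _ ha hb
      exact ha.mul_right hb
    · intro a _ ha
      exact ha.inv_right
  refine Subgroup.closure_induction (p := fun g _ => Commute g k) ?_ ?_ ?_ ?_ hg
  · intro y hy
    exact h1 y hy
  · exact Commute.one_left k
  · intro a b _ _ ha hb
    exact ha.mul_left hb
  · intro a _ ha
    exact ha.inv_left

/-- The group generated by the pairs with index in `A`. -/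
private def fiveK {N : ℕ} (σ τ : Fin N → Perm α) (A : Finset (Fin N)) : Subgroup (Perm α) :=
  Subgroup.closure {g | ∃ s ∈ A, g = σ s ∨ g = τ s}

private theorem fiveK_mono {N : ℕ} (σ τ : Fin N → Perm α) {A B : Finset (Fin N)} (h : A ⊆ B) :
    fiveK σ τ A ≤ fiveK σ τ B := by
  refine Subgroup.closure_mono ?_
  rintro g ⟨s, hs, hg⟩
  exact ⟨s, h hs, hg⟩

private theorem fiveK_comm {N : ℕ} (σ τ : Fin N → Perm α)
    (hσσ : ∀ s t, s ≠ t → Commute (σ s) (σ t)) (hστ : ∀ s t, s ≠ t → Commute (σ s) (τ t))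
    (hττ : ∀ s t, s ≠ t → Commute (τ s) (τ t)) {A B : Finset (Fin N)} (hAB : Disjoint A B)
    {g k : Perm α} (hg : g ∈ fiveK σ τ A) (hk : k ∈ fiveK σ τ B) : Commute g k := by
  refine five_comm_closure ?_ hg hk
  rintro g ⟨s, hs, hg⟩ k ⟨t, ht, hk⟩
  have hst : s ≠ t := by
    rintro rfl
    exact Finset.disjoint_left.1 hAB hs ht
  rcases hg with rfl | rfl <;> rcases hk with rfl | rfl
  · exact hσσ s t hst
  · exact hστ s t hst
  · exact (hστ t s hst.symm).symm
  · exact hττ s t hst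

private theorem five_growth {N : ℕ} (σ τ : Fin N → Perm α)
    (hσσ : ∀ s t, s ≠ t → Commute (σ s) (σ t)) (hστ : ∀ s t, s ≠ t → Commute (σ s) (τ t))
    (hττ : ∀ s t, s ≠ t → Commute (τ s) (τ t)) (x : α) (J : Finset (Fin N)) :
    ∃ A, A ⊆ J ∧ 2 ^ A.card ≤ (orb (fiveK σ τ A) x).card ∧
      ∀ s ∈ J, s ∉ A → ∀ g ∈ fiveK σ τ {s}, ∀ y ∈ orb (fiveK σ τ A) x,
        g y ∈ orb (fiveK σ τ A) x := by
  classical
  have hne : (J.powerset.filter
      (fun A => 2 ^ A.card ≤ (orb (fiveK σ τ A) x).card)).Nonempty := by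
    refine ⟨∅, ?_⟩
    rw [Finset.mem_filter]
    refine ⟨by simp, ?_⟩
    simp only [Finset.card_empty, pow_zero]
    exact Finset.card_pos.2 ⟨x, self_mem_orb _ x⟩
  obtain ⟨A, hA, hmax⟩ := Finset.exists_max_image _ (fun A : Finset (Fin N) => A.card) hne
  rw [Finset.mem_filter, Finset.mem_powerset] at hA
  refine ⟨A, hA.1, hA.2, ?_⟩
  intro s hs hsA g hg y hy
  by_contra hgy
  have hdisj : Disjoint A {s} := by
    rw [Finset.disjoint_singleton_right]
    exact hsA
  set O := orb (fiveK σ τ A) x with hO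
  have himg : Disjoint O (O.image g) := by
    rw [Finset.disjoint_left]
    intro z hz hz'
    obtain ⟨z', hz'O, rfl⟩ := Finset.mem_image.1 hz'
    apply hgy
    -- `z' = a y`, `g z' = g a y = a g y`
    have h1 : z' ∈ orb (fiveK σ τ A) y := orb_trans (orb_symm hy) hz'O
    obtain ⟨a, ha, rfl⟩ := mem_orb.1 h1
    have hc := fiveK_comm σ τ hσσ hστ hττ hdisj ha hg
    have h2 : g (a y) = a (g y) := by
      rw [← Perm.mul_apply, ← Perm.mul_apply, hc.eq]
    rw [h2] at hz
    have h3 : g y ∈ orb (fiveK σ τ A) (a (g y)) :=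
      mem_orb.2 ⟨a⁻¹, Subgroup.inv_mem _ ha, by simp⟩
    exact orb_trans hz h3
  have hsub : O ∪ O.image g ⊆ orb (fiveK σ τ (insert s A)) x := by
    intro z hz
    rw [Finset.mem_union] at hz
    have hmono : O ⊆ orb (fiveK σ τ (insert s A)) x :=
      orb_mono (fiveK_mono σ τ (Finset.subset_insert s A)) x
    rcases hz with hz | hz
    · exact hmono hz
    · obtain ⟨z', hz', rfl⟩ := Finset.mem_image.1 hz
      refine orb_trans (hmono hz') (mem_orb.2 ⟨g, ?_, rfl⟩)
      exact fiveK_mono σ τ (by simp) hg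
  have hcard : 2 * O.card ≤ (orb (fiveK σ τ (insert s A)) x).card := by
    have h1 := Finset.card_le_card hsub
    rw [Finset.card_union_of_disjoint himg, Finset.card_image_of_injective _ g.injective] at h1
    omega
  have hins : (insert s A).card = A.card + 1 := Finset.card_insert_of_notMem hsA
  have hmem : insert s A ∈ J.powerset.filter
      (fun A => 2 ^ A.card ≤ (orb (fiveK σ τ A) x).card) := by
    rw [Finset.mem_filter, Finset.mem_powerset]
    refine ⟨Finset.insert_subset hs hA.1, ?_⟩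
    rw [hins, pow_succ]
    have := hA.2
    omega
  have := hmax _ hmem
  rw [hins] at this
  omega

/-- FIVE. For commuting pairs of permutations every point is moved by few of the commutators. -/
theorem five (N : ℕ) (σ τ : Fin N → Perm α)
    (hσσ : ∀ s t, s ≠ t → Commute (σ s) (σ t)) (hστ : ∀ s t, s ≠ t → Commute (σ s) (τ t))
    (hττ : ∀ s t, s ≠ t → Commute (τ s) (τ t)) (x : α) :
    2 ^ (univ.filter (fun s => (σ s * τ s * (σ s)⁻¹ * (τ s)⁻¹) x ≠ x)).card
      ≤ Fintype.card α ^ 2 := by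
  classical
  set J := univ.filter (fun s => (σ s * τ s * (σ s)⁻¹ * (τ s)⁻¹) x ≠ x) with hJ
  obtain ⟨A, hAJ, hA, hAs⟩ := five_growth σ τ hσσ hστ hττ x J
  obtain ⟨B, hBJ, hB, hBs⟩ := five_growth σ τ hσσ hστ hττ x (J \ A)
  have hsub : J ⊆ A ∪ B := by
    intro s hs
    by_contra hsAB
    rw [Finset.mem_union, not_or] at hsAB
    obtain ⟨hsA, hsB⟩ := hsAB
    have hsJA : s ∈ J \ A := Finset.mem_sdiff.2 ⟨hs, hsA⟩
    have hσmem : σ s ∈ fiveK σ τ {s} :=
      Subgroup.subset_closure ⟨s, by simp, Or.inl rfl⟩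
    have hτmem : τ s ∈ fiveK σ τ {s} :=
      Subgroup.subset_closure ⟨s, by simp, Or.inr rfl⟩
    have hx := self_mem_orb (fiveK σ τ A) x
    have hAB : Disjoint A B := by
      rw [Finset.disjoint_left]
      intro a ha hb
      exact (Finset.mem_sdiff.1 (hBJ hb)).2 ha
    have hAs' : Disjoint A {s} := Finset.disjoint_singleton_right.2 hsA
    have hBs' : Disjoint B {s} := Finset.disjoint_singleton_right.2 hsB
    -- `σ s` agrees on the orbit `O` with some `h` in `fiveK B`
    obtain ⟨h, hh, hhx⟩ := mem_orb.1 (hBs s hsJA hsB (σ s) hσmem x (self_mem_orb _ x))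
    have hagree : ∀ y ∈ orb (fiveK σ τ A) x, σ s y = h y := by
      intro y hy
      obtain ⟨a, ha, rfl⟩ := mem_orb.1 hy
      have c1 := fiveK_comm σ τ hσσ hστ hττ hAs' ha hσmem
      have c2 := fiveK_comm σ τ hσσ hστ hττ hAB ha hh
      rw [← Perm.mul_apply, ← Perm.mul_apply, ← c1.eq, ← c2.eq, Perm.mul_apply, Perm.mul_apply,
        hhx]
    have hcom : ∀ y ∈ orb (fiveK σ τ A) x, σ s (τ s y) = τ s (σ s y) := by
      intro y hy
      have h1 : τ s y ∈ orb (fiveK σ τ A) x := hAs s hs hsA (τ s) hτmem y hy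
      have c3 := fiveK_comm σ τ hσσ hστ hττ hBs' hh hτmem
      rw [hagree _ h1, hagree _ hy, ← Perm.mul_apply, c3.eq, Perm.mul_apply]
    have hs' := (Finset.mem_filter.1 hs).2
    apply hs'
    have hy : ((σ s)⁻¹ * (τ s)⁻¹) x ∈ orb (fiveK σ τ A) x :=
      hAs s hs hsA _ (Subgroup.mul_mem _ (Subgroup.inv_mem _ hσmem)
        (Subgroup.inv_mem _ hτmem)) x hx
    have h2 := hcom _ hy
    have h3 : (σ s * τ s * (σ s)⁻¹ * (τ s)⁻¹) x
        = σ s (τ s (((σ s)⁻¹ * (τ s)⁻¹) x)) := by
      simp [Perm.mul_apply]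
    rw [h3, h2]
    simp [Perm.mul_apply]
  have hcard : J.card ≤ A.card + B.card :=
    (Finset.card_le_card hsub).trans (Finset.card_union_le A B)
  have hA' : 2 ^ A.card ≤ Fintype.card α := hA.trans (Finset.card_le_univ _)
  have hB' : 2 ^ B.card ≤ Fintype.card α := hB.trans (Finset.card_le_univ _)
  calc 2 ^ J.card ≤ 2 ^ (A.card + B.card) := Nat.pow_le_pow_right (by norm_num) hcard
    _ = 2 ^ A.card * 2 ^ B.card := pow_add 2 _ _
    _ ≤ Fintype.card α * Fintype.card α := Nat.mul_le_mul hA' hB'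
    _ = Fintype.card α ^ 2 := by ring

end MP731536
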