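import Pool.Agent.Lib.MP_731536_al.Basics
import Pool.Agent.Lib.MP_731536_al.Col
import Pool.Agent.Lib.MP_731536_al.RlSize
import Pool.Agent.Lib.MP_731536_al.BL
import Pool.Agent.Lib.MP_731536_al.Alt
import Pool.Agent.Lib.MP_731536_al.Five

/-!
# STEP5 (MP_731536_al)
-/

set_option linter.unusedSectionVars false

open Equiv Finset

namespace MP731536

private lemma STEP5_cyc3_commute {α : Type*} [Fintype α] [DecidableEq α] {a b c a' b' c' : α}
    (ha : a' ≠ a ∧ a' ≠ b ∧ a' ≠ c) (hb : b' ≠ a ∧ b' ≠ b ∧ b' ≠ c)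
    (hc : c' ≠ a ∧ c' ≠ b ∧ c' ≠ c) : Commute (cyc3 a b c) (cyc3 a' b' c') := by
  have h := conj_cyc3 (cyc3 a b c) a' b' c'
  rw [cyc3_apply_of_ne ha.1 ha.2.1 ha.2.2, cyc3_apply_of_ne hb.1 hb.2.1 hb.2.2,
    cyc3_apply_of_ne hc.1 hc.2.1 hc.2.2] at h
  have h2 := congrArg (fun z => z * cyc3 a b c) h
  simp only [inv_mul_cancel_right] at h2
  exact h2

private lemma STEP5_class {α : Type*} [Fintype α] [DecidableEq α] (W : Finset (Perm α))
    (X' : Finset α) (hW : ∀ g ∈ W, ∀ x, x ∉ X' → g x = x) {p x : α} (hp : p ∈ X')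
    (hx : x ∈ cls (tc W) p) : x ∈ X' := by
  rw [mem_cls] at hx
  have key : ∀ {y z : α}, (tc W) y z → (y ∈ X' ↔ z ∈ X') := by
    intro y z h
    have h' : Relation.EqvGen (fun p x => ∃ z, p ≠ x ∧ x ≠ z ∧ z ≠ p ∧ cyc3 p x z ∈ W) y z := h
    clear h
    induction h' with
    | rel y z h =>
      obtain ⟨w, h1, h2, h3, h4⟩ := h
      have hy : y ∈ X' := by
        by_contra hc
        have h5 := hW _ h4 y hc
        rw [cyc3_apply_left h1 h3] at h5
        exact h1 h5.symm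
      have hz : z ∈ X' := by
        by_contra hc
        have h5 := hW _ h4 z hc
        rw [cyc3_apply_mid h2 h3] at h5
        exact h2 h5.symm
      exact ⟨fun _ => hz, fun _ => hy⟩
    | refl y => exact Iff.rfl
    | symm y z h ih => exact ih.symm
    | trans y z w h1 h2 ih1 ih2 => exact ih1.trans ih2
  exact (key hx).1 hp

theorem step5 {n L : ℕ} (F : Filt (Fin n) L) (hL : 2 * n ^ 3 + 8 ≤ L) (hn : 2 ≤ n) (i j : ℕ)
    (hij : i + 5 ≤ j) (ν τ : ℝ) (hν : 0 < ν) (hν1 : ν ≤ 1) (hτ : 0 < τ) (hτ1 : τ ≤ 1)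
    (X' X : Finset (Fin n)) (hX : X' ⊆ X) (hXX : ((X \ X').card : ℝ) ≤ τ * n)
    (hIm : (n : ℝ) ^ ((X'.card : ℝ) - τ * n) ≤ Im (F.T i) X')
    (hbig : 40 * τ * n < (X'.card : ℝ))
    (hker : ((fixPart (F.T j) X).card : ℝ) ≤ (n : ℝ) ^ (τ * ν / 4 * n))
    (h2 : 2 ≤ (n : ℝ) ^ τ) (h4 : 4 < ν * n)
    (h5 : 2 * Real.logb 2 n < ν * ((n : ℝ) ^ (3 / 4 : ℝ) / 5 - 1)) :
    ∃ g ∈ F.T j, g ≠ 1 ∧ (g.support.card : ℝ) < ν * n := by
  classical
  by_contra hcon
  push Not at hcon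
  have hn1 : (1 : ℝ) < n := by exact_mod_cast (by omega : 1 < n)
  have hn0 : (0 : ℝ) < n := by linarith
  have hn2 : (2 : ℝ) ≤ n := by exact_mod_cast hn
  have hnτ0 : (0 : ℝ) < (n : ℝ) ^ τ := by positivity
  have hL2 : 2 ≤ L := by omega
  have hL1 : 1 ≤ L := by omega
  have hL4 : 4 ≤ L := by omega
  -- (1) the colouring
  set r : ℕ := ⌈(n : ℝ) ^ τ⌉₊ with hr
  set d : ℕ := ⌊ν * n / 2⌋₊ with hd
  have hr_le : (n : ℝ) ^ τ ≤ r := Nat.le_ceil _
  have hr_lt : (r : ℝ) < (n : ℝ) ^ τ + 1 := Nat.ceil_lt_add_one hnτ0.le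
  have hr1 : 1 ≤ r := by
    have : (1 : ℝ) ≤ r := by linarith
    exact_mod_cast this
  have hd1 : ν * n / 2 < d + 1 := Nat.lt_floor_add_one _
  have hd2 : (d : ℝ) ≤ ν * n / 2 := Nat.floor_le (by positivity)
  obtain ⟨e, he⟩ := coloring (fixPart (F.T j) X) d (by
      intro g hg hg1
      have h6 := hcon g (mem_fixPart.1 hg).1 hg1
      have h7 : (2 * d : ℝ) ≤ (g.support.card : ℝ) := by linarith
      exact_mod_cast h7) r hr1 (by
      have h6 : (n : ℝ) ^ (τ * ν / 4 * n) < (r : ℝ) ^ d := by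
        calc (n : ℝ) ^ (τ * ν / 4 * n) < (n : ℝ) ^ (τ * d) := by
              apply Real.rpow_lt_rpow_of_exponent_lt hn1
              have h7 : ν * n / 4 < d := by linarith
              calc τ * ν / 4 * n = τ * (ν * n / 4) := by ring
                _ < τ * d := by gcongr
          _ = ((n : ℝ) ^ τ) ^ d := by rw [Real.rpow_mul hn0.le, Real.rpow_natCast]
          _ ≤ (r : ℝ) ^ d := by gcongr
      have h7 := hker.trans_lt h6
      exact_mod_cast h7)
  -- (2) the realised permutations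
  set R := rlFilt F X' X hX e with hR
  have hRT : ∀ k, R.T k = rl (F.T k) X' X e := fun k => rfl
  have hsize := rl_size (F.T i) (F.T (i + 1)) (fun a ha b hb =>
    F.mul hL2 (F.inv_mem i a ha) hb) X' X hX e
  rw [Fintype.card_fin, Fintype.card_fin] at hsize
  have hRsize : (n : ℝ) ^ ((X'.card : ℝ) - 5 * τ * n) ≤ ((R.T (i + 1)).card : ℝ) := by
    have h6 : (Im (F.T i) X' : ℝ) ≤ 2 ^ n * (n : ℝ) ^ (X \ X').card * (r : ℝ) ^ n *
        ((R.T (i + 1)).card : ℝ) := by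
      rw [hRT]
      exact_mod_cast hsize
    have h7 : (2 : ℝ) ^ n ≤ (n : ℝ) ^ (τ * n) := by
      calc (2 : ℝ) ^ n ≤ ((n : ℝ) ^ τ) ^ n := by gcongr
        _ = (n : ℝ) ^ (τ * n) := by rw [Real.rpow_mul hn0.le, Real.rpow_natCast]
    have h8 : (n : ℝ) ^ (X \ X').card ≤ (n : ℝ) ^ (τ * n) := by
      rw [← Real.rpow_natCast]
      exact Real.rpow_le_rpow_of_exponent_le hn1.le hXX
    have h9 : (r : ℝ) ^ n ≤ (n : ℝ) ^ (2 * τ * n) := by
      have h10 : (r : ℝ) ≤ (n : ℝ) ^ (2 * τ) := by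
        have h11 : (n : ℝ) ^ (2 * τ) = (n : ℝ) ^ τ * (n : ℝ) ^ τ := by
          rw [← Real.rpow_add hn0]; ring_nf
        rw [h11]
        nlinarith
      calc (r : ℝ) ^ n ≤ ((n : ℝ) ^ (2 * τ)) ^ n := by gcongr
        _ = (n : ℝ) ^ (2 * τ * n) := by
            rw [← Real.rpow_natCast, ← Real.rpow_mul hn0.le]
    have h10 : (n : ℝ) ^ ((X'.card : ℝ) - τ * n) ≤
        (n : ℝ) ^ (4 * τ * n) * ((R.T (i + 1)).card : ℝ) := by
      calc (n : ℝ) ^ ((X'.card : ℝ) - τ * n) ≤ (Im (F.T i) X' : ℝ) := hIm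
        _ ≤ _ := h6
        _ ≤ (n : ℝ) ^ (τ * n) * (n : ℝ) ^ (τ * n) * (n : ℝ) ^ (2 * τ * n) *
            ((R.T (i + 1)).card : ℝ) := by gcongr
        _ = (n : ℝ) ^ (4 * τ * n) * ((R.T (i + 1)).card : ℝ) := by
            rw [← Real.rpow_add hn0, ← Real.rpow_add hn0]
            ring_nf
    have h11 : (n : ℝ) ^ ((X'.card : ℝ) - τ * n) =
        (n : ℝ) ^ (4 * τ * n) * (n : ℝ) ^ ((X'.card : ℝ) - 5 * τ * n) := by
      rw [← Real.rpow_add hn0]
      ring_nf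
    rw [h11] at h10
    exact le_of_mul_le_mul_left h10 (by positivity)
  have hRsupp : ∀ k, ∀ g ∈ R.T k, ∀ x, x ∉ X' → g x = x := by
    intro k g hg
    rw [hRT] at hg
    exact (mem_rl.1 hg).1
  -- (3) a large class
  set q : ℝ := (n : ℝ) ^ (3 / 4 : ℝ) with hq
  have hq1 : 1 < q := Real.one_lt_rpow hn1 (by norm_num)
  have hqn : q ≤ n := by
    calc q ≤ (n : ℝ) ^ (1 : ℝ) := Real.rpow_le_rpow_of_exponent_le hn1.le (by norm_num)
      _ = n := Real.rpow_one _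
  obtain ⟨Bad, hBadX, hBad1, hBad2⟩ := basic_lemma X' (R.T (i + 1)) (hRsupp (i + 1)) (R.T (i + 2))
    (by
      intro a ha b hb c hc d' hd'
      have h6 := R.step (i + 1) [a⁻¹, b, c⁻¹, d', b⁻¹, a, d'⁻¹, c]
        (by simp only [List.length_cons, List.length_nil]; omega) (by
          intro g hg
          simp only [List.mem_cons, List.not_mem_nil, or_false] at hg
          rcases hg with rfl | rfl | rfl | rfl | rfl | rfl | rfl | rfl
          · exact R.inv_mem _ _ ha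
          · exact hb
          · exact R.inv_mem _ _ hc
          · exact hd'
          · exact R.inv_mem _ _ hb
          · exact ha
          · exact R.inv_mem _ _ hd'
          · exact hc)
      have h7 : (a⁻¹ * b) * (c⁻¹ * d') * (a⁻¹ * b)⁻¹ * (c⁻¹ * d')⁻¹ =
          [a⁻¹, b, c⁻¹, d', b⁻¹, a, d'⁻¹, c].prod := by
        simp only [List.prod_cons, List.prod_nil, mul_one, mul_inv_rev, inv_inv, mul_assoc]
      rw [h7]
      exact h6) q hq1 (by rw [Fintype.card_fin]; exact hqn)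
  rw [Fintype.card_fin] at hBad1
  obtain ⟨p, hpX, hpB⟩ : ∃ p ∈ X', p ∉ Bad := by
    by_contra hall
    push Not at hall
    have hBX : Bad = X' := Subset.antisymm hBadX hall
    rw [hBX] at hBad1
    have h6 : 2 * X'.card - X'.card = X'.card := by omega
    rw [h6] at hBad1
    have h7 : (n : ℝ) ^ X'.card * q ^ X'.card = (n : ℝ) ^ (7 / 4 * (X'.card : ℝ)) := by
      rw [hq, ← Real.rpow_natCast, ← Real.rpow_natCast, ← Real.rpow_mul hn0.le,
        ← Real.rpow_add hn0]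
      ring_nf
    rw [h7] at hBad1
    have h8 : ((n : ℝ) ^ ((X'.card : ℝ) - 5 * τ * n)) ^ 2 ≤ ((R.T (i + 1)).card : ℝ) ^ 2 := by
      gcongr
    have h9 := h8.trans hBad1
    rw [← Real.rpow_natCast, ← Real.rpow_mul hn0.le, Real.rpow_le_rpow_left_iff hn1] at h9
    push_cast at h9
    linarith
  have hclass := hBad2 p hpX hpB
  set C := cls (tc (R.T (i + 2))) p with hC
  have hlog : (1 : ℝ) ≤ Real.logb 2 n := by
    rw [Real.le_logb_iff_rpow_le (by norm_num) hn0]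
    simpa using hn2
  have hq15 : 15 < q := by
    have h6 : 2 < ν * (q / 5 - 1) := by linarith
    by_contra hc
    push Not at hc
    have h7 : q / 5 - 1 ≤ 2 := by linarith
    have h8 : ν * (q / 5 - 1) ≤ 1 * 2 := by
      rcases le_or_gt 0 (q / 5 - 1) with h9 | h9
      · exact mul_le_mul hν1 h7 h9 (by norm_num)
      · have : ν * (q / 5 - 1) ≤ 0 := mul_nonpos_of_nonneg_of_nonpos hν.le h9.le
        linarith
    linarith
  have hC5 : 5 ≤ C.card := by
    have h6 : (5 : ℝ) ≤ (C.card : ℝ) := by linarith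
    exact_mod_cast h6
  have hCX : ∀ x ∈ C, x ∈ X' := fun x hx =>
    STEP5_class (R.T (i + 2)) X' (hRsupp (i + 2)) hpX hx
  -- (4) all 3-cycles
  have hcyc : ∀ a ∈ C, ∀ b ∈ C, ∀ c ∈ C, a ≠ b → b ≠ c → c ≠ a →
      ∃ t ∈ F.T (i + 3), (∀ x ∈ X, t x = cyc3 a b c x) ∧ ∀ x, e (t x) = e x := by
    intro a ha b hb c hc hab hbc hca
    obtain ⟨l, hl1, hl2, hl3⟩ := three_cycles (R.T (i + 2)) (R.inv_mem (i + 2)) p hC5 ha hb hc
      hab hbc hca
    rw [Fintype.card_fin] at hl1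
    have h6 := R.step (i + 2) l (hl1.trans (by omega)) hl2
    rw [hl3, hRT] at h6
    exact (mem_rl.1 h6).2
  -- commuting lifts
  have hcomm : ∀ π ρ t u : Perm (Fin n), (∀ x, x ∉ X' → π x = x) → (∀ x, x ∉ X' → ρ x = x) →
      t ∈ F.T (i + 3) → u ∈ F.T (i + 3) → (∀ x ∈ X, t x = π x) → (∀ x ∈ X, u x = ρ x) →
      (∀ x, e (t x) = e x) → (∀ x, e (u x) = e x) → Commute π ρ → Commute t u := by
    intro π ρ t u hπ hρ ht hu htπ huρ hte hue hc
    have hw : t⁻¹ * u⁻¹ * t * u ∈ F.T (i + 4) := by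
      have := F.comm hL4 (F.inv_mem _ _ ht) (F.inv_mem _ _ hu)
      rwa [inv_inv, inv_inv] at this
    have hte' : ∀ x, e (t⁻¹ x) = e x := fun x => by
      have := hte (t⁻¹ x)
      simpa using this.symm
    have hue' : ∀ x, e (u⁻¹ x) = e x := fun x => by
      have := hue (u⁻¹ x)
      simpa using this.symm
    have hw1 : t⁻¹ * u⁻¹ * t * u = 1 := by
      by_contra hne
      obtain ⟨x, hx⟩ := he _ (mem_fixPart.2 ⟨F.mono hL1 (by omega) hw, fun x hx => by
        have h6 : t (u x) = u (t x) := by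
          rw [huρ x hx, htπ x hx, htπ _ (supp_mem hX hρ hx), huρ _ (supp_mem hX hπ hx)]
          have := DFunLike.congr_fun hc.eq x
          simpa [Perm.mul_apply] using this
        rw [Perm.mul_apply, Perm.mul_apply, Perm.mul_apply, h6]
        simp⟩) hne
      apply hx
      rw [Perm.mul_apply, Perm.mul_apply, Perm.mul_apply, hte', hue', hte, hue]
    have h7 : t * u = u * t := by
      have h8 := congrArg (fun z => u * t * z) hw1
      simp only [mul_one] at h8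
      rw [← h8]
      group
    exact h7
  -- (5) disjoint 5-subsets
  set N := C.card / 5 with hN
  have hNlow : (C.card : ℝ) / 5 - 1 < N := by
    have h6 : C.card < 5 * (N + 1) := by omega
    have h7 : (C.card : ℝ) < 5 * (N + 1) := by exact_mod_cast h6
    linarith
  obtain ⟨f⟩ : Nonempty ((Fin N × Fin 5) ↪ C) := by
    apply Function.Embedding.nonempty_of_card_le
    rw [Fintype.card_prod, Fintype.card_fin, Fintype.card_fin, Fintype.card_coe]
    omega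
  have hfne : ∀ s t : Fin N, ∀ u v : Fin 5, (s ≠ t ∨ u ≠ v) →
      ((f (s, u) : C) : Fin n) ≠ ((f (t, v) : C) : Fin n) := by
    intro s t u v h heq
    have h6 := f.injective (Subtype.ext heq)
    rw [Prod.mk.injEq] at h6
    rcases h with h | h
    · exact h h6.1
    · exact h h6.2
  let pt : Fin N → Fin 5 → Fin n := fun s u => ((f (s, u) : C) : Fin n)
  have hptC : ∀ s u, pt s u ∈ C := fun s u => (f (s, u)).2
  have hpt : ∀ s t : Fin N, ∀ u v : Fin 5, (s ≠ t ∨ u ≠ v) → pt s u ≠ pt t v := hfne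
  have hex : ∀ s : Fin N, ∃ t ∈ F.T (i + 3),
      (∀ x ∈ X, t x = cyc3 (pt s 0) (pt s 1) (pt s 2) x) ∧ ∀ x, e (t x) = e x := fun s =>
    hcyc _ (hptC s 0) _ (hptC s 1) _ (hptC s 2) (hpt _ _ _ _ (Or.inr (by decide)))
      (hpt _ _ _ _ (Or.inr (by decide))) (hpt _ _ _ _ (Or.inr (by decide)))
  have hex2 : ∀ s : Fin N, ∃ t ∈ F.T (i + 3),
      (∀ x ∈ X, t x = cyc3 (pt s 0) (pt s 3) (pt s 4) x) ∧ ∀ x, e (t x) = e x := fun s =>
    hcyc _ (hptC s 0) _ (hptC s 3) _ (hptC s 4) (hpt _ _ _ _ (Or.inr (by decide)))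
      (hpt _ _ _ _ (Or.inr (by decide))) (hpt _ _ _ _ (Or.inr (by decide)))
  choose σ hσ1 hσ2 hσ3 using hex
  choose ρ hρ1 hρ2 hρ3 using hex2
  have hsuppcyc : ∀ (s : Fin N) (u v w : Fin 5), ∀ x, x ∉ X' →
      cyc3 (pt s u) (pt s v) (pt s w) x = x := by
    intro s u v w x hx
    apply cyc3_apply_of_ne
    · rintro rfl; exact hx (hCX _ (hptC s u))
    · rintro rfl; exact hx (hCX _ (hptC s v))
    · rintro rfl; exact hx (hCX _ (hptC s w))
  have hcyccomm : ∀ (s t : Fin N), s ≠ t → ∀ (u v w u' v' w' : Fin 5),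
      Commute (cyc3 (pt s u) (pt s v) (pt s w)) (cyc3 (pt t u') (pt t v') (pt t w')) := by
    intro s t hst u v w u' v' w'
    exact STEP5_cyc3_commute
      ⟨hpt _ _ _ _ (Or.inl hst.symm), hpt _ _ _ _ (Or.inl hst.symm), hpt _ _ _ _ (Or.inl hst.symm)⟩
      ⟨hpt _ _ _ _ (Or.inl hst.symm), hpt _ _ _ _ (Or.inl hst.symm), hpt _ _ _ _ (Or.inl hst.symm)⟩
      ⟨hpt _ _ _ _ (Or.inl hst.symm), hpt _ _ _ _ (Or.inl hst.symm), hpt _ _ _ _ (Or.inl hst.symm)⟩
  have hfive := five N σ ρ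
    (fun s t hst => hcomm _ _ _ _ (hsuppcyc s 0 1 2) (hsuppcyc t 0 1 2) (hσ1 s) (hσ1 t)
      (hσ2 s) (hσ2 t) (hσ3 s) (hσ3 t) (hcyccomm s t hst _ _ _ _ _ _))
    (fun s t hst => hcomm _ _ _ _ (hsuppcyc s 0 1 2) (hsuppcyc t 0 3 4) (hσ1 s) (hρ1 t)
      (hσ2 s) (hρ2 t) (hσ3 s) (hρ3 t) (hcyccomm s t hst _ _ _ _ _ _))
    (fun s t hst => hcomm _ _ _ _ (hsuppcyc s 0 3 4) (hsuppcyc t 0 3 4) (hρ1 s) (hρ1 t)
      (hρ2 s) (hρ2 t) (hρ3 s) (hρ3 t) (hcyccomm s t hst _ _ _ _ _ _))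
  let κ : Fin N → Perm (Fin n) := fun s => σ s * ρ s * (σ s)⁻¹ * (ρ s)⁻¹
  have hκne : ∀ s, κ s ≠ 1 := by
    intro s h
    have h6 : σ s * ρ s = ρ s * σ s := by
      have h7 := congrArg (fun z => z * (ρ s * σ s)) h
      simp only [one_mul] at h7
      rw [← h7]
      simp only [κ]
      group
    have h8 := DFunLike.congr_fun h6 (pt s 0)
    rw [Perm.mul_apply, Perm.mul_apply, hρ2 s _ (hX (hCX _ (hptC s 0))),
      hσ2 s _ (hX (hCX _ (hptC s 0))),
      cyc3_apply_left (hpt _ _ _ _ (Or.inr (by decide))) (hpt _ _ _ _ (Or.inr (by decide))),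
      cyc3_apply_left (hpt _ _ _ _ (Or.inr (by decide))) (hpt _ _ _ _ (Or.inr (by decide))),
      hσ2 s _ (hX (hCX _ (hptC s 3))), hρ2 s _ (hX (hCX _ (hptC s 1))),
      cyc3_apply_of_ne (hpt _ _ _ _ (Or.inr (by decide))) (hpt _ _ _ _ (Or.inr (by decide)))
        (hpt _ _ _ _ (Or.inr (by decide))),
      cyc3_apply_of_ne (hpt _ _ _ _ (Or.inr (by decide))) (hpt _ _ _ _ (Or.inr (by decide)))
        (hpt _ _ _ _ (Or.inr (by decide)))] at h8
    exact hpt s s 3 1 (Or.inr (by decide)) h8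
  have hκmem : ∀ s, κ s ∈ F.T j := fun s =>
    F.mono hL1 (by omega) (F.comm hL4 (hσ1 s) (hρ1 s))
  have hκsupp : ∀ s, ν * n ≤ ((κ s).support.card : ℝ) := fun s => hcon _ (hκmem s) (hκne s)
  -- double counting
  have hdc : ∑ s, (κ s).support.card = ∑ x : Fin n, (univ.filter (fun s => κ s x ≠ x)).card := by
    have h6 : ∀ s, (κ s).support.card = ∑ x : Fin n, if κ s x ≠ x then 1 else 0 := by
      intro s
      rw [← card_filter]
      rfl
    have h7 : ∀ x : Fin n, (univ.filter (fun s => κ s x ≠ x)).card =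
        ∑ s, if κ s x ≠ x then 1 else 0 := fun x => card_filter _ _
    simp only [h6, h7]
    exact sum_comm
  have hJ : ∀ x : Fin n, ((univ.filter (fun s => κ s x ≠ x)).card : ℝ) ≤ 2 * Real.logb 2 n := by
    intro x
    have h6 := hfive x
    rw [Fintype.card_fin] at h6
    have h7 : ((2 : ℝ) ^ ((univ.filter (fun s => κ s x ≠ x)).card : ℝ)) ≤ (n : ℝ) ^ 2 := by
      rw [Real.rpow_natCast]
      exact_mod_cast h6
    have h8 := (Real.le_logb_iff_rpow_le (by norm_num : (1 : ℝ) < 2) (by positivity)).2 h7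
    rw [Real.logb_pow] at h8
    exact_mod_cast h8
  have hsum1 : (N : ℝ) * (ν * n) ≤ ((∑ s, (κ s).support.card : ℕ) : ℝ) := by
    push_cast
    calc (N : ℝ) * (ν * n) = ∑ _s : Fin N, ν * n := by
          rw [sum_const, card_univ, Fintype.card_fin, nsmul_eq_mul]
      _ ≤ ∑ s, ((κ s).support.card : ℝ) := sum_le_sum fun s _ => hκsupp s
  have hsum2 : ((∑ x : Fin n, (univ.filter (fun s => κ s x ≠ x)).card : ℕ) : ℝ) ≤
      n * (2 * Real.logb 2 n) := by
    push_cast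
    calc ∑ x : Fin n, ((univ.filter (fun s => κ s x ≠ x)).card : ℝ)
        ≤ ∑ _x : Fin n, 2 * Real.logb 2 n := sum_le_sum fun x _ => hJ x
      _ = n * (2 * Real.logb 2 n) := by
          rw [sum_const, card_univ, Fintype.card_fin, nsmul_eq_mul]
  rw [hdc] at hsum1
  have h6 : (N : ℝ) * (ν * n) ≤ n * (2 * Real.logb 2 n) := hsum1.trans hsum2
  have h7 : (N : ℝ) * ν ≤ 2 * Real.logb 2 n := by
    have h8 : n * ((N : ℝ) * ν) ≤ n * (2 * Real.logb 2 n) := by linarith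
    exact le_of_mul_le_mul_left h8 hn0
  have h8 : q / 5 - 1 < N := by linarith
  have h9 : ν * (q / 5 - 1) < ν * N := by gcongr
  linarith

end MP731536
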