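import Pool.Agent.Lib.MP_731536_al.Trans
import Pool.Agent.Lib.MP_731536_al.Prop1
import Pool.Agent.Lib.MP_731536_al.Step2
import Pool.Agent.Lib.MP_731536_al.Pot
import Pool.Agent.Lib.MP_731536_al.Split
import Pool.Agent.Lib.MP_731536_al.Ker
import Pool.Agent.Lib.MP_731536_al.Step5

/-!
# Theorem A (MP_731536_al): a short word of small support
-/

set_option linter.unusedSectionVars false

open Equiv Finset Filter

namespace MP731536

theorem ev_rpow (y A : ℝ) (hy : 0 < y) : ∀ᶠ n : ℕ in atTop, A ≤ (n : ℝ) ^ y :=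
  ((tendsto_rpow_atTop hy).comp tendsto_natCast_atTop_atTop).eventually_ge_atTop A

theorem ev_log (ν : ℝ) (hν : 0 < ν) (hν1 : ν ≤ 1) :
    ∀ᶠ n : ℕ in atTop, 2 * Real.logb 2 n < ν * ((n : ℝ) ^ (3 / 4 : ℝ) / 5 - 1) := by
  filter_upwards [ev_rpow (1 / 4) (40 / ν) (by norm_num), eventually_ge_atTop 1] with n h1 hn
  have hn1 : (1 : ℝ) ≤ n := by exact_mod_cast hn
  have hn0 : (0 : ℝ) < n := by linarith
  have hs : (1 : ℝ) ≤ (n : ℝ) ^ (1 / 2 : ℝ) := Real.one_le_rpow hn1 (by norm_num)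
  have hlog : Real.log n ≤ (n : ℝ) ^ (1 / 2 : ℝ) / (1 / 2) :=
    Real.log_le_rpow_div hn0.le (by norm_num)
  have hlog2 : (0.69 : ℝ) < Real.log 2 := by
    have := Real.log_two_gt_d9
    linarith
  have h2 : Real.logb 2 n ≤ 3 * (n : ℝ) ^ (1 / 2 : ℝ) := by
    unfold Real.logb
    rw [div_le_iff₀ (by linarith)]
    nlinarith
  have h3 : (n : ℝ) ^ (3 / 4 : ℝ) = (n : ℝ) ^ (1 / 2 : ℝ) * (n : ℝ) ^ (1 / 4 : ℝ) := by
    rw [← Real.rpow_add hn0]; norm_num
  have h4 : 40 ≤ ν * (n : ℝ) ^ (1 / 4 : ℝ) := by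
    rw [div_le_iff₀ hν] at h1; linarith
  rw [h3]
  nlinarith

theorem ev_lin (c' A : ℝ) (hc' : c' < 1) (hA : 0 < A) :
    ∀ᶠ n : ℕ in atTop, 2 * (n : ℝ) ^ c' ≤ A * n := by
  filter_upwards [ev_rpow (1 - c') (2 / A) (by linarith), eventually_ge_atTop 1] with n h1 hn
  have hn1 : (1 : ℝ) ≤ n := by exact_mod_cast hn
  have hn0 : (0 : ℝ) < n := by linarith
  have h2 : (n : ℝ) = (n : ℝ) ^ (1 - c') * (n : ℝ) ^ c' := by
    rw [← Real.rpow_add hn0]; simp
  have h3 : 0 < (n : ℝ) ^ c' := Real.rpow_pos_of_pos hn0 _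
  rw [div_le_iff₀ hA] at h1
  calc 2 * (n : ℝ) ^ c' ≤ ((n : ℝ) ^ (1 - c') * A) * (n : ℝ) ^ c' := by
        exact mul_le_mul_of_nonneg_right h1 h3.le
    _ = A * ((n : ℝ) ^ (1 - c') * (n : ℝ) ^ c') := by ring
    _ = A * n := by rw [← h2]

/-- The number of elements of `T` is at most the number of restrictions times the number of
elements of a set containing the quotients that fix `X` pointwise. -/
theorem card_le_im {α : Type*} [Fintype α] [DecidableEq α] (T T' : Finset (Perm α))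
    (hT : ∀ a ∈ T, ∀ b ∈ T, a⁻¹ * b ∈ T') (X : Finset α) :
    T.card ≤ Fintype.card α ^ X.card * (fixPart T' X).card := by
  classical
  have h1 : (T.image (fun g : Perm α => fun x : X => g x)).card ≤ Fintype.card α ^ X.card := by
    refine (Finset.card_le_univ _).trans ?_
    rw [Fintype.card_fun, Fintype.card_coe]
  have h2 : T.card ≤ (fixPart T' X).card * (T.image (fun g : Perm α => fun x : X => g x)).card := by
    refine Finset.card_le_mul_card_image _ _ ?_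
    intro f hf
    obtain ⟨a, ha, rfl⟩ := Finset.mem_image.1 hf
    refine Finset.card_le_card_of_injOn (fun g => a⁻¹ * g) ?_ ?_
    · intro g hg
      simp only [coe_filter, Set.mem_ofPred_eq] at hg
      obtain ⟨hg1, hg2⟩ := hg
      refine Finset.mem_coe.2 (mem_fixPart.2 ⟨hT a ha g hg1, ?_⟩)
      intro x hx
      have := congrFun hg2 ⟨x, hx⟩
      simp only at this
      rw [Perm.mul_apply, this]
      simp
    · intro g _ g' _ h
      exact mul_left_cancel h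
  calc T.card ≤ _ := h2
    _ ≤ (fixPart T' X).card * Fintype.card α ^ X.card := Nat.mul_le_mul_left _ h1
    _ = _ := mul_comm _ _

theorem thmA (ε ν : ℝ) (hε : 0 < ε) (hε1 : ε ≤ 1) (hν : 0 < ν) (hν1 : ν ≤ 1) :
    ∃ i0 n0 : ℕ, ∀ n, n0 ≤ n → ∀ (L : ℕ) (F : Filt (Fin n) L), 100 * n ^ 27 ≤ L →
      alternatingGroup (Fin n) ≤ Subgroup.closure (F.T 0 : Set (Perm (Fin n))) →
      (n : ℝ) ^ (ε * n) ≤ ((F.T 0).card : ℝ) →
      ∃ g ∈ F.T i0, g ≠ 1 ∧ (g.support.card : ℝ) < ν * n := by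
  classical
  obtain ⟨τ, hτdef⟩ : ∃ τ : ℝ, τ = ε / 64 := ⟨_, rfl⟩
  have hτ : 0 < τ := by rw [hτdef]; positivity
  have hτ1 : τ ≤ 1 := by rw [hτdef]; linarith
  obtain ⟨κ, hκdef⟩ : ∃ κ : ℝ, κ = τ * ν / 4 := ⟨_, rfl⟩
  have hκ : 0 < κ := by rw [hκdef]; positivity
  have hκτ : κ ≤ τ / 4 := by rw [hκdef]; nlinarith
  obtain ⟨κ1, hκ1def⟩ : ∃ κ1 : ℝ, κ1 = κ / 2 := ⟨_, rfl⟩
  have hκ1 : 0 < κ1 := by rw [hκ1def]; positivity
  obtain ⟨c', hc'def⟩ : ∃ c' : ℝ, c' = κ / 4 := ⟨_, rfl⟩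
  have hc' : 0 < c' := by rw [hc'def]; positivity
  have hc'1 : c' < 1 := by rw [hc'def]; linarith
  obtain ⟨Ct, hCt, hpot⟩ := potential κ1 ν hκ1 (by rw [hκ1def]; linarith) hν hν1
  obtain ⟨D, hDdef⟩ : ∃ D : ℝ, D = 1 + 16 / c' := ⟨_, rfl⟩
  have hD : 0 < D := by rw [hDdef]; positivity
  obtain ⟨η, hηdef⟩ : ∃ η : ℝ, η = min (ε / 64) (ε / (2 * Ct * D)) := ⟨_, rfl⟩
  have hη : 0 < η := by rw [hηdef]; positivity
  have hη2 : η ≤ ε / 64 := by rw [hηdef]; exact min_le_left _ _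
  have hη1 : η ≤ 1 := by linarith
  have hη3 : 2 * Ct * D * η ≤ ε := by
    have h : η ≤ ε / (2 * Ct * D) := by rw [hηdef]; exact min_le_right _ _
    rw [le_div_iff₀ (by positivity)] at h
    linarith
  obtain ⟨I, cmin, hcmin, hcmin4, hprop⟩ := prop1 η hη hη1 8
  have hev : ∀ᶠ n : ℕ in atTop, 2 ≤ (n : ℝ) ^ (η * cmin) ∧ 5 ≤ (n : ℝ) ^ (1 - c') ∧
      2 * (n : ℝ) ^ c' ≤ (η * cmin) * n ∧ 16 / κ1 ≤ (n : ℝ) ^ (cmin / 2) ∧
      2 ≤ (n : ℝ) ^ τ ∧ 4 / ν < n ∧
      2 * Real.logb 2 n < ν * ((n : ℝ) ^ (3 / 4 : ℝ) / 5 - 1) ∧ 5 ≤ n := by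
    refine (ev_rpow _ _ (by positivity)).and ((ev_rpow _ _ (by linarith)).and
      ((ev_lin _ _ hc'1 (by positivity)).and ((ev_rpow _ _ (by positivity)).and
      ((ev_rpow _ _ hτ).and ((tendsto_natCast_atTop_atTop.eventually_gt_atTop _).and
      ((ev_log ν hν hν1).and (eventually_ge_atTop 5)))))))
  obtain ⟨n0, hn0⟩ := eventually_atTop.1 hev
  refine ⟨I + 8, n0, ?_⟩
  intro n hn L F hL hgen hcard
  obtain ⟨hA1, hA2, hA3, hA4, hA5, hA6, hA7, hn5⟩ := hn0 n hn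
  have hn5' : (5 : ℝ) ≤ n := by exact_mod_cast hn5
  have hnpos : (0 : ℝ) < n := by linarith
  have hn1 : (1 : ℝ) < n := by linarith
  -- numerical facts about `L`
  have hL27 : n ^ 27 ≤ L := le_trans (Nat.le_mul_of_pos_left _ (by norm_num)) hL
  have hpow : ∀ k ≤ 26, 100 * n ^ k ≤ L := by
    intro k hk
    refine le_trans (Nat.mul_le_mul_left _ (Nat.pow_le_pow_right (by omega) (by omega))) hL
  have hL1 : n ^ 2 + 1 ≤ L := by
    have h1 := hpow 2 (by norm_num)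
    nlinarith [Nat.one_le_pow 2 n (by omega)]
  have hL2 : 2 * n ^ 3 + 8 ≤ L := by
    have h1 := hpow 3 (by norm_num)
    nlinarith [Nat.one_le_pow 3 n (by omega)]
  have hL3 : 3 * n + 3 ≤ L := by
    have h1 := hpow 1 (by norm_num)
    nlinarith
  have hLbig : 8 ≤ L := by omega
  obtain ⟨i, c, X', X, hiI, hcc, hc4, hX, hXX, hIm, horb⟩ := hprop n L F (by omega) hL1
  have hc : 0 < c := lt_of_lt_of_le hcmin hcc
  have hηc : 0 < η * c := by positivity
  have hηcmin : η * cmin ≤ η * c := mul_le_mul_of_nonneg_left hcc hη.le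
  -- step 2
  obtain ⟨P, hP1, hP2, hP3, hP4⟩ := step2 F hL2 (by omega) i X' X hX (η * c) c' hηc hc' hc'1
    hXX hIm (hA1.trans (Real.rpow_le_rpow_of_exponent_le hn1.le hηcmin)) hA2
    (hA3.trans (mul_le_mul_of_nonneg_right hηcmin hnpos.le))
  obtain ⟨m, w, hw, hw1⟩ := translators hn5 hL F hgen
  -- the set Γ
  obtain ⟨s, hsdef⟩ : ∃ s : ℝ, s = (n : ℝ) ^ (κ / 2) := ⟨_, rfl⟩
  have hs1 : 1 ≤ s := by rw [hsdef]; exact Real.one_le_rpow hn1.le (by positivity)
  obtain ⟨Γ, hΓdef⟩ : ∃ Γ : Finset (Fin n), Γ = univ.filter (fun γ => γ ∉ X ∧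
      s ≤ ((orb (Gr (F.T (i + 5)) X) γ).card : ℝ)) := ⟨_, rfl⟩
  have hPX : ∀ π ∈ P, ∀ x, x ∉ X → π x = x := fun π hπ x hx => hP1 π hπ x (fun h => hx (hX h))
  have hPpos : (0 : ℝ) < Nat.card P := by exact_mod_cast Nat.card_pos
  have hXc : (X.card : ℝ) = X'.card + (X \ X').card := by
    have := Finset.card_sdiff_add_card_eq_card hX
    have h' : ((X \ X').card : ℝ) + X'.card = X.card := by exact_mod_cast this
    linarith
  have hratio : (n : ℝ) ^ X.card / (Nat.card P : ℝ) ≤ (n : ℝ) ^ (D * (η * c) * n) := by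
    rw [div_le_iff₀ hPpos]
    calc (n : ℝ) ^ X.card = (n : ℝ) ^ (X.card : ℝ) := (Real.rpow_natCast _ _).symm
      _ ≤ (n : ℝ) ^ (D * (η * c) * n + ((X'.card : ℝ) - 16 / c' * (η * c) * n)) := by
          apply Real.rpow_le_rpow_of_exponent_le hn1.le
          rw [hXc, hDdef]
          nlinarith
      _ = (n : ℝ) ^ (D * (η * c) * n) * (n : ℝ) ^ ((X'.card : ℝ) - 16 / c' * (η * c) * n) :=
          Real.rpow_add hnpos _ _
      _ ≤ _ := mul_le_mul_of_nonneg_left hP4 (Real.rpow_nonneg hnpos.le _)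
  have hcost : ∀ t : ℕ, (t : ℝ) ≤ Ct / c →
      ((n : ℝ) ^ X.card / (Nat.card P : ℝ)) ^ t < ((F.T 0).card : ℝ) := by
    intro t ht
    have h0 : 0 ≤ (n : ℝ) ^ X.card / (Nat.card P : ℝ) := by positivity
    calc ((n : ℝ) ^ X.card / (Nat.card P : ℝ)) ^ t ≤ ((n : ℝ) ^ (D * (η * c) * n)) ^ t :=
          pow_le_pow_left₀ h0 hratio t
      _ = (n : ℝ) ^ (D * (η * c) * n * t) := by
          rw [← Real.rpow_natCast, ← Real.rpow_mul hnpos.le]
      _ < (n : ℝ) ^ (ε * n) := by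
          apply Real.rpow_lt_rpow_of_exponent_lt hn1
          have h1 : D * (η * c) * n * t ≤ D * (η * c) * n * (Ct / c) :=
            mul_le_mul_of_nonneg_left ht (by positivity)
          have h2 : D * (η * c) * n * (Ct / c) = (D * η * Ct) * n := by
            field_simp
          have h3 : D * η * Ct ≤ ε / 2 := by linarith
          have h4 : (D * η * Ct) * n ≤ (ε / 2) * n := mul_le_mul_of_nonneg_right h3 hnpos.le
          have h5 : 0 < ε * n := by positivity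
          linarith
      _ ≤ _ := hcard
  have hqs : (n : ℝ) < (n : ℝ) ^ (1 - c') * s := by
    rw [hsdef, ← Real.rpow_add hnpos]
    calc (n : ℝ) = (n : ℝ) ^ (1 : ℝ) := (Real.rpow_one _).symm
      _ < _ := Real.rpow_lt_rpow_of_exponent_lt hn1 (by rw [hc'def]; linarith)
  have hsplit := split F hL3 (by omega) κ1 ν Ct hpot w hw hw1 X P hPX (i + 5) hP2
    ((n : ℝ) ^ (1 - c')) s hs1 hqs hP3 c hc hc4
    (hA4.trans (Real.rpow_le_rpow_of_exponent_le hn1.le (by linarith))) horb hcost Γ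
    (fun γ hγ => by rw [hΓdef] at hγ; exact (Finset.mem_filter.1 hγ).2)
  rcases hsplit with hΓsmall | ⟨g, hg1, hg2, hg3⟩
  swap
  · exact ⟨g, F.mono (by omega) (by omega) hg1, hg2, hg3⟩
  -- the kernel
  have hH : (Nat.card (Gr (F.T (i + 5)) X) : ℝ) ≤ (n : ℝ) ^ (κ * n) := by
    have h1 := kernel_bound (Gr (F.T (i + 5)) X) X Γ (fun h hh => Gr_fix hh) s hs1 (by
      intro z hz hzΓ
      by_contra hcon
      push Not at hcon
      exact hzΓ (by rw [hΓdef]; exact Finset.mem_filter.2 ⟨Finset.mem_univ _, hz, hcon.le⟩))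
    rw [Fintype.card_fin] at h1
    refine h1.trans ?_
    rw [← Real.rpow_natCast (n : ℝ) Γ.card, hsdef, ← Real.rpow_natCast ((n : ℝ) ^ (κ / 2)) n,
      ← Real.rpow_mul hnpos.le, ← Real.rpow_add hnpos]
    apply Real.rpow_le_rpow_of_exponent_le hn1.le
    rw [hκ1def] at hΓsmall
    nlinarith
  have hfix : ∀ k ≤ i + 5, ((fixPart (F.T k) X).card : ℝ) ≤ (n : ℝ) ^ (κ * n) := by
    intro k hk
    refine le_trans ?_ hH
    have hsub : fixPart (F.T k) X ⊆ (Finset.univ.filter (fun g => g ∈ Gr (F.T (i + 5)) X)) := by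
      intro g hg
      refine Finset.mem_filter.2 ⟨Finset.mem_univ _, ?_⟩
      exact mem_Gr_of_mem_fixPart (fixPart_mono (F.mono (by omega) hk) (Finset.Subset.refl _) hg)
    have h1 := Finset.card_le_card hsub
    have h2 : (Finset.univ.filter (fun g => g ∈ Gr (F.T (i + 5)) X)).card =
        Nat.card (Gr (F.T (i + 5)) X) := by
      rw [Nat.card_eq_fintype_card, Fintype.card_subtype]
    rw [h2] at h1
    exact_mod_cast h1
  have hXbig : (ε - κ) * n ≤ X.card := by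
    have h1 := card_le_im (F.T 0) (F.T 1) (fun a ha b hb =>
      F.mul (by omega) (F.inv_mem 0 a ha) hb) X
    rw [Fintype.card_fin] at h1
    have h2 : ((F.T 0).card : ℝ) ≤ (n : ℝ) ^ X.card * ((fixPart (F.T 1) X).card : ℝ) := by
      exact_mod_cast h1
    have h3 : (n : ℝ) ^ (ε * n) ≤ (n : ℝ) ^ ((X.card : ℝ) + κ * n) := by
      calc (n : ℝ) ^ (ε * n) ≤ _ := hcard
        _ ≤ _ := h2
        _ ≤ (n : ℝ) ^ X.card * (n : ℝ) ^ (κ * n) :=
            mul_le_mul_of_nonneg_left (hfix 1 (by omega)) (by positivity)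
        _ = (n : ℝ) ^ ((X.card : ℝ) + κ * n) := by
            rw [Real.rpow_add hnpos, Real.rpow_natCast]
    have h4 := (Real.rpow_le_rpow_left_iff hn1).1 h3
    linarith
  have hbig : 40 * τ * n < (X'.card : ℝ) := by
    have h1 : η * c * n ≤ η * n := by
      have : η * c ≤ η * 1 := mul_le_mul_of_nonneg_left (by linarith) hη.le
      nlinarith
    have h2 : (X'.card : ℝ) ≥ (ε - κ - η) * n := by
      have : (X'.card : ℝ) = X.card - (X \ X').card := by linarith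
      rw [this]; nlinarith
    have h3 : 40 * τ < ε - κ - η := by
      rw [hτdef] at *
      linarith
    nlinarith
  obtain ⟨g, hg1, hg2, hg3⟩ := step5 F hL2 (by omega) i (i + 5) le_rfl ν τ hν hν1 hτ hτ1 X' X hX
    (hXX.trans (by
      have h1 : η * c ≤ τ := by
        have : η * c ≤ η * 1 := mul_le_mul_of_nonneg_left (by linarith) hη.le
        rw [hτdef]; linarith
      exact mul_le_mul_of_nonneg_right h1 hnpos.le))
    (le_trans (Real.rpow_le_rpow_of_exponent_le hn1.le (by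
      have h1 : η * c ≤ τ := by
        have : η * c ≤ η * 1 := mul_le_mul_of_nonneg_left (by linarith) hη.le
        rw [hτdef]; linarith
      have := mul_le_mul_of_nonneg_right h1 hnpos.le
      linarith)) hIm)
    hbig (by rw [← hκdef]; exact hfix (i + 5) le_rfl) hA5 (by
      rw [div_lt_iff₀ hν] at hA6; linarith) hA7
  exact ⟨g, F.mono (by omega) (by omega) hg1, hg2, hg3⟩

end MP731536
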