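import Pool.Agent.Lib.MP_731536_al.Cayley
import Pool.Agent.Lib.MP_731536_al.ThmA
import Pool.Agent.Lib.MP_731536_al.Step6

/-!
# The main theorem for balls (MP_731536_al)
-/

set_option linter.unusedSectionVars false

open Equiv Finset Filter Necf73648

namespace MP731536

theorem card_alt_lower (n : ℕ) (hn : 9 ≤ n) :
    (n : ℝ) ^ ((n : ℝ) / 2) ≤ (Fintype.card (alternatingGroup (Fin n)) : ℝ) := by
  have hn' : (9 : ℝ) ≤ n := by exact_mod_cast hn
  have hn0 : (0 : ℝ) < n := by linarith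
  have : Nontrivial (Fin n) := Fin.nontrivial_iff_two_le.2 (by omega)
  have h1 : 2 * Fintype.card (alternatingGroup (Fin n)) = n.factorial := by
    rw [two_mul_card_alternatingGroup, Fintype.card_perm, Fintype.card_fin]
  have h2 := Stirling.le_factorial_stirling n
  have h3 : (2 : ℝ) ≤ Real.sqrt (2 * Real.pi * n) := by
    apply Real.le_sqrt_of_sq_le
    have := Real.pi_gt_three
    nlinarith
  have he : Real.exp 1 ≤ (n : ℝ) ^ (1 / 2 : ℝ) := by
    rw [← Real.sqrt_eq_rpow]
    apply Real.le_sqrt_of_sq_le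
    have := Real.exp_one_lt_d9
    have h0 := Real.exp_pos 1
    nlinarith
  have h4 : (n : ℝ) ^ (1 / 2 : ℝ) ≤ n / Real.exp 1 := by
    rw [le_div_iff₀ (Real.exp_pos 1)]
    calc (n : ℝ) ^ (1 / 2 : ℝ) * Real.exp 1 ≤ (n : ℝ) ^ (1 / 2 : ℝ) * (n : ℝ) ^ (1 / 2 : ℝ) :=
          mul_le_mul_of_nonneg_left he (by positivity)
      _ = n := by rw [← Real.rpow_add hn0]; norm_num
  have h5 : (n : ℝ) ^ ((n : ℝ) / 2) ≤ (n / Real.exp 1) ^ n := by
    calc (n : ℝ) ^ ((n : ℝ) / 2) = ((n : ℝ) ^ (1 / 2 : ℝ)) ^ n := by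
          rw [← Real.rpow_natCast, ← Real.rpow_mul hn0.le]; ring_nf
      _ ≤ _ := pow_le_pow_left₀ (by positivity) h4 n
  have h6 : (n.factorial : ℝ) = 2 * (Fintype.card (alternatingGroup (Fin n)) : ℝ) := by
    exact_mod_cast h1.symm
  have h7 : 0 ≤ (n / Real.exp 1) ^ n := by positivity
  rw [h6] at h2
  nlinarith

theorem ball_zero {G : Type*} [Group G] {S : Set G} (hS : Subgroup.closure S = ⊤) :
    ball S 0 = {1} := by
  ext g
  rw [mem_ball_iff hS, Set.mem_singleton_iff]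
  constructor
  · rintro ⟨l, h1, _, rfl⟩
    have : l = [] := List.length_eq_zero_iff.1 (by omega)
    subst this
    rfl
  · rintro rfl
    exact ⟨[], by simp, by simp, rfl⟩

theorem subset_ball {G : Type*} [Group G] {S : Set G} (hS : Subgroup.closure S = ⊤) {r : ℕ}
    (hr : 1 ≤ r) : S ⊆ ball S r := by
  intro g hg
  rw [mem_ball_iff hS]
  exact ⟨[g], by simpa using hr, by simp [hg], by simp⟩

theorem diam_le_of_card_le_one {G : Type*} [Group G] [Fintype G] {S : Set G}
    (hS : Subgroup.closure S = ⊤) (h : Fintype.card G ≤ 1) (k : ℕ) :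
    (cayleyGraph S).diam ≤ k := by
  rw [diam_le_iff hS]
  intro g
  have := dist_lt_card hS g
  omega

theorem core (ε : ℝ) (hε : 0 < ε) :
    ∃ C : ℕ, ∀ (n : ℕ) (S : Set (alternatingGroup (Fin n))), Subgroup.closure S = ⊤ →
      ∀ r : ℕ, (Fintype.card (alternatingGroup (Fin n)) : ℝ) ^ ε ≤ ((ball S r).ncard : ℝ) →
        (cayleyGraph S).diam ≤ r * n ^ C := by
  obtain ⟨ε1, hε1def⟩ : ∃ ε1 : ℝ, ε1 = min ε 1 := ⟨_, rfl⟩
  have hε1 : 0 < ε1 := by rw [hε1def]; positivity
  have hε11 : ε1 ≤ 1 := by rw [hε1def]; exact min_le_right _ _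
  have hε1ε : ε1 ≤ ε := by rw [hε1def]; exact min_le_left _ _
  obtain ⟨i0, n0, hA⟩ := thmA (ε1 / 2) (1 / 100) (by positivity) (by linarith) (by norm_num)
    (by norm_num)
  obtain ⟨N, hN⟩ : ∃ N : ℕ, N = max n0 1000 := ⟨_, rfl⟩
  refine ⟨28 * (i0 + 5) + N.factorial, ?_⟩
  intro n S hS r hr
  have hcardpos : (1 : ℝ) ≤ (Fintype.card (alternatingGroup (Fin n)) : ℝ) := by
    exact_mod_cast Fintype.card_pos
  -- the case `r = 0`
  rcases Nat.eq_zero_or_pos r with rfl | hrpos
  · apply diam_le_of_card_le_one hS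
    rw [ball_zero hS, Set.ncard_singleton] at hr
    by_contra hcon
    push Not at hcon
    have h1 : (1 : ℝ) < (Fintype.card (alternatingGroup (Fin n)) : ℝ) := by exact_mod_cast hcon
    have h2 := Real.one_lt_rpow h1 hε
    push_cast at hr
    linarith
  -- the case `n ≤ 1`
  have hcardfac : Fintype.card (alternatingGroup (Fin n)) ≤ n.factorial := by
    calc Fintype.card (alternatingGroup (Fin n)) ≤ Fintype.card (Perm (Fin n)) :=
          Fintype.card_subtype_le _
      _ = n.factorial := by rw [Fintype.card_perm, Fintype.card_fin]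
  rcases Nat.lt_or_ge n 2 with hn2 | hn2
  · apply diam_le_of_card_le_one hS
    refine hcardfac.trans ?_
    interval_cases n <;> simp
  rcases Nat.lt_or_ge n N with hnN | hnN
  · -- small `n`
    calc (cayleyGraph S).diam ≤ Fintype.card (alternatingGroup (Fin n)) := diam_le_card hS
      _ ≤ n.factorial := hcardfac
      _ ≤ N.factorial := Nat.factorial_le hnN.le
      _ ≤ 2 ^ N.factorial := Nat.lt_two_pow_self.le
      _ ≤ n ^ N.factorial := Nat.pow_le_pow_left hn2 _
      _ ≤ n ^ (28 * (i0 + 5) + N.factorial) := Nat.pow_le_pow_right (by omega) (by omega)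
      _ ≤ r * n ^ (28 * (i0 + 5) + N.factorial) := Nat.le_mul_of_pos_left _ hrpos
  -- large `n`
  have hn0 : n0 ≤ n := le_trans (by rw [hN]; exact le_max_left _ _) hnN
  have hn1000 : 1000 ≤ n := le_trans (by rw [hN]; exact le_max_right _ _) hnN
  have hnr : (1 : ℝ) < n := by exact_mod_cast (by omega : 1 < n)
  have hnr0 : (0 : ℝ) < n := by linarith
  obtain ⟨A, hAdef⟩ : ∃ A : Set (Perm (Fin n)), A = Subtype.val '' (ball S r) := ⟨_, rfl⟩
  have hinv : ∀ g ∈ A, g⁻¹ ∈ A := by
    rw [hAdef]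
    rintro _ ⟨g, hg, rfl⟩
    exact ⟨g⁻¹, ball_inv hS hg, by simp⟩
  obtain ⟨L, hL⟩ : ∃ L : ℕ, L = 100 * n ^ 27 := ⟨_, rfl⟩
  obtain ⟨F, hF⟩ : ∃ F : Filt (Fin n) L, F = wordFilt A hinv L := ⟨_, rfl⟩
  have hmem : ∀ i g, g ∈ F.T i ↔
      ∃ l : List (Perm (Fin n)), l.length ≤ L ^ i ∧ (∀ x ∈ l, x ∈ A) ∧ l.prod = g := by
    intro i g
    rw [hF]
    exact mem_wordFilt
  have hAT : A ⊆ (F.T 0 : Set (Perm (Fin n))) := by
    intro g hg
    rw [Finset.mem_coe, hmem]
    exact ⟨[g], by simp, by simpa using hg, by simp⟩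
  have hgen : alternatingGroup (Fin n) ≤ Subgroup.closure (F.T 0 : Set (Perm (Fin n))) := by
    have h1 : (Subgroup.closure S).map (alternatingGroup (Fin n)).subtype =
        alternatingGroup (Fin n) := by
      rw [hS, ← MonoidHom.range_eq_map, Subgroup.range_subtype]
    rw [← h1, MonoidHom.map_closure]
    apply Subgroup.closure_mono
    rintro _ ⟨g, hg, rfl⟩
    exact hAT (by rw [hAdef]; exact ⟨g, subset_ball hS hrpos hg, rfl⟩)
  have hcard : (n : ℝ) ^ (ε1 / 2 * n) ≤ ((F.T 0).card : ℝ) := by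
    have h1 : (ball S r).ncard ≤ (F.T 0).card := by
      calc (ball S r).ncard = A.ncard := by
            rw [hAdef]; exact (Set.ncard_image_of_injective _ Subtype.val_injective).symm
        _ ≤ (F.T 0 : Set (Perm (Fin n))).ncard := Set.ncard_le_ncard hAT (Finset.finite_toSet _)
        _ = (F.T 0).card := Set.ncard_coe_finset _
    calc (n : ℝ) ^ (ε1 / 2 * n) = ((n : ℝ) ^ ((n : ℝ) / 2)) ^ ε1 := by
          rw [← Real.rpow_mul hnr0.le]; ring_nf
      _ ≤ (Fintype.card (alternatingGroup (Fin n)) : ℝ) ^ ε1 :=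
          Real.rpow_le_rpow (by positivity) (card_alt_lower n (by omega)) hε1.le
      _ ≤ (Fintype.card (alternatingGroup (Fin n)) : ℝ) ^ ε :=
          Real.rpow_le_rpow_of_exponent_le hcardpos hε1ε
      _ ≤ _ := hr
      _ ≤ _ := by exact_mod_cast h1
  obtain ⟨b, hb1, hb2, hb3⟩ := hA n hn0 L F (by rw [hL]) hgen hcard
  have hall := step6 hn1000 F (by rw [hL]) hgen (i0 + 1) (by omega) b
    (F.mono (by rw [hL]; have : 0 < n ^ 27 := by positivity
                omega) (by omega) hb1) hb2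
    (by linarith)
  rw [diam_le_iff hS]
  intro g
  obtain ⟨l, hl1, hl2, hl3⟩ := (hmem _ _).1 (hall g.1 g.2)
  -- lift the word to the alternating group
  have hlift : ∀ l : List (Perm (Fin n)), (∀ x ∈ l, x ∈ A) →
      ∃ m : List (alternatingGroup (Fin n)), m.length = l.length ∧ (∀ x ∈ m, x ∈ ball S r) ∧
        ((m.prod : alternatingGroup (Fin n)) : Perm (Fin n)) = l.prod := by
    intro l
    induction l with
    | nil => intro _; exact ⟨[], rfl, by simp, rfl⟩
    | cons a l ih =>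
      intro h
      obtain ⟨m, h1, h2, h3⟩ := ih (fun x hx => h x (List.mem_cons_of_mem _ hx))
      have ha := h a List.mem_cons_self
      rw [hAdef] at ha
      obtain ⟨a', ha', rfl⟩ := ha
      refine ⟨a' :: m, by simp [h1], ?_, ?_⟩
      · intro x hx
        rcases List.mem_cons.1 hx with rfl | hx
        · exact ha'
        · exact h2 x hx
      · rw [List.prod_cons, List.prod_cons, Subgroup.coe_mul, h3]
  obtain ⟨m, hm1, hm2, hm3⟩ := hlift l hl2
  have hmg : m.prod = g := Subtype.ext (by rw [hm3, hl3])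
  have h1 := prod_mem_ball hS m hm2
  rw [hmg] at h1
  have h2 : (cayleyGraph S).dist 1 g ≤ r * m.length := h1
  refine h2.trans (Nat.mul_le_mul_left r ?_)
  rw [hm1]
  calc l.length ≤ L ^ (i0 + 1 + 4) := hl1
    _ ≤ (n ^ 28) ^ (i0 + 1 + 4) := by
        apply Nat.pow_le_pow_left
        rw [hL, pow_succ n 27, mul_comm]
        exact Nat.mul_le_mul_left _ (by omega)
    _ = n ^ (28 * (i0 + 5)) := by rw [← pow_mul]
    _ ≤ _ := Nat.pow_le_pow_right (by omega) (by omega)

end MP731536
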