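import Pool.Agent.Lib.MP_731536_al.Defs2

/-!
# ALTIDX (MP_731536_al): small index subgroups of the alternating group
-/

set_option linter.unusedSectionVars false

open Equiv Finset

namespace MP731536

/-- ALTIDX. The alternating group has no proper subgroup of index less than the degree. -/
theorem alt_index {γ : Type*} [Fintype γ] [DecidableEq γ] (h5 : 5 ≤ Fintype.card γ)
    (H : Subgroup (alternatingGroup γ)) (h : H.index < Fintype.card γ) : H = ⊤ := by
  have h5' : 5 ≤ Nat.card γ := by rwa [Nat.card_eq_fintype_card]
  rcases alternatingGroup.normal_subgroup_eq_bot_or_eq_top h5' (N := H.normalCore) with h1 | h1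
  · exfalso
    have h2 : H.normalCore.index ∣ H.index.factorial := by
      rw [Subgroup.normalCore_eq_ker, Subgroup.index_ker, Subgroup.index_eq_card,
        ← Nat.card_perm]
      exact Subgroup.card_subgroup_dvd_card
        (MulAction.toPermHom (alternatingGroup γ) (alternatingGroup γ ⧸ H)).range
    rw [h1, Subgroup.index_bot] at h2
    have h3 := Nat.le_of_dvd (Nat.factorial_pos _) h2
    have hnt : Nontrivial γ := by
      rw [← Fintype.one_lt_card_iff_nontrivial]; omega
    have h4 : 2 * Nat.card (alternatingGroup γ) = (Fintype.card γ).factorial := by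
      rw [two_mul_nat_card_alternatingGroup, Nat.card_perm, Nat.card_eq_fintype_card]
    obtain ⟨m, hm⟩ : ∃ m, Fintype.card γ = m + 1 := ⟨Fintype.card γ - 1, by omega⟩
    have h6 : H.index.factorial ≤ m.factorial := Nat.factorial_le (by omega)
    rw [hm, Nat.factorial_succ] at h4
    have h7 : 0 < m.factorial := Nat.factorial_pos m
    have h8 : (m + 1) * m.factorial ≤ 2 * m.factorial := by
      rw [← h4]
      exact Nat.mul_le_mul_left 2 (h3.trans h6)
    have h9 := Nat.le_of_mul_le_mul_right h8 h7
    omega
  · rw [eq_top_iff, ← h1]
    exact H.normalCore_le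

end MP731536
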