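import Pool.Agent.Lib.MP_731536_al.Defs

/-!
# Basic facts (MP_731536_al)
-/

set_option linter.unusedSectionVars false

open Equiv Finset

namespace MP731536

variable {α β : Type*} [Fintype α] [DecidableEq α]

theorem Filt.succ {L : ℕ} (F : Filt α L) (hL : 1 ≤ L) (i : ℕ) : F.T i ⊆ F.T (i + 1) := by
  intro g hg
  have := F.step i [g] (by simpa using hL) (by simpa using hg)
  simpa using this

theorem Filt.mono {L : ℕ} (F : Filt α L) (hL : 1 ≤ L) {i j : ℕ} (hij : i ≤ j) :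
    F.T i ⊆ F.T j := by
  induction hij with
  | refl => exact Finset.Subset.refl _
  | step _ ih => exact ih.trans (F.succ hL _)

theorem Filt.mul {L : ℕ} (F : Filt α L) (hL : 2 ≤ L) {i : ℕ} {g h : Perm α}
    (hg : g ∈ F.T i) (hh : h ∈ F.T i) : g * h ∈ F.T (i + 1) := by
  have := F.step i [g, h] (by simpa using hL) (by simp [hg, hh])
  simpa using this

theorem Filt.mul3 {L : ℕ} (F : Filt α L) (hL : 3 ≤ L) {i : ℕ} {g h k : Perm α}
    (hg : g ∈ F.T i) (hh : h ∈ F.T i) (hk : k ∈ F.T i) : g * h * k ∈ F.T (i + 1) := by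
  have := F.step i [g, h, k] (by simpa using hL) (by simp [hg, hh, hk])
  simpa [mul_assoc] using this

theorem Filt.conj {L : ℕ} (F : Filt α L) (hL : 3 ≤ L) {i : ℕ} {t g : Perm α}
    (ht : t ∈ F.T i) (hg : g ∈ F.T i) : t * g * t⁻¹ ∈ F.T (i + 1) :=
  F.mul3 hL ht hg (F.inv_mem i t ht)

theorem Filt.comm {L : ℕ} (F : Filt α L) (hL : 4 ≤ L) {i : ℕ} {g h : Perm α}
    (hg : g ∈ F.T i) (hh : h ∈ F.T i) : g * h * g⁻¹ * h⁻¹ ∈ F.T (i + 1) := by
  have := F.step i [g, h, g⁻¹, h⁻¹] (by simpa using hL)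
    (by simp [hg, hh, F.inv_mem i g hg, F.inv_mem i h hh])
  simpa [mul_assoc] using this

theorem mem_fixPart {T : Finset (Perm α)} {X : Finset α} {t : Perm α} :
    t ∈ fixPart T X ↔ t ∈ T ∧ ∀ x ∈ X, t x = x := by
  simp [fixPart]

theorem fixPart_mono {T T' : Finset (Perm α)} {X X' : Finset α} (hT : T ⊆ T') (hX : X' ⊆ X) :
    fixPart T X ⊆ fixPart T' X' := by
  intro t ht
  rw [mem_fixPart] at *
  exact ⟨hT ht.1, fun x hx => ht.2 x (hX hx)⟩

theorem Gr_mono {T T' : Finset (Perm α)} {X X' : Finset α} (hT : T ⊆ T') (hX : X' ⊆ X) :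
    Gr T X ≤ Gr T' X' :=
  Subgroup.closure_mono (by exact_mod_cast fixPart_mono hT hX)

theorem Gr_fix {T : Finset (Perm α)} {X : Finset α} {g : Perm α} (hg : g ∈ Gr T X) :
    ∀ x ∈ X, g x = x := by
  refine Subgroup.closure_induction (p := fun g _ => ∀ x ∈ X, g x = x) ?_ ?_ ?_ ?_ hg
  · intro g hg
    have := (mem_fixPart.1 (Finset.mem_coe.1 hg)).2
    exact this
  · intro x _
    rfl
  · intro a b _ _ ha hb x hx
    rw [Perm.mul_apply, hb x hx, ha x hx]
  · intro a _ ha x hx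
    rw [Perm.inv_eq_iff_eq]
    exact (ha x hx).symm

theorem mem_Gr_of_mem_fixPart {T : Finset (Perm α)} {X : Finset α} {g : Perm α}
    (hg : g ∈ fixPart T X) : g ∈ Gr T X :=
  Subgroup.subset_closure (Finset.mem_coe.2 hg)

theorem mem_orb {H : Subgroup (Perm α)} {x y : α} : y ∈ orb H x ↔ ∃ g ∈ H, g x = y := by
  simp [orb]

theorem self_mem_orb (H : Subgroup (Perm α)) (x : α) : x ∈ orb H x :=
  mem_orb.2 ⟨1, H.one_mem, rfl⟩

theorem orb_symm {H : Subgroup (Perm α)} {x y : α} (h : y ∈ orb H x) : x ∈ orb H y := by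
  rw [mem_orb] at *
  obtain ⟨g, hg, rfl⟩ := h
  exact ⟨g⁻¹, H.inv_mem hg, by simp⟩

theorem orb_trans {H : Subgroup (Perm α)} {x y z : α} (h : y ∈ orb H x) (h' : z ∈ orb H y) :
    z ∈ orb H x := by
  rw [mem_orb] at *
  obtain ⟨g, hg, rfl⟩ := h
  obtain ⟨g', hg', rfl⟩ := h'
  exact ⟨g' * g, H.mul_mem hg' hg, rfl⟩

theorem orb_eq {H : Subgroup (Perm α)} {x y : α} (h : y ∈ orb H x) : orb H y = orb H x := by
  ext z
  exact ⟨fun hz => orb_trans h hz, fun hz => orb_trans (orb_symm h) hz⟩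

theorem orb_mono {H K : Subgroup (Perm α)} (h : H ≤ K) (x : α) : orb H x ⊆ orb K x := by
  intro y hy
  rw [mem_orb] at *
  obtain ⟨g, hg, rfl⟩ := hy
  exact ⟨g, h hg, rfl⟩

theorem mem_cls {E : Setoid α} {x y : α} : y ∈ cls E x ↔ E x y := by
  simp [cls]

theorem cls_eq {E : Setoid α} {x y : α} (h : E x y) : cls E y = cls E x := by
  ext z
  rw [mem_cls, mem_cls]
  exact ⟨fun hz => E.trans' h hz, fun hz => E.trans' (E.symm' h) hz⟩

theorem mem_rl {T : Finset (Perm α)} {X' X : Finset α} {e : α → β} {π : Perm α} :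
    π ∈ rl T X' X e ↔ (∀ x, x ∉ X' → π x = x) ∧
      ∃ t ∈ T, (∀ x ∈ X, t x = π x) ∧ ∀ x, e (t x) = e x := by
  simp [rl]

/-- A permutation supported in `X'` preserves each set containing `X'`. -/
theorem supp_mem {X' X : Finset α} (hX : X' ⊆ X) {π : Perm α} (h : ∀ x, x ∉ X' → π x = x)
    {x : α} (hx : x ∈ X) : π x ∈ X := by
  by_contra hc
  have h1 : π x ∉ X' := fun h' => hc (hX h')
  have h2 := h _ h1
  have h3 : π x = x := π.injective h2
  exact hc (by rw [h3]; exact hx)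

/-- The realised permutations form a filtration. -/
noncomputable def rlFilt {L : ℕ} (F : Filt α L) (X' X : Finset α) (hX : X' ⊆ X) (e : α → β) :
    Filt α L where
  T i := rl (F.T i) X' X e
  one_mem i := mem_rl.2 ⟨fun _ _ => rfl, 1, F.one_mem i, fun _ _ => rfl, fun _ => rfl⟩
  inv_mem i g hg := by
    obtain ⟨h1, t, ht, h2, h3⟩ := mem_rl.1 hg
    have h1' : ∀ x, x ∉ X' → g⁻¹ x = x := fun x hx => by
      rw [Perm.inv_eq_iff_eq]; exact (h1 x hx).symm
    refine mem_rl.2 ⟨h1', t⁻¹, F.inv_mem i t ht, ?_, ?_⟩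
    · intro x hx
      rw [Perm.inv_eq_iff_eq, h2 _ (supp_mem hX h1' hx)]
      simp
    · intro x
      have := h3 (t⁻¹ x)
      simpa using this.symm
  step i l hl hg := by
    have key : ∀ l : List (Perm α), (∀ g ∈ l, g ∈ rl (F.T i) X' X e) →
        (∀ x, x ∉ X' → l.prod x = x) ∧ ∃ m : List (Perm α), m.length = l.length ∧
          (∀ g ∈ m, g ∈ F.T i) ∧ (∀ x ∈ X, m.prod x = l.prod x) ∧
          ∀ x, e (m.prod x) = e x := by
      intro l
      induction l with
      | nil => intro _; exact ⟨fun _ _ => rfl, [], rfl, by simp, fun _ _ => rfl, fun _ => rfl⟩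
      | cons a l ih =>
        intro h
        obtain ⟨h1, m, hm1, hm2, hm3, hm4⟩ := ih (fun g hg => h g (List.mem_cons_of_mem _ hg))
        obtain ⟨h2, t, ht, h3, h4⟩ := mem_rl.1 (h a List.mem_cons_self)
        refine ⟨?_, t :: m, by simp [hm1], ?_, ?_, ?_⟩
        · intro x hx
          rw [List.prod_cons, Perm.mul_apply, h1 x hx, h2 x hx]
        · intro g hg
          rcases List.mem_cons.1 hg with rfl | hg
          · exact ht
          · exact hm2 g hg
        · intro x hx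
          rw [List.prod_cons, List.prod_cons, Perm.mul_apply, Perm.mul_apply, hm3 x hx,
            h3 _ (supp_mem hX h1 hx)]
        · intro x
          rw [List.prod_cons, Perm.mul_apply, h4, hm4]
    obtain ⟨h1, m, hm1, hm2, hm3, hm4⟩ := key l hg
    exact mem_rl.2 ⟨h1, m.prod, F.step i m (by rw [hm1]; exact hl) hm2, hm3, hm4⟩

@[simp] theorem rlFilt_T {L : ℕ} (F : Filt α L) (X' X : Finset α) (hX : X' ⊆ X) (e : α → β)
    (i : ℕ) : (rlFilt F X' X hX e).T i = rl (F.T i) X' X e := rfl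

theorem cyc3_apply_left {a b c : α} (hab : a ≠ b) (hca : c ≠ a) : cyc3 a b c a = b := by
  simp [cyc3, Perm.mul_apply, swap_apply_of_ne_of_ne hab hca.symm]

theorem cyc3_apply_mid {a b c : α} (hbc : b ≠ c) (hca : c ≠ a) : cyc3 a b c b = c := by
  simp [cyc3, Perm.mul_apply, swap_apply_of_ne_of_ne hca hbc.symm]

theorem cyc3_apply_right {a b c : α} : cyc3 a b c c = a := by
  simp [cyc3, Perm.mul_apply]

theorem cyc3_apply_of_ne {a b c x : α} (ha : x ≠ a) (hb : x ≠ b) (hc : x ≠ c) :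
    cyc3 a b c x = x := by
  simp [cyc3, Perm.mul_apply, swap_apply_of_ne_of_ne hb hc, swap_apply_of_ne_of_ne ha hb]

theorem conj_cyc3 (g : Perm α) (a b c : α) : g * cyc3 a b c * g⁻¹ = cyc3 (g a) (g b) (g c) := by
  unfold cyc3
  have h1 : g * (swap a b * swap b c) * g⁻¹ = (g * swap a b * g⁻¹) * (g * swap b c * g⁻¹) := by
    group
  rw [h1, ← Equiv.swap_apply_apply, ← Equiv.swap_apply_apply]

theorem cyc3_rot {a b c : α} (hab : a ≠ b) (hbc : b ≠ c) (hca : c ≠ a) :
    cyc3 a b c = cyc3 b c a := by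
  ext x
  by_cases h1 : x = a
  · subst h1; rw [cyc3_apply_left hab hca, cyc3_apply_right]
  by_cases h2 : x = b
  · subst h2; rw [cyc3_apply_mid hbc hca, cyc3_apply_left hbc hab]
  by_cases h3 : x = c
  · subst h3; rw [cyc3_apply_right, cyc3_apply_mid hca hab]
  rw [cyc3_apply_of_ne h1 h2 h3, cyc3_apply_of_ne h2 h3 h1]

theorem cyc3_inv (a b c : α) : (cyc3 a b c)⁻¹ = cyc3 c b a := by
  unfold cyc3
  rw [mul_inv_rev, swap_inv, swap_inv, swap_comm c b, swap_comm b a]

end MP731536
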