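import Pool.Prelude.Def_F_a30a721f
import Pool.Agent.Lib.MP_731536_al.Basics

/-!
# Cayley graphs, distances and words (MP_731536_al)
-/

set_option linter.unusedSectionVars false

open Equiv Finset Necf73648

namespace MP731536

section General

variable {G : Type*} [Group G]

theorem cayley_adj {S : Set G} {g h : G} :
    (cayleyGraph S).Adj g h ↔ g ≠ h ∧ (g⁻¹ * h ∈ S ∨ h⁻¹ * g ∈ S) := by
  simp [cayleyGraph, SimpleGraph.fromRel_adj]

/-- A walk from `g` to `h` is a word. -/
theorem word_of_walk {S : Set G} {g h : G} (p : (cayleyGraph S).Walk g h) :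
    ∃ l : List G, l.length = p.length ∧ (∀ x ∈ l, x ∈ S ∨ x⁻¹ ∈ S) ∧ g * l.prod = h := by
  induction p with
  | nil => exact ⟨[], rfl, by simp, by simp⟩
  | @cons u v w hadj p ih =>
    obtain ⟨l, hl1, hl2, hl3⟩ := ih
    refine ⟨(u⁻¹ * v) :: l, by simp [hl1], ?_, ?_⟩
    · intro x hx
      rcases List.mem_cons.1 hx with rfl | hx
      · rcases (cayley_adj.1 hadj).2 with h | h
        · exact Or.inl h
        · right; simpa using h
      · exact hl2 x hx
    · rw [List.prod_cons, ← hl3]; group

/-- A word gives a walk which is not longer. -/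
theorem walk_of_word {S : Set G} (l : List G) :
    ∀ g : G, (∀ x ∈ l, x ∈ S ∨ x⁻¹ ∈ S) →
      ∃ p : (cayleyGraph S).Walk g (g * l.prod), p.length ≤ l.length := by
  induction l with
  | nil =>
    intro g _
    exact ⟨(SimpleGraph.Walk.nil : (cayleyGraph S).Walk g g).copy rfl (by simp), by simp⟩
  | cons a l ih =>
    intro g h
    obtain ⟨p, hp⟩ := ih (g * a) (fun x hx => h x (List.mem_cons_of_mem _ hx))
    have heq : g * a * l.prod = g * (a :: l).prod := by rw [List.prod_cons, mul_assoc]
    by_cases ha : a = 1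
    · subst ha
      refine ⟨p.copy (by simp) heq, ?_⟩
      rw [SimpleGraph.Walk.length_copy]
      exact hp.trans (by simp)
    · have hadj : (cayleyGraph S).Adj g (g * a) := by
        rw [cayley_adj]
        refine ⟨by simpa using ha, ?_⟩
        rcases h a List.mem_cons_self with h | h
        · left; simpa using h
        · right; simpa using h
      refine ⟨(SimpleGraph.Walk.cons hadj p).copy rfl heq, ?_⟩
      rw [SimpleGraph.Walk.length_copy, SimpleGraph.Walk.length_cons, List.length_cons]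
      omega

theorem exists_word_of_closure {S : Set G} (hS : Subgroup.closure S = ⊤) (g : G) :
    ∃ l : List G, (∀ x ∈ l, x ∈ S ∨ x⁻¹ ∈ S) ∧ l.prod = g := by
  have hg : g ∈ Subgroup.closure S := by rw [hS]; trivial
  rw [← Subgroup.mem_toSubmonoid, Subgroup.closure_toSubmonoid] at hg
  obtain ⟨l, hl1, hl2⟩ := Submonoid.exists_list_of_mem_closure hg
  refine ⟨l, fun x hx => ?_, hl2⟩
  rcases hl1 x hx with h | h
  · exact Or.inl h
  · exact Or.inr h

theorem cayley_connected {S : Set G} (hS : Subgroup.closure S = ⊤) :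
    (cayleyGraph S).Connected := by
  rw [SimpleGraph.connected_iff]
  refine ⟨?_, ⟨1⟩⟩
  intro g h
  obtain ⟨l, hl1, hl2⟩ := exists_word_of_closure hS (g⁻¹ * h)
  obtain ⟨p, _⟩ := walk_of_word l g hl1
  rw [hl2] at p
  simpa using p.reachable

theorem dist_le_iff {S : Set G} (hS : Subgroup.closure S = ⊤) {g h : G} {k : ℕ} :
    (cayleyGraph S).dist g h ≤ k ↔
      ∃ l : List G, l.length ≤ k ∧ (∀ x ∈ l, x ∈ S ∨ x⁻¹ ∈ S) ∧ g * l.prod = h := by
  constructor
  · intro hd
    obtain ⟨p, hp⟩ := (cayley_connected hS).exists_walk_length_eq_dist g h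
    obtain ⟨l, hl1, hl2, hl3⟩ := word_of_walk p
    exact ⟨l, by omega, hl2, hl3⟩
  · rintro ⟨l, hl1, hl2, rfl⟩
    obtain ⟨p, hp⟩ := walk_of_word l g hl2
    exact (SimpleGraph.dist_le p).trans (hp.trans hl1)

/-- Left translations preserve distances. -/
theorem dist_left {S : Set G} (hS : Subgroup.closure S = ⊤) (g h : G) :
    (cayleyGraph S).dist g h = (cayleyGraph S).dist 1 (g⁻¹ * h) := by
  apply le_antisymm
  · rw [dist_le_iff hS]
    obtain ⟨l, h1, h2, h3⟩ := (dist_le_iff hS).1 (le_refl ((cayleyGraph S).dist 1 (g⁻¹ * h)))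
    exact ⟨l, h1, h2, by rw [one_mul] at h3; rw [h3]; group⟩
  · rw [dist_le_iff hS]
    obtain ⟨l, h1, h2, h3⟩ := (dist_le_iff hS).1 (le_refl ((cayleyGraph S).dist g h))
    exact ⟨l, h1, h2, by rw [← h3]; group⟩

theorem ediam_ne_top [Finite G] {S : Set G} (hS : Subgroup.closure S = ⊤) :
    (cayleyGraph S).ediam ≠ ⊤ :=
  SimpleGraph.connected_iff_ediam_ne_top.1 (cayley_connected hS)

theorem diam_le_iff [Finite G] {S : Set G} (hS : Subgroup.closure S = ⊤) {k : ℕ} :
    (cayleyGraph S).diam ≤ k ↔ ∀ g : G, (cayleyGraph S).dist 1 g ≤ k := by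
  constructor
  · intro h g
    exact (SimpleGraph.dist_le_diam (ediam_ne_top hS)).trans h
  · intro h
    obtain ⟨u, v, huv⟩ := (cayleyGraph S).exists_dist_eq_diam
    rw [← huv, dist_left hS]
    exact h _

theorem dist_lt_card [Fintype G] {S : Set G} (hS : Subgroup.closure S = ⊤) (g : G) :
    (cayleyGraph S).dist 1 g < Fintype.card G := by
  obtain ⟨p, hp1, hp2⟩ := (cayley_connected hS).exists_path_of_dist 1 g
  rw [← hp2]
  exact hp1.length_lt

theorem diam_le_card [Fintype G] {S : Set G} (hS : Subgroup.closure S = ⊤) :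
    (cayleyGraph S).diam ≤ Fintype.card G :=
  (diam_le_iff hS).2 (fun g => (dist_lt_card hS g).le)

/-- The elements of the group at distance at most `r` from the identity. -/
def ball (S : Set G) (r : ℕ) : Set G := {g | (cayleyGraph S).dist 1 g ≤ r}

theorem mem_ball_iff {S : Set G} (hS : Subgroup.closure S = ⊤) {r : ℕ} {g : G} :
    g ∈ ball S r ↔ ∃ l : List G, l.length ≤ r ∧ (∀ x ∈ l, x ∈ S ∨ x⁻¹ ∈ S) ∧ l.prod = g := by
  unfold ball
  rw [Set.mem_ofPred_eq, dist_le_iff hS]
  simp

theorem ball_inv {S : Set G} (hS : Subgroup.closure S = ⊤) {r : ℕ} {g : G} (hg : g ∈ ball S r) :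
    g⁻¹ ∈ ball S r := by
  rw [mem_ball_iff hS] at *
  obtain ⟨l, h1, h2, rfl⟩ := hg
  refine ⟨(l.map (fun x => x⁻¹)).reverse, by simpa using h1, ?_, ?_⟩
  · intro x hx
    rw [List.mem_reverse, List.mem_map] at hx
    obtain ⟨y, hy, rfl⟩ := hx
    rcases h2 y hy with h | h
    · right; simpa using h
    · left; exact h
  · rw [List.prod_inv_reverse]

theorem one_mem_ball {S : Set G} (r : ℕ) : (1 : G) ∈ ball S r := by
  simp [ball]

/-- Products of at most `k` elements of the ball of radius `r` lie in the ball of radius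
`r * k`. -/
theorem prod_mem_ball {S : Set G} (hS : Subgroup.closure S = ⊤) {r : ℕ} (l : List G)
    (hl : ∀ x ∈ l, x ∈ ball S r) : l.prod ∈ ball S (r * l.length) := by
  induction l with
  | nil => simpa using one_mem_ball 0
  | cons a l ih =>
    have h1 := ih (fun x hx => hl x (List.mem_cons_of_mem _ hx))
    have h2 := hl a List.mem_cons_self
    rw [mem_ball_iff hS] at h1 h2 ⊢
    obtain ⟨l1, h11, h12, h13⟩ := h1
    obtain ⟨l2, h21, h22, h23⟩ := h2
    refine ⟨l2 ++ l1, ?_, ?_, ?_⟩
    · rw [List.length_append, List.length_cons, Nat.mul_succ]; omega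
    · intro x hx
      rcases List.mem_append.1 hx with h | h
      · exact h22 x h
      · exact h12 x h
    · rw [List.prod_append, List.prod_cons, h13, h23]

end General

open Classical in
/-- The filtration of the words of length at most `L ^ i` in `A`. -/
noncomputable def wordFilt {α : Type*} [Fintype α] [DecidableEq α] (A : Set (Perm α))
    (hinv : ∀ g ∈ A, g⁻¹ ∈ A) (L : ℕ) : Filt α L where
  T i := univ.filter (fun g : Perm α => ∃ l : List (Perm α), l.length ≤ L ^ i ∧
        (∀ x ∈ l, x ∈ A) ∧ l.prod = g)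
  one_mem := by
    intro i
    rw [Finset.mem_filter]
    exact ⟨Finset.mem_univ _, [], by simp, by simp, rfl⟩
  inv_mem := by
    intro i g hg
    rw [Finset.mem_filter] at hg ⊢
    obtain ⟨_, l, h1, h2, rfl⟩ := hg
    refine ⟨Finset.mem_univ _, (l.map (fun x => x⁻¹)).reverse, by simpa using h1, ?_, ?_⟩
    · intro x hx
      rw [List.mem_reverse, List.mem_map] at hx
      obtain ⟨y, hy, rfl⟩ := hx
      exact hinv y (h2 y hy)
    · rw [List.prod_inv_reverse]
  step := by
    intro i l hl hg
    rw [Finset.mem_filter]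
    refine ⟨Finset.mem_univ _, ?_⟩
    have key : ∀ l : List (Perm α), (∀ g ∈ l, ∃ m : List (Perm α), m.length ≤ L ^ i ∧
        (∀ x ∈ m, x ∈ A) ∧ m.prod = g) → ∃ m : List (Perm α), m.length ≤ l.length * L ^ i ∧
        (∀ x ∈ m, x ∈ A) ∧ m.prod = l.prod := by
      intro l
      induction l with
      | nil => intro _; exact ⟨[], by simp, by simp, rfl⟩
      | cons a l ih =>
        intro h
        obtain ⟨m, h1, h2, h3⟩ := ih (fun x hx => h x (List.mem_cons_of_mem _ hx))
        obtain ⟨m', h1', h2', h3'⟩ := h a List.mem_cons_self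
        refine ⟨m' ++ m, ?_, ?_, ?_⟩
        · rw [List.length_append, List.length_cons, Nat.succ_mul]; omega
        · intro x hx
          rcases List.mem_append.1 hx with h | h
          · exact h2' x h
          · exact h2 x h
        · rw [List.prod_append, List.prod_cons, h3, h3']
    obtain ⟨m, h1, h2, h3⟩ := key l (fun g hg' => (Finset.mem_filter.1 (hg g hg')).2)
    refine ⟨m, h1.trans ?_, h2, h3⟩
    rw [pow_succ, mul_comm (L ^ i)]
    exact Nat.mul_le_mul_right _ hl

theorem mem_wordFilt {α : Type*} [Fintype α] [DecidableEq α] {A : Set (Perm α)}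
    {hinv : ∀ g ∈ A, g⁻¹ ∈ A} {L i : ℕ} {g : Perm α} :
    g ∈ (wordFilt A hinv L).T i ↔
      ∃ l : List (Perm α), l.length ≤ L ^ i ∧ (∀ x ∈ l, x ∈ A) ∧ l.prod = g := by
  unfold wordFilt
  simp

end MP731536
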