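import Mathlib

/-!
# Definitions for the theorem on large generating sets of the alternating group (MP_731536_al)

All permutation groups act on the left: `(g * h) x = g (h x)`.
-/

open Equiv Finset

namespace MP731536

variable {α β : Type*} [Fintype α] [DecidableEq α]

/-- A filtration: symmetric sets `T i` containing `1` such that every product of at most `L`
elements of `T i` lies in `T (i + 1)`. (In the application `T i` is a ball of radius
`L ^ i` in the Cayley graph.) -/
structure Filt (α : Type*) [Fintype α] [DecidableEq α] (L : ℕ) where
  T : ℕ → Finset (Perm α)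
  one_mem : ∀ i, 1 ∈ T i
  inv_mem : ∀ i g, g ∈ T i → g⁻¹ ∈ T i
  step : ∀ (i : ℕ) (l : List (Perm α)), l.length ≤ L → (∀ g ∈ l, g ∈ T i) → l.prod ∈ T (i + 1)

/-- The elements of `T` which fix `X` pointwise. -/
def fixPart (T : Finset (Perm α)) (X : Finset α) : Finset (Perm α) :=
  T.filter (fun t => ∀ x ∈ X, t x = x)

/-- The group generated by the elements of `T` which fix `X` pointwise. -/
def Gr (T : Finset (Perm α)) (X : Finset α) : Subgroup (Perm α) :=
  Subgroup.closure (fixPart T X : Set (Perm α))

open Classical in
/-- The orbit of `x` under the permutation group `H`. -/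
noncomputable def orb (H : Subgroup (Perm α)) (x : α) : Finset α :=
  univ.filter (fun y => ∃ g ∈ H, g x = y)

/-- The restriction of `g` to `X` (with the dummy value `x` at the points outside `X`). -/
def res (X : Finset α) (g : Perm α) : α → α := fun x => if x ∈ X then g x else x

/-- The number of distinct restrictions to `X` of elements of `T`. -/
def Im (T : Finset (Perm α)) (X : Finset α) : ℕ := (T.image (res X)).card

/-- The cycle `a → b → c → a` (when `a, b, c` are distinct). -/
def cyc3 (a b c : α) : Perm α := swap a b * swap b c

open Classical in
/-- The class of `x` under the equivalence relation `E`. -/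
noncomputable def cls (E : Setoid α) (x : α) : Finset α := univ.filter (fun y => E x y)

/-- The equivalence relation generated by the 3-cycles which lie in `W`. -/
def tc (W : Finset (Perm α)) : Setoid α :=
  Relation.EqvGen.setoid (fun p x => ∃ z, p ≠ x ∧ x ≠ z ∧ z ≠ p ∧ cyc3 p x z ∈ W)

/-- The 3-cycles which move three points of one class of `E`, a class with at least `q` elements. -/
def gens (E : Setoid α) (q : ℝ) : Set (Perm α) :=
  {g | ∃ a b c, a ≠ b ∧ b ≠ c ∧ c ≠ a ∧ E a b ∧ E b c ∧ q ≤ ((cls E a).card : ℝ) ∧ g = cyc3 a b c}

/-- The direct product of the alternating groups of the classes of `E` with at least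
`q` elements. -/
def PP (E : Setoid α) (q : ℝ) : Subgroup (Perm α) := Subgroup.closure (gens E q)

open Classical in
/-- The permutations `π` which are supported in `X'` and which agree on `X` with some element `t`
of `T` that preserves the colouring `e`. -/
noncomputable def rl (T : Finset (Perm α)) (X' X : Finset α) (e : α → β) : Finset (Perm α) :=
  univ.filter (fun π => (∀ x, x ∉ X' → π x = x) ∧
    ∃ t ∈ T, (∀ x ∈ X, t x = π x) ∧ ∀ x, e (t x) = e x)

end MP731536
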