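import Pool.Agent.Lib.MP_731536_al.Basics

/-!
# Further definitions (MP_731536_al)
-/

set_option linter.unusedSectionVars false

open Equiv Finset

namespace MP731536

/-- The uniform distribution on the family `w` of permutations of `Fin n` is nearly uniform on
points, on pairs and on triples. -/
structure NearUnif {n m : ℕ} (w : Fin m → Perm (Fin n)) : Prop where
  pos : 0 < m
  one_lower : ∀ x x' : Fin n,
    (m : ℝ) ≤ 2 * n * ((univ.filter (fun k => w k x = x')).card : ℝ)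
  two_lower : ∀ x y x' y' : Fin n, x ≠ y → x' ≠ y' →
    (m : ℝ) ≤ 2 * n * (n - 1) * ((univ.filter (fun k => w k x = x' ∧ w k y = y')).card : ℝ)
  two_upper : ∀ x y x' y' : Fin n, x ≠ y →
    ((univ.filter (fun k => w k x = x' ∧ w k y = y')).card : ℝ) * (n : ℝ) ^ 2 ≤ 4 * m
  three_upper : ∀ x y z x' y' z' : Fin n, x ≠ y → y ≠ z → z ≠ x →
    2 * n * (n - 1) * (n - 2) *
      ((univ.filter (fun k => w k x = x' ∧ w k y = y' ∧ w k z = z')).card : ℝ) ≤ 3 * m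

/-- The conclusion of the potential lemma, with the constant `Ct`. -/
def PotBound (κ ν Ct : ℝ) : Prop :=
  ∀ c : ℝ, 0 < c → c ≤ 1 / 4 → ∀ n : ℕ, 1 ≤ n → 16 / κ ≤ (n : ℝ) ^ (c / 2) →
    ∀ (m : ℕ) (w : Fin m → Perm (Fin n)), NearUnif w →
    ∀ (Γ : Finset (Fin n)) (O : Fin n → Finset (Fin n)), κ * n ≤ (Γ.card : ℝ) →
      (∀ γ ∈ Γ, ((O γ).card : ℝ) ≤ (n : ℝ) ^ (1 - c)) →
      ∃ (t : ℕ) (k : Fin t → Fin m), (t : ℝ) ≤ Ct / c ∧
        ((univ.filter (fun a : Fin n => ∃ b, b ≠ a ∧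
          ∀ l, w (k l) a ∈ Γ → w (k l) b ∈ O (w (k l) a))).card : ℝ) < ν * n

end MP731536
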