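import Pool.Agent.Lib.MP_731536_al.Defs

/-!
# DENS (MP_731536_al)
-/

open Equiv Finset

namespace MP731536

/-- DENS. Suppose that the shortest word for `h` has length `r > 3 k`; let `h_i` be its prefix of
length `i`. The sets `h_{3i} A`, `0 ≤ i ≤ k`, are pairwise disjoint (their elements have word
length between `3i-1` and `3i+1`), so `(k+1) |A| ≤ |H|`, contradiction. -/
theorem dens {G : Type*} [Group G] (H : Subgroup G) [Finite H] (A : Finset G) (h1 : 1 ∈ A)
    (hinv : ∀ g ∈ A, g⁻¹ ∈ A) (hH : Subgroup.closure (A : Set G) = H) (k : ℕ)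
    (hk : Nat.card H ≤ k * A.card) :
    ∀ h ∈ H, ∃ l : List G, l.length ≤ 3 * k ∧ (∀ g ∈ l, g ∈ A) ∧ l.prod = h := by
  classical
  intro h hh
  have hex : ∃ r : ℕ, ∃ l : List G, l.length = r ∧ (∀ g ∈ l, g ∈ A) ∧ l.prod = h := by
    rw [← hH, ← Subgroup.mem_toSubmonoid, Subgroup.closure_toSubmonoid] at hh
    obtain ⟨l, hl, hlp⟩ := Submonoid.exists_list_of_mem_closure hh
    refine ⟨l.length, l, rfl, ?_, hlp⟩
    intro g hg
    rcases hl g hg with h2 | h2
    · exact h2
    · have := hinv _ (Finset.mem_coe.1 (Set.mem_inv.1 h2))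
      rwa [inv_inv] at this
  obtain ⟨l, hlr, hlA, hlp⟩ := Nat.find_spec hex
  have hmin := fun m (hm : m < Nat.find hex) => Nat.find_min hex hm
  by_contra hcon
  have hlen : 3 * k < l.length := by
    by_contra h3
    exact hcon ⟨l, by omega, hlA, hlp⟩
  -- prefixes
  let pre : ℕ → G := fun i => (l.take i).prod
  have hpreH : ∀ i, pre i ∈ H := by
    intro i
    rw [← hH]
    apply Subgroup.list_prod_mem
    intro g hg
    exact Subgroup.subset_closure (hlA g (List.mem_of_mem_take hg))
  have hAH : ∀ a ∈ A, a ∈ H := by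
    intro a ha
    rw [← hH]
    exact Subgroup.subset_closure ha
  -- a word for a prefix has at least its length
  have hshort : ∀ i, i ≤ l.length → ∀ m : List G, (∀ g ∈ m, g ∈ A) → m.prod = pre i →
      i ≤ m.length := by
    intro i hi m hm hmp
    by_contra h4
    have h5 : (m ++ l.drop i).length < Nat.find hex := by
      rw [← hlr, List.length_append, List.length_drop]
      omega
    refine hmin _ h5 ⟨m ++ l.drop i, rfl, ?_, ?_⟩
    · intro g hg
      rcases List.mem_append.1 hg with h6 | h6
      · exact hm g h6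
      · exact hlA g (List.mem_of_mem_drop h6)
    · rw [List.prod_append, hmp, List.prod_take_mul_prod_drop, hlp]
  have hkey : ∀ i j : ℕ, i < j → j ≤ k → ∀ a ∈ A, ∀ b ∈ A, pre (3 * i) * a ≠ pre (3 * j) * b := by
    intro i j hij hjk a ha b hb hab
    have h6 := hshort (3 * j) (by omega) (l.take (3 * i) ++ [a, b⁻¹]) ?_ ?_
    · rw [List.length_append, List.length_take] at h6
      have h7 : min (3 * i) l.length = 3 * i := by omega
      rw [h7] at h6
      simp at h6
      omega
    · intro g hg
      rcases List.mem_append.1 hg with h7 | h7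
      · exact hlA g (List.mem_of_mem_take h7)
      · simp only [List.mem_cons, List.not_mem_nil, or_false] at h7
        rcases h7 with rfl | rfl
        · exact ha
        · exact hinv b hb
    · rw [List.prod_append]
      change pre (3 * i) * [a, b⁻¹].prod = pre (3 * j)
      rw [List.prod_cons, List.prod_singleton, ← mul_assoc, hab, mul_assoc, mul_inv_cancel,
        mul_one]
  let f : Fin (k + 1) × A → H := fun x =>
    ⟨pre (3 * x.1) * x.2, H.mul_mem (hpreH _) (hAH _ x.2.2)⟩
  have hf : Function.Injective f := by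
    rintro ⟨i, a, ha⟩ ⟨j, b, hb⟩ hab
    have hab' : pre (3 * i) * a = pre (3 * j) * b := congrArg Subtype.val hab
    rcases lt_trichotomy (i : ℕ) (j : ℕ) with h7 | h7 | h7
    · exact absurd hab' (hkey i j h7 (by omega) a ha b hb)
    · have h8 : i = j := Fin.ext h7
      subst h8
      have h9 : a = b := mul_left_cancel hab'
      subst h9
      rfl
    · exact absurd hab'.symm (hkey j i h7 (by omega) b hb a ha)
  have hcard := Nat.card_le_card_of_injective f hf
  rw [Nat.card_prod, Nat.card_eq_fintype_card, Fintype.card_fin, Nat.card_eq_fintype_card,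
    Fintype.card_coe] at hcard
  have h10 : 0 < A.card := Finset.card_pos.2 ⟨1, h1⟩
  have : (k + 1) * A.card ≤ k * A.card := hcard.trans hk
  rw [add_mul] at this
  omega

end MP731536
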