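import Pool.Agent.Lib.MP_731536_al.Defs2
import Pool.Agent.Lib.MP_731536_al.Dens

set_option linter.unusedSectionVars false

open Equiv Finset

namespace MP731536

variable {α : Type*} [Fintype α] [DecidableEq α]

private theorem tI_pres {X : Finset α} {t π : Perm α} (hπ : ∀ x, x ∉ X → π x = x)
    (htπ : ∀ x ∈ X, t x = π x) : (∀ x ∈ X, t x ∈ X) ∧ (∀ x ∈ X, t⁻¹ x ∈ X) := by
  have h1 : ∀ x ∈ X, π x ∈ X := fun x hx => supp_mem (Finset.Subset.refl X) hπ hx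
  have h2 : ∀ x, x ∉ X → π⁻¹ x = x := fun x hx => by
    rw [Perm.inv_eq_iff_eq]; exact (hπ x hx).symm
  have h3 : ∀ x ∈ X, π⁻¹ x ∈ X := fun x hx => supp_mem (Finset.Subset.refl X) h2 hx
  refine ⟨fun x hx => by rw [htπ x hx]; exact h1 x hx, fun x hx => ?_⟩
  have : t⁻¹ x = π⁻¹ x := by
    rw [Perm.inv_eq_iff_eq, htπ _ (h3 x hx)]
    simp
  rw [this]
  exact h3 x hx

private theorem tI_conj_fix {L : ℕ} (F : Filt α L) (hL : 3 ≤ L) {k : ℕ} {X : Finset α}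
    {t u : Perm α} (ht : t ∈ F.T k) (htX : ∀ x ∈ X, t⁻¹ x ∈ X) (hu : u ∈ fixPart (F.T k) X) :
    t * u * t⁻¹ ∈ fixPart (F.T (k + 1)) X := by
  rw [mem_fixPart] at hu ⊢
  refine ⟨F.conj hL ht hu.1, fun x hx => ?_⟩
  rw [Perm.mul_apply, Perm.mul_apply, hu.2 _ (htX x hx)]
  simp

private theorem tI_conj_Gr {L : ℕ} (F : Filt α L) (hL : 3 ≤ L) {k : ℕ} {X : Finset α}
    {t g : Perm α} (ht : t ∈ F.T k) (htX : ∀ x ∈ X, t⁻¹ x ∈ X) (hg : g ∈ Gr (F.T k) X) :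
    t * g * t⁻¹ ∈ Gr (F.T (k + 1)) X := by
  refine Subgroup.closure_induction (p := fun g _ => t * g * t⁻¹ ∈ Gr (F.T (k + 1)) X)
    ?_ ?_ ?_ ?_ hg
  · intro g hg
    exact mem_Gr_of_mem_fixPart (tI_conj_fix F hL ht htX (Finset.mem_coe.1 hg))
  · simp
  · intro a b _ _ ha hb
    have := (Gr (F.T (k + 1)) X).mul_mem ha hb
    have h2 : t * a * t⁻¹ * (t * b * t⁻¹) = t * (a * b) * t⁻¹ := by group
    rwa [h2] at this
  · intro a _ ha
    have := (Gr (F.T (k + 1)) X).inv_mem ha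
    have h2 : (t * a * t⁻¹)⁻¹ = t * a⁻¹ * t⁻¹ := by group
    rwa [h2] at this

private theorem tI_map_orb {L : ℕ} (F : Filt α L) (hL : 3 ≤ L) {k : ℕ} {X : Finset α}
    {t : Perm α} (ht : t ∈ F.T k) (htX : ∀ x ∈ X, t⁻¹ x ∈ X) {x y : α}
    (hy : y ∈ orb (Gr (F.T k) X) x) : t y ∈ orb (Gr (F.T (k + 1)) X) (t x) := by
  rw [mem_orb] at hy ⊢
  obtain ⟨g, hg, rfl⟩ := hy
  exact ⟨t * g * t⁻¹, tI_conj_Gr F hL ht htX hg, by simp [Perm.mul_apply]⟩

/-- Pigeonhole on the orbits. -/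
private theorem tI_fib {n L : ℕ} (F : Filt (Fin n) L) (X : Finset (Fin n)) (j : ℕ)
    (Pf : Finset (Perm (Fin n))) (hne : Pf.Nonempty) (f : Perm (Fin n) → Fin n) (s q : ℝ)
    (hs : 1 ≤ s) (hqs : (n : ℝ) < q * s)
    (hf : ∀ π ∈ Pf, s ≤ ((orb (Gr (F.T (j + 1)) X) (f π)).card : ℝ)) :
    ∃ (k : ℕ) (π0 : Perm (Fin n)), π0 ∈ Pf ∧ k ≤ n ∧ (k : ℝ) < q ∧
      Pf.card ≤ k * (Pf.filter (fun π => f π ∈ orb (Gr (F.T (j + 1)) X) (f π0))).card := by
  classical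
  set H := Gr (F.T (j + 1)) X
  set I := Pf.image (fun π => orb H (f π)) with hI
  have hIne : I.Nonempty := hne.image _
  have hdisj : ∀ A ∈ I, ∀ B ∈ I, A ≠ B → Disjoint A B := by
    intro A hA B hB hAB
    obtain ⟨π, hπ, rfl⟩ := Finset.mem_image.1 hA
    obtain ⟨ρ, hρ, rfl⟩ := Finset.mem_image.1 hB
    rw [Finset.disjoint_left]
    intro x hx hx'
    exact hAB ((orb_eq hx).symm.trans (orb_eq hx'))
  have hsum : ∑ A ∈ I, A.card ≤ n := by
    rw [← Finset.card_biUnion (fun A hA B hB hAB => hdisj A hA B hB hAB)]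
    calc _ ≤ (univ : Finset (Fin n)).card := Finset.card_le_univ _
      _ = n := by simp
  have hsum2 : (I.card : ℝ) * s ≤ n := by
    have h1 : (I.card : ℝ) * s ≤ ∑ A ∈ I, (A.card : ℝ) := by
      rw [← nsmul_eq_mul]
      refine Finset.card_nsmul_le_sum _ _ _ ?_
      intro A hA
      obtain ⟨π, hπ, rfl⟩ := Finset.mem_image.1 hA
      exact hf π hπ
    refine h1.trans ?_
    exact_mod_cast hsum
  have hk : (I.card : ℝ) ≤ n := by nlinarith [(Nat.cast_nonneg I.card : (0 : ℝ) ≤ I.card)]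
  have hkq : (I.card : ℝ) < q := by
    by_contra hc
    push Not at hc
    nlinarith
  -- pigeonhole
  have hpg : ∃ A ∈ I, Pf.card ≤ I.card * (Pf.filter (fun π => orb H (f π) = A)).card := by
    by_contra hc
    push Not at hc
    have h1 : Pf.card = ∑ A ∈ I, (Pf.filter (fun π => orb H (f π) = A)).card :=
      Finset.card_eq_sum_card_image _ _
    have h2 : ∑ A ∈ I, I.card * (Pf.filter (fun π => orb H (f π) = A)).card <
        ∑ A ∈ I, Pf.card := Finset.sum_lt_sum_of_nonempty hIne hc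
    rw [← Finset.mul_sum, ← h1, Finset.sum_const, smul_eq_mul] at h2
    exact lt_irrefl _ h2
  obtain ⟨A, hA, hAc⟩ := hpg
  obtain ⟨π0, hπ0, rfl⟩ := Finset.mem_image.1 hA
  refine ⟨I.card, π0, hπ0, by exact_mod_cast hk, hkq, hAc.trans ?_⟩
  refine Nat.mul_le_mul_left _ (Finset.card_le_card ?_)
  intro π hπ
  rw [Finset.mem_filter] at hπ ⊢
  refine ⟨hπ.1, ?_⟩
  have h3 := hπ.2
  rw [show orb H (f π0) = orb H (f π) from h3.symm]
  exact self_mem_orb _ _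

theorem typeI {n L : ℕ} (F : Filt (Fin n) L) (hL : 3 * n + 3 ≤ L) (X : Finset (Fin n))
    (P : Subgroup (Perm (Fin n))) (j : ℕ) (hPX : ∀ π ∈ P, ∀ x, x ∉ X → π x = x)
    (hP : ∀ π ∈ P, ∃ t ∈ F.T j, ∀ x ∈ X, t x = π x) (q s : ℝ) (hs : 0 < s)
    (hqs : (n : ℝ) < q * s) (hqn : 1 ≤ s)
    (hidx : ∀ Q : Subgroup (Perm (Fin n)), Q ≤ P →
      (Nat.card P : ℝ) < q * (Nat.card Q : ℝ) → Q = P)
    (γ : Fin n) (hγ : γ ∉ X) (horb : s ≤ ((orb (Gr (F.T j) X) γ).card : ℝ))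
    (t : Perm (Fin n)) (ht : t ∈ F.T (j + 2)) (π : Perm (Fin n)) (hπ : π ∈ P)
    (htπ : ∀ x ∈ X, t x = π x) : t γ ∈ orb (Gr (F.T (j + 3)) X) γ := by
  classical
  have hL3 : 3 ≤ L := by omega
  have hL1 : 1 ≤ L := by omega
  choose! τ hτ hτX using hP
  have hpres : ∀ ρ ∈ P, (∀ x ∈ X, τ ρ x ∈ X) ∧ (∀ x ∈ X, (τ ρ)⁻¹ x ∈ X) :=
    fun ρ hρ => tI_pres (hPX ρ hρ) (hτX ρ hρ)
  set Pf : Finset (Perm (Fin n)) := univ.filter (fun ρ => ρ ∈ P) with hPf
  have hmemPf : ∀ ρ, ρ ∈ Pf ↔ ρ ∈ P := fun ρ => by simp [hPf]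
  have hPfcard : Nat.card P = Pf.card := by
    rw [Nat.card_eq_fintype_card, Fintype.card_subtype]
  have hne : Pf.Nonempty := ⟨1, (hmemPf 1).2 P.one_mem⟩
  have hf : ∀ ρ ∈ Pf, s ≤ ((orb (Gr (F.T (j + 1)) X) (τ ρ γ)).card : ℝ) := by
    intro ρ hρ
    have hρP := (hmemPf ρ).1 hρ
    refine horb.trans ?_
    have h1 : ((orb (Gr (F.T j) X) γ).image (τ ρ)) ⊆ orb (Gr (F.T (j + 1)) X) (τ ρ γ) := by
      intro y hy
      obtain ⟨z, hz, rfl⟩ := Finset.mem_image.1 hy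
      exact tI_map_orb F hL3 (hτ ρ hρP) (hpres ρ hρP).2 hz
    have h2 := Finset.card_le_card h1
    rw [Finset.card_image_of_injective _ (τ ρ).injective] at h2
    exact_mod_cast h2
  obtain ⟨k, π0, hπ0, hkn, hkq, hkcard⟩ := tI_fib F X j Pf hne (fun ρ => τ ρ γ) s q hqn hqs hf
  set Fib := Pf.filter (fun ρ => τ ρ γ ∈ orb (Gr (F.T (j + 1)) X) (τ π0 γ)) with hFib
  have hFibP : ∀ ρ ∈ Fib, ρ ∈ P := fun ρ hρ => (hmemPf ρ).1 (Finset.mem_filter.1 hρ).1
  have hπ0F : π0 ∈ Fib := Finset.mem_filter.2 ⟨hπ0, self_mem_orb _ _⟩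
  set A : Finset (Perm (Fin n)) := (Fib ×ˢ Fib).image (fun p => p.1⁻¹ * p.2) with hA
  have hAmem : ∀ g, g ∈ A ↔ ∃ a ∈ Fib, ∃ b ∈ Fib, a⁻¹ * b = g := by
    intro g
    rw [hA, Finset.mem_image]
    constructor
    · rintro ⟨p, hp, rfl⟩
      exact ⟨p.1, (Finset.mem_product.1 hp).1, p.2, (Finset.mem_product.1 hp).2, rfl⟩
    · rintro ⟨a, ha, b, hb, rfl⟩
      exact ⟨(a, b), Finset.mem_product.2 ⟨ha, hb⟩, rfl⟩
  have h1A : (1 : Perm (Fin n)) ∈ A := (hAmem 1).2 ⟨π0, hπ0F, π0, hπ0F, by simp⟩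
  have hinvA : ∀ g ∈ A, g⁻¹ ∈ A := by
    intro g hg
    obtain ⟨a, ha, b, hb, rfl⟩ := (hAmem g).1 hg
    exact (hAmem _).2 ⟨b, hb, a, ha, by group⟩
  have hFibA : Fib.card ≤ A.card := by
    have : Fib.image (fun b => π0⁻¹ * b) ⊆ A := by
      intro g hg
      obtain ⟨b, hb, rfl⟩ := Finset.mem_image.1 hg
      exact (hAmem _).2 ⟨π0, hπ0F, b, hb, rfl⟩
    have h2 := Finset.card_le_card this
    rwa [Finset.card_image_of_injective _ (mul_right_injective _)] at h2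
  have hAP : Subgroup.closure (A : Set (Perm (Fin n))) ≤ P := by
    rw [Subgroup.closure_le]
    intro g hg
    obtain ⟨a, ha, b, hb, rfl⟩ := (hAmem g).1 (Finset.mem_coe.1 hg)
    exact P.mul_mem (P.inv_mem (hFibP a ha)) (hFibP b hb)
  have hclos : Subgroup.closure (A : Set (Perm (Fin n))) = P := by
    apply hidx _ hAP
    have h1 : A.card ≤ Nat.card (Subgroup.closure (A : Set (Perm (Fin n)))) := by
      have : (A : Set (Perm (Fin n))) ⊆ Subgroup.closure (A : Set (Perm (Fin n))) :=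
        Subgroup.subset_closure
      have h3 := Nat.card_mono (Set.toFinite _) this
      simpa using h3
    rw [hPfcard]
    have h2 : Pf.card ≤ k * Nat.card (Subgroup.closure (A : Set (Perm (Fin n)))) :=
      hkcard.trans (Nat.mul_le_mul_left _ (hFibA.trans h1))
    have h3 : (0 : ℝ) < Nat.card (Subgroup.closure (A : Set (Perm (Fin n)))) := by
      exact_mod_cast Nat.card_pos
    calc (Pf.card : ℝ) ≤ k * Nat.card (Subgroup.closure (A : Set (Perm (Fin n)))) := by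
          exact_mod_cast h2
      _ < _ := by gcongr
  obtain ⟨l, hl1, hl2, hl3⟩ := dens P A h1A hinvA hclos k
    (by rw [hPfcard]; exact hkcard.trans (Nat.mul_le_mul_left _ hFibA)) π hπ
  -- lifts of the letters
  have hlift : ∀ g ∈ A, ∃ u ∈ F.T (j + 1), (∀ x ∈ X, u x = g x) ∧ (∀ x ∈ X, u x ∈ X) ∧
      (∀ x ∈ X, u⁻¹ x ∈ X) ∧ u γ ∈ orb (Gr (F.T (j + 2)) X) γ := by
    intro g hg
    obtain ⟨a, ha, b, hb, rfl⟩ := (hAmem g).1 hg
    have haP := hFibP a ha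
    have hbP := hFibP b hb
    have hgP : a⁻¹ * b ∈ P := P.mul_mem (P.inv_mem haP) hbP
    have hu : ∀ x ∈ X, ((τ a)⁻¹ * τ b) x = (a⁻¹ * b) x := by
      intro x hx
      rw [Perm.mul_apply, Perm.mul_apply, hτX b hbP x hx]
      have hbx : b x ∈ X := supp_mem (Finset.Subset.refl X) (hPX b hbP) hx
      have hax : a⁻¹ (b x) ∈ X :=
        supp_mem (Finset.Subset.refl X) (hPX _ (P.inv_mem haP)) hbx
      rw [Perm.inv_eq_iff_eq, hτX a haP _ hax]
      simp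
    have hpr := tI_pres (hPX _ hgP) hu
    refine ⟨(τ a)⁻¹ * τ b, F.mul (by omega) (F.inv_mem _ _ (hτ a haP)) (hτ b hbP), hu,
      hpr.1, hpr.2, ?_⟩
    have h1 := (Finset.mem_filter.1 ha).2
    have h2 := (Finset.mem_filter.1 hb).2
    have h3 : τ b γ ∈ orb (Gr (F.T (j + 1)) X) (τ a γ) := orb_trans (orb_symm h1) h2
    have h4 := tI_map_orb (t := (τ a)⁻¹) F hL3 (F.succ hL1 j (F.inv_mem _ _ (hτ a haP)))
      (by simpa using (hpres a haP).1) h3
    simpa [Perm.mul_apply] using h4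
  -- products of the lifts
  have hprod : ∀ l : List (Perm (Fin n)), (∀ g ∈ l, g ∈ A) → l.length ≤ L →
      ∃ m : List (Perm (Fin n)), m.length = l.length ∧ (∀ g ∈ m, g ∈ F.T (j + 1)) ∧
        (∀ x ∈ X, m.prod x = l.prod x) ∧ (∀ x ∈ X, m.prod x ∈ X) ∧ (∀ x ∈ X, m.prod⁻¹ x ∈ X) ∧
        m.prod γ ∈ orb (Gr (F.T (j + 3)) X) γ := by
    intro l
    induction l using List.reverseRecOn with
    | nil =>
      intro _ _
      exact ⟨[], rfl, by simp, fun _ _ => rfl, by simp, by simp, by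
        simpa using self_mem_orb _ _⟩
    | append_singleton l g ih =>
      intro hl hlen
      have hlen' : l.length ≤ L := by simp at hlen; omega
      obtain ⟨m, hm1, hm2, hm3, hm4, hm5, hm6⟩ :=
        ih (fun g hg => hl g (List.mem_append_left _ hg)) hlen'
      obtain ⟨u, hu1, hu2, hu3, hu4, hu5⟩ := hlift g (hl g (by simp))
      have hgX : ∀ x ∈ X, g x ∈ X := fun x hx => by rw [← hu2 x hx]; exact hu3 x hx
      refine ⟨m ++ [u], by simp [hm1], ?_, ?_, ?_, ?_, ?_⟩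
      · intro g' hg'
        rcases List.mem_append.1 hg' with h | h
        · exact hm2 g' h
        · rw [List.mem_singleton.1 h]; exact hu1
      · intro x hx
        simp only [List.prod_append, List.prod_singleton, Perm.mul_apply]
        rw [hu2 x hx, hm3 _ (hgX x hx)]
      · intro x hx
        simp only [List.prod_append, List.prod_singleton, Perm.mul_apply]
        exact hm4 _ (hu3 x hx)
      · intro x hx
        simp only [List.prod_append, List.prod_singleton, mul_inv_rev, Perm.mul_apply]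
        exact hu4 _ (hm5 x hx)
      · simp only [List.prod_append, List.prod_singleton, Perm.mul_apply]
        have hmT : m.prod ∈ F.T (j + 2) := F.step (j + 1) m (by rw [hm1]; exact hlen') hm2
        have := tI_map_orb (t := m.prod) F hL3 hmT hm5 hu5
        exact orb_trans hm6 this
  obtain ⟨m, hm1, hm2, hm3, hm4, hm5, hm6⟩ := hprod l hl2 (by omega)
  have hmT : m.prod ∈ F.T (j + 2) := F.step (j + 1) m (by omega) hm2
  have hfix : t * m.prod⁻¹ ∈ fixPart (F.T (j + 3)) X := by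
    rw [mem_fixPart]
    refine ⟨F.mul (by omega) ht (F.inv_mem _ _ hmT), fun x hx => ?_⟩
    rw [Perm.mul_apply, htπ _ (hm5 x hx), ← hl3, ← hm3 _ (hm5 x hx)]
    simp
  refine orb_trans hm6 ?_
  rw [mem_orb]
  exact ⟨t * m.prod⁻¹, mem_Gr_of_mem_fixPart hfix, by simp [Perm.mul_apply]⟩

end MP731536
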